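import Pool.Agent.Q83.NT.Combine

/-!
# Commuting invertible maps, essentially bounded functions, products with finite rotations
-/

set_option autoImplicit false

namespace Pool.Agent.Q83.NT

open MeasureTheory ProbabilityTheory Finset Filter Topology
open scoped Pointwise ENNReal

universe u

variable {X : Type u} [mX : MeasurableSpace X] {μ : Measure X}

/-- the measure preserving bijections with measurable inverse -/
def mpSub (μ : Measure X) : Subgroup (Equiv.Perm X) where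
  carrier := {σ | MeasurePreserving σ μ μ ∧ MeasurePreserving σ.symm μ μ}
  one_mem' := ⟨MeasurePreserving.id μ, MeasurePreserving.id μ⟩
  mul_mem' := fun ha hb => ⟨ha.1.comp hb.1, hb.2.comp ha.2⟩
  inv_mem' := fun ha => ⟨ha.2, ha.1⟩

theorem mem_mpSub {σ : Equiv.Perm X} (h1 : Measurable σ.symm) (h2 : MeasurePreserving σ μ μ) :
    σ ∈ mpSub μ := by
  refine ⟨h2, ?_⟩
  let e : X ≃ᵐ X := { σ with measurable_toFun := h2.measurable, measurable_invFun := h1 }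
  exact MeasurePreserving.symm e h2

theorem exists_act {ι : Type*} (T : ι → Equiv.Perm X) (hm : ∀ i, Measurable (T i).symm)
    (hp : ∀ i, MeasurePreserving (T i) μ μ) (hc : ∀ i j, T i * T j = T j * T i) :
    ∃ (G : Type u) (_ : AddCommGroup G) (A : G → X → X) (v : ι → G), IsAct μ A ∧
      ∀ i (n : ℤ) x, A (n • v i) x = (T i ^ n) x := by
  let K := Subgroup.closure (Set.range T)
  let inst : CommGroup K := { (inferInstance : Group K) with
    mul_comm := by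
      have h : IsMulCommutative K := Subgroup.isMulCommutative_closure (by
        rintro _ ⟨i, rfl⟩ _ ⟨j, rfl⟩
        exact hc i j)
      exact fun a b => h.is_comm.comm a b }
  refine ⟨Additive K, inferInstance, fun g x => ((g.toMul : K) : Equiv.Perm X) x,
    fun i => Additive.ofMul ⟨T i, Subgroup.subset_closure ⟨i, rfl⟩⟩, ⟨?_, ?_, ?_⟩, ?_⟩
  · intro x
    rfl
  · intro g h x
    rfl
  · intro g
    have h1 : K ≤ mpSub μ := by
      rw [Subgroup.closure_le]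
      rintro _ ⟨i, rfl⟩
      exact mem_mpSub (hm i) (hp i)
    exact (h1 g.toMul.2).1
  · intro i n x
    show (((Additive.toMul (n • (Additive.ofMul (⟨T i, Subgroup.subset_closure ⟨i, rfl⟩⟩ : K)))) :
      K) : Equiv.Perm X) x = _
    rw [toMul_zsmul, toMul_ofMul]
    have h2 : (((⟨T i, Subgroup.subset_closure ⟨i, rfl⟩⟩ : K) ^ n : K) : Equiv.Perm X) = T i ^ n :=
      Subgroup.coe_zpow _ _ _
    rw [h2]

theorem zpow_mp {σ : Equiv.Perm X} (h1 : Measurable σ.symm) (h2 : MeasurePreserving σ μ μ)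
    (n : ℤ) : MeasurePreserving ⇑(σ ^ n) μ μ :=
  ((mpSub μ).zpow_mem (mem_mpSub h1 h2) n).1

theorem linf {f : X → ℝ} (hf : MemLp f ⊤ μ) : ∃ (C : ℝ) (g : X → ℝ), 0 < C ∧ Measurable g ∧
    (∀ x, |g x| ≤ 1) ∧ ∀ᵐ x ∂μ, f x = C * g x := by
  set C : ℝ := (eLpNormEssSup f μ).toReal + 1 with hC
  have hC0 : 0 < C := by positivity
  have hne : eLpNormEssSup f μ ≠ ∞ := by
    have := hf.2
    rw [eLpNorm_exponent_top] at this
    exact this.ne
  have h1 : ∀ᵐ x ∂μ, |f x| ≤ C := by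
    filter_upwards [ae_le_eLpNormEssSup (f := f) (μ := μ)] with x hx
    have h2 := ENNReal.toReal_mono hne hx
    rw [toReal_enorm, Real.norm_eq_abs] at h2
    linarith
  refine ⟨C, fun x => max (-1) (min 1 (C⁻¹ * hf.1.mk f x)), hC0, ?_, ?_, ?_⟩
  · exact measurable_const.max (measurable_const.min
      (hf.1.stronglyMeasurable_mk.measurable.const_mul _))
  · intro x
    rw [abs_le]
    exact ⟨le_max_left _ _, max_le (by norm_num) (min_le_left _ _)⟩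
  · filter_upwards [h1, hf.1.ae_eq_mk] with x hx hx2
    rw [hx2] at hx
    rw [hx2]
    have h3 : |C⁻¹ * hf.1.mk f x| ≤ 1 := by
      rw [abs_mul, abs_of_pos (inv_pos.2 hC0), inv_mul_le_iff₀ hC0, mul_one]
      exact hx
    rw [abs_le] at h3
    rw [min_eq_right h3.2, max_eq_right h3.1]
    field_simp

/-- at almost every point the values along the orbit agree -/
theorem linf_orbit [IsProbabilityMeasure μ] {ι : Type*} [Countable ι] {T : ι → Equiv.Perm X}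
    (hm : ∀ i, Measurable (T i).symm) (hp : ∀ i, MeasurePreserving (T i) μ μ) {f : ι → X → ℝ}
    (hf : ∀ i, MemLp (f i) ⊤ μ) : ∃ (C : ι → ℝ) (g : ι → X → ℝ), (∀ i, 0 < C i) ∧
      (∀ i, Measurable (g i) ∧ ∀ x, |g i x| ≤ 1) ∧ (∀ i, ∀ᵐ x ∂μ, f i x = C i * g i x) ∧
      ∀ᵐ x ∂μ, ∀ i (n : ℤ), f i ((T i ^ n) x) = C i * g i ((T i ^ n) x) := by
  choose C g h1 h2 h3 h4 using fun i => linf (hf i)
  refine ⟨C, g, h1, fun i => ⟨h2 i, h3 i⟩, h4, ?_⟩
  rw [ae_all_iff]; intro i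
  rw [ae_all_iff]; intro n
  exact (zpow_mp (hm i) (hp i) n).quasiMeasurePreserving.ae (h4 i)

theorem ivt_eq {G : Type*} [AddCommGroup G] {A : G → X → X} {v : G} {σ : Equiv.Perm X}
    [IsProbabilityMeasure μ] (hA : ∀ (n : ℤ) x, A (n • v) x = (σ ^ n) x) {f g : X → ℝ} {C : ℝ}
    (h : ∀ᵐ x ∂μ, f x = C * g x) :
    ∀ᵐ x ∂μ, (μ[f | MeasurableSpace.invariants σ]) x = C * ivt μ A v g x := by
  have h1 : A v = σ := by
    funext x
    have := hA 1 x
    rwa [one_smul, zpow_one] at this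
  unfold ivt
  rw [h1]
  have h2 : f =ᵐ[μ] C • g := by
    filter_upwards [h] with x hx
    rw [hx]; rfl
  have h3 := (condExp_congr_ae (m := MeasurableSpace.invariants σ) h2).trans
    (condExp_smul C g (MeasurableSpace.invariants σ))
  filter_upwards [h3] with x hx
  rw [hx]; rfl

variable {Ω : Type*} {mΩ : MeasurableSpace Ω}

/-- two-sided times, commuting maps -/
theorem perm_int {m : ℕ} {P : Measure Ω} [IsProbabilityMeasure P] {θ : Fin m → ℤ → Ω → ℕ}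
    {L : Fin m → ℤ → ℕ} (h : IsNoise P θ L)
    (hslow : ∀ q : ℕ, ∃ C : ℕ, ∀ i, ∀ n : ℤ, L i n ^ q ≤ C * (n.natAbs + 1)) (J : Finset (Fin m))
    (hJ : ∀ i ∈ J, Tendsto (L i) cofinite atTop) :
    ∀ᵐ ω ∂P, ∀ (X : Type u) [MeasurableSpace X] (μ : Measure X) [IsProbabilityMeasure μ]
      (T : Fin m → Equiv.Perm X), (∀ i, Measurable (T i).symm) →
      (∀ i, MeasurePreserving (T i) μ μ) → (∀ i j, T i * T j = T j * T i) →
      ∀ (a : Fin m → ℤ), (∀ i ∈ J, a i ≠ 0) → ∀ f : Fin m → X → ℝ, (∀ i, MemLp (f i) ⊤ μ) →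
      ∀ᵐ x ∂μ, Tendsto (fun N : ℕ =>
        ((2 * N + 1 : ℕ) : ℝ)⁻¹ * (∑ n ∈ Icc (-(N : ℤ)) (N : ℤ),
          ∏ i, f i ((T i ^ (a i * n + (θ i n ω : ℤ))) x)) -
        (∏ i ∈ J, (μ[f i | MeasurableSpace.invariants (T i)]) x) *
        (((2 * N + 1 : ℕ) : ℝ)⁻¹ * ∑ n ∈ Icc (-(N : ℤ)) (N : ℤ),
          ∏ i ∈ Jᶜ, ((L i n : ℝ)⁻¹ * ∑ l ∈ range (L i n), f i ((T i ^ (a i * n + (l : ℤ))) x))))
        atTop (𝓝 0) := by
  filter_upwards [disp_int.{u, u} h hslow J hJ] with ω hω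
  intro X _ μ _ T hm hp hc a ha f hf
  obtain ⟨G, _, A, v, hA, hv⟩ := exists_act (μ := μ) T hm hp hc
  obtain ⟨C, g, hC, hg, hfg, horb⟩ := linf_orbit (μ := μ) hm hp hf
  have h1 := hω G X μ A hA a ha v g hg
  have h2 := ae_all_iff.2 fun i => ivt_eq (μ := μ) (hv i) (hfg i)
  filter_upwards [h1, h2, horb] with x hx1 hx2 hx3
  have h3 := hx1.const_mul (∏ i, C i)
  rw [mul_zero] at h3
  refine h3.congr fun N => ?_
  rw [card_int]
  simp only [hx2, hx3]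
  have e1 : ∀ (i : Fin m) (n : ℤ), g i ((T i ^ (a i * n + (θ i n ω : ℤ))) x) =
      g i (A ((a i * n + (θ i n ω : ℤ)) • v i) x) := fun i n => by rw [hv]
  have e2 : ∀ (i : Fin m) (n : ℤ), (L i n : ℝ)⁻¹ * ∑ l ∈ range (L i n),
      C i * g i ((T i ^ (a i * n + (l : ℤ))) x) =
      C i * Mv A (v i) (L i n) (g i) (A ((a i * n) • v i) x) := fun i n => by
    unfold Mv
    rw [← mul_sum, mul_left_comm]
    congr 2
    refine sum_congr rfl fun l _ => ?_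
    rw [← hA.add, ← natCast_zsmul, ← add_smul, add_comm, hv]
  simp only [e1, e2, prod_mul_distrib]
  rw [← mul_sum, ← mul_sum, ← prod_mul_prod_compl J C]
  ring

/-- one-sided times, commuting maps -/
theorem perm_nat {m : ℕ} {P : Measure Ω} [IsProbabilityMeasure P] {θ : Fin m → ℕ → Ω → ℕ}
    {L : Fin m → ℕ → ℕ} (h : IsNoise P θ L)
    (hslow : ∀ q : ℕ, ∃ C : ℕ, ∀ i, ∀ n : ℕ, 1 ≤ n → L i n ^ q ≤ C * n) (J : Finset (Fin m))
    (hJ : ∀ i ∈ J, Tendsto (L i) atTop atTop) :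
    ∀ᵐ ω ∂P, ∀ (X : Type u) [MeasurableSpace X] (μ : Measure X) [IsProbabilityMeasure μ]
      (T : Fin m → Equiv.Perm X), (∀ i, Measurable (T i).symm) →
      (∀ i, MeasurePreserving (T i) μ μ) → (∀ i j, T i * T j = T j * T i) →
      ∀ (a : Fin m → ℤ), (∀ i ∈ J, a i ≠ 0) → ∀ f : Fin m → X → ℝ, (∀ i, MemLp (f i) ⊤ μ) →
      ∀ᵐ x ∂μ, Tendsto (fun N : ℕ =>
        (N : ℝ)⁻¹ * (∑ n ∈ Icc 1 N, ∏ i, f i ((T i ^ (a i * (n : ℤ) + (θ i n ω : ℤ))) x)) -
        (∏ i ∈ J, (μ[f i | MeasurableSpace.invariants (T i)]) x) *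
        ((N : ℝ)⁻¹ * ∑ n ∈ Icc 1 N,
          ∏ i ∈ Jᶜ, ((L i n : ℝ)⁻¹ *
            ∑ l ∈ range (L i n), f i ((T i ^ (a i * (n : ℤ) + (l : ℤ))) x)))) atTop (𝓝 0) := by
  filter_upwards [disp_nat.{u, u} h hslow J hJ] with ω hω
  intro X _ μ _ T hm hp hc a ha f hf
  obtain ⟨G, _, A, v, hA, hv⟩ := exists_act (μ := μ) T hm hp hc
  obtain ⟨C, g, hC, hg, hfg, horb⟩ := linf_orbit (μ := μ) hm hp hf
  have h1 := hω G X μ A hA a ha v g hg
  have h2 := ae_all_iff.2 fun i => ivt_eq (μ := μ) (hv i) (hfg i)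
  filter_upwards [h1, h2, horb] with x hx1 hx2 hx3
  have h3 := hx1.const_mul (∏ i, C i)
  rw [mul_zero] at h3
  refine h3.congr fun N => ?_
  rw [Nat.card_Icc, Nat.add_sub_cancel]
  simp only [hx2, hx3]
  have e1 : ∀ (i : Fin m) (n : ℕ), g i ((T i ^ (a i * (n : ℤ) + (θ i n ω : ℤ))) x) =
      g i (A ((a i * (n : ℤ) + (θ i n ω : ℤ)) • v i) x) := fun i n => by rw [hv]
  have e2 : ∀ (i : Fin m) (n : ℕ), (L i n : ℝ)⁻¹ * ∑ l ∈ range (L i n),
      C i * g i ((T i ^ (a i * (n : ℤ) + (l : ℤ))) x) =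
      C i * Mv A (v i) (L i n) (g i) (A ((a i * (n : ℤ)) • v i) x) := fun i n => by
    unfold Mv
    rw [← mul_sum, mul_left_comm]
    congr 2
    refine sum_congr rfl fun l _ => ?_
    rw [← hA.add, ← natCast_zsmul, ← add_smul, add_comm, hv]
  simp only [e1, e2, prod_mul_distrib]
  rw [← mul_sum, ← mul_sum, ← prod_mul_prod_compl J C]
  ring

/-- boxes of times, commuting maps -/
theorem perm_box {k m : ℕ} (hk : 1 ≤ k) {P : Measure Ω} [IsProbabilityMeasure P]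
    {θ : Fin m → (Fin k → ℕ) → Ω → ℕ} {L : Fin m → (Fin k → ℕ) → ℕ} (h : IsNoise P θ L)
    (hslow : ∀ q : ℕ, ∃ C : ℕ, ∀ i, ∀ t : Fin k → ℕ, (∀ r, 1 ≤ t r) → L i t ^ q ≤ C * ∏ r, t r)
    (J : Finset (Fin m)) (hJ : ∀ i ∈ J, Tendsto (L i) atTop atTop) :
    ∀ᵐ ω ∂P, ∀ (X : Type u) [MeasurableSpace X] (μ : Measure X) [IsProbabilityMeasure μ]
      (T : Fin m → Equiv.Perm X), (∀ i, Measurable (T i).symm) →
      (∀ i, MeasurePreserving (T i) μ μ) → (∀ i j, T i * T j = T j * T i) →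
      ∀ (c : Fin m → Fin k → ℤ), (∀ i ∈ J, c i ≠ 0) →
      ∀ f : Fin m → X → ℝ, (∀ i, MemLp (f i) ⊤ μ) →
      ∀ᵐ x ∂μ, Tendsto (fun M : Fin k → ℕ =>
        (∏ r, (M r : ℝ))⁻¹ * (∑ t ∈ Fintype.piFinset (fun r => Icc 1 (M r)),
          ∏ i, f i ((T i ^ (∑ r, c i r * (t r : ℤ) + (θ i t ω : ℤ))) x)) -
        (∏ i ∈ J, (μ[f i | MeasurableSpace.invariants (T i)]) x) *
        ((∏ r, (M r : ℝ))⁻¹ * ∑ t ∈ Fintype.piFinset (fun r => Icc 1 (M r)),
          ∏ i ∈ Jᶜ, ((L i t : ℝ)⁻¹ *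
            ∑ l ∈ range (L i t), f i ((T i ^ (∑ r, c i r * (t r : ℤ) + (l : ℤ))) x))))
        atTop (𝓝 0) := by
  filter_upwards [disp_box.{u, u} hk h hslow J hJ] with ω hω
  intro X _ μ _ T hm hp hc c ha f hf
  obtain ⟨G, _, A, v, hA, hv⟩ := exists_act (μ := μ) T hm hp hc
  obtain ⟨C, g, hC, hg, hfg, horb⟩ := linf_orbit (μ := μ) hm hp hf
  have h1 := hω G X μ A hA c ha v g hg
  have h2 := ae_all_iff.2 fun i => ivt_eq (μ := μ) (hv i) (hfg i)
  filter_upwards [h1, h2, horb] with x hx1 hx2 hx3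
  have h3 := hx1.const_mul (∏ i, C i)
  rw [mul_zero] at h3
  refine h3.congr fun M => ?_
  rw [bx_card, Nat.cast_prod]
  simp only [hx2, hx3]
  have e1 : ∀ (i : Fin m) (t : Fin k → ℕ),
      g i ((T i ^ (∑ r, c i r * (t r : ℤ) + (θ i t ω : ℤ))) x) =
      g i (A ((∑ r, c i r * (t r : ℤ) + (θ i t ω : ℤ)) • v i) x) := fun i n => by rw [hv]
  have e2 : ∀ (i : Fin m) (t : Fin k → ℕ), (L i t : ℝ)⁻¹ * ∑ l ∈ range (L i t),
      C i * g i ((T i ^ (∑ r, c i r * (t r : ℤ) + (l : ℤ))) x) =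
      C i * Mv A (v i) (L i t) (g i) (A ((∑ r, c i r * (t r : ℤ)) • v i) x) := fun i n => by
    unfold Mv
    rw [← mul_sum, mul_left_comm]
    congr 2
    refine sum_congr rfl fun l _ => ?_
    rw [← hA.add, ← natCast_zsmul, ← add_smul, add_comm, hv]
  simp only [e1, e2, prod_mul_distrib]
  rw [← mul_sum, ← mul_sum, ← prod_mul_prod_compl J C]
  unfold bx
  ring

end Pool.Agent.Q83.NT
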