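import Pool.Agent.Q83.NT.Noise

/-!
# From a sparse family of finite sets of times to all averages
-/

set_option autoImplicit false

namespace Pool.Agent.Q83.NT

open MeasureTheory ProbabilityTheory Finset Filter Topology
open scoped Pointwise ENNReal

universe u w

/-- integer part of the `p`-th root -/
noncomputable def rt (p N : ℕ) : ℕ := Nat.findGreatest (fun r => r ^ p ≤ N) N

theorem rt_pow_le {p : ℕ} (hp : 1 ≤ p) (N : ℕ) : rt p N ^ p ≤ N := by
  have h0 : (fun r => r ^ p ≤ N) 0 := by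
    show 0 ^ p ≤ N
    rw [zero_pow (by omega : p ≠ 0)]
    exact Nat.zero_le N
  exact Nat.findGreatest_spec (P := fun r => r ^ p ≤ N) (Nat.zero_le N) h0

theorem lt_rt_succ {p : ℕ} (hp : 1 ≤ p) (N : ℕ) : N < (rt p N + 1) ^ p := by
  by_contra h
  push Not at h
  have h1 : rt p N + 1 ≤ N := (Nat.le_self_pow (by omega) _).trans h
  have := Nat.le_findGreatest (P := fun r => r ^ p ≤ N) h1 h
  unfold rt at this
  omega

theorem le_rt {p b N : ℕ} (hp : 1 ≤ p) (h : b ^ p ≤ N) : b ≤ rt p N :=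
  Nat.le_findGreatest (P := fun r => r ^ p ≤ N) ((Nat.le_self_pow (by omega) b).trans h) h

theorem rt_tendsto {p : ℕ} (hp : 1 ≤ p) : Tendsto (rt p) atTop atTop := by
  refine tendsto_atTop.2 fun b => ?_
  filter_upwards [eventually_ge_atTop (b ^ p)] with N hN
  exact le_rt hp hN

theorem rt_pos {p N : ℕ} (hp : 1 ≤ p) (hN : 1 ≤ N) : 1 ≤ rt p N := le_rt hp (by simpa using hN)

theorem rt_ratio {p : ℕ} (hp : 1 ≤ p) :
    Tendsto (fun N : ℕ => (N : ℝ) / ((rt p N ^ p : ℕ) : ℝ)) atTop (𝓝 1) := by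
  have h1 : Tendsto (fun N : ℕ => (1 + 1 / (rt p N : ℝ)) ^ p) atTop (𝓝 1) := by
    have h2 : Tendsto (fun N : ℕ => 1 / (rt p N : ℝ)) atTop (𝓝 0) :=
      tendsto_one_div_atTop_nhds_zero_nat.comp (rt_tendsto hp)
    have h3 := (tendsto_const_nhds (x := (1 : ℝ))).add h2
    have h4 := h3.pow p
    simpa using h4
  refine tendsto_of_tendsto_of_tendsto_of_le_of_le' tendsto_const_nhds h1 ?_ ?_
  · filter_upwards [eventually_ge_atTop 1] with N hN
    have h5 : 0 < rt p N := rt_pos hp hN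
    rw [le_div_iff₀ (by positivity), one_mul]
    exact_mod_cast rt_pow_le hp N
  · filter_upwards [eventually_ge_atTop 1] with N hN
    have h5 : 0 < rt p N := rt_pos hp hN
    have h6 : (0 : ℝ) < rt p N := by exact_mod_cast h5
    rw [div_le_iff₀ (by positivity)]
    push_cast
    rw [← mul_pow]
    have h7 : (1 + 1 / (rt p N : ℝ)) * rt p N = rt p N + 1 := by field_simp
    rw [h7]
    exact_mod_cast (lt_rt_succ hp N).le

/-- averages over nearly full subsets -/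
theorem interp {𝒯 D : Type*} {l : Filter D} (F F' : D → Finset 𝒯) (a : 𝒯 → ℝ) (c : ℝ)
    (ha : ∀ t, |a t| ≤ c) (hsub : ∀ᶠ N in l, F' N ⊆ F N) (hpos : ∀ᶠ N in l, (F' N).Nonempty)
    (hr : Tendsto (fun N => ((F N).card : ℝ) / (F' N).card) l (𝓝 1))
    (h : Tendsto (fun N => (∑ t ∈ F' N, a t) / ((F' N).card : ℝ)) l (𝓝 0)) :
    Tendsto (fun N => (∑ t ∈ F N, a t) / ((F N).card : ℝ)) l (𝓝 0) := by
  have h1 : Tendsto (fun N => |(∑ t ∈ F' N, a t) / ((F' N).card : ℝ)| +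
      c * (((F N).card : ℝ) / (F' N).card - 1)) l (𝓝 0) := by
    have h2 := (h.abs).add ((hr.sub_const 1).const_mul c)
    simpa using h2
  refine squeeze_zero_norm' ?_ h1
  filter_upwards [hsub, hpos] with N hN1 hN2
  classical
  have hc1 : (0 : ℝ) < (F' N).card := by exact_mod_cast hN2.card_pos
  have hc2 : ((F' N).card : ℝ) ≤ (F N).card := by exact_mod_cast card_le_card hN1
  have hc3 : (0 : ℝ) < (F N).card := hc1.trans_le hc2
  rw [Real.norm_eq_abs, abs_div, abs_of_pos hc3, div_le_iff₀ hc3]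
  have h3 : |∑ t ∈ F N, a t| ≤ |∑ t ∈ F' N, a t| + c * ((F N).card - (F' N).card) := by
    rw [← sum_sdiff hN1]
    have h4 : |∑ t ∈ F N \ F' N, a t| ≤ c * ((F N).card - (F' N).card) := by
      refine (abs_sum_le_sum_abs _ _).trans ((sum_le_sum fun t _ => ha t).trans ?_)
      rw [sum_const, nsmul_eq_mul, card_sdiff_of_subset hN1, Nat.cast_sub (card_le_card hN1)]
      rw [mul_comm]
    have h5 := abs_add_le (∑ t ∈ F N \ F' N, a t) (∑ t ∈ F' N, a t)
    linarith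
  have hc0 : 0 ≤ c := by
    obtain ⟨t, _⟩ := hN2
    exact (abs_nonneg _).trans (ha t)
  have h6 : |(∑ t ∈ F' N, a t) / ((F' N).card : ℝ)| * (F N).card ≥ |∑ t ∈ F' N, a t| := by
    rw [abs_div, abs_of_pos hc1, ge_iff_le, div_mul_eq_mul_div, le_div_iff₀ hc1]
    exact mul_le_mul_of_nonneg_left hc2 (abs_nonneg _)
  have h7 : c * (((F N).card : ℝ) / (F' N).card - 1) * (F N).card ≥
      c * ((F N).card - (F' N).card) := by
    rw [mul_assoc]
    apply mul_le_mul_of_nonneg_left _ hc0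
    rw [sub_mul, one_mul, div_mul_eq_mul_div]
    have h8 : 2 * ((F N).card : ℝ) - (F' N).card ≤
        ((F N).card : ℝ) * (F N).card / (F' N).card := by
      rw [le_div_iff₀ hc1]
      nlinarith [sq_nonneg (((F N).card : ℝ) - (F' N).card)]
    linarith
  calc |∑ t ∈ F N, a t| ≤ |∑ t ∈ F' N, a t| + c * ((F N).card - (F' N).card) := h3
    _ ≤ |(∑ t ∈ F' N, a t) / ((F' N).card : ℝ)| * (F N).card +
        c * (((F N).card : ℝ) / (F' N).card - 1) * (F N).card := by linarith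
    _ = _ := by ring

theorem abs_prod_le_one {ι : Type*} (s : Finset ι) (a : ι → ℝ) (h : ∀ i ∈ s, |a i| ≤ 1) :
    |∏ i ∈ s, a i| ≤ 1 := by
  rw [abs_prod]
  exact prod_le_one (fun i _ => abs_nonneg _) h

theorem abs_prod_sub_le {ι : Type*} (s : Finset ι) (a b : ι → ℝ) (ha : ∀ i ∈ s, |a i| ≤ 1)
    (hb : ∀ i ∈ s, |b i| ≤ 1) : |∏ i ∈ s, a i - ∏ i ∈ s, b i| ≤ ∑ i ∈ s, |a i - b i| := by
  classical
  induction s using Finset.induction_on with
  | empty => simp
  | insert i s hi ih =>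
    rw [prod_insert hi, prod_insert hi, sum_insert hi]
    have h1 := ih (fun j hj => ha j (mem_insert_of_mem hj)) fun j hj => hb j (mem_insert_of_mem hj)
    have h2 : a i * ∏ j ∈ s, a j - b i * ∏ j ∈ s, b j =
        (a i - b i) * ∏ j ∈ s, a j + b i * (∏ j ∈ s, a j - ∏ j ∈ s, b j) := by ring
    rw [h2]
    refine (abs_add_le _ _).trans ?_
    rw [abs_mul, abs_mul]
    have h3 : |∏ j ∈ s, a j| ≤ 1 := abs_prod_le_one s a fun j hj => ha j (mem_insert_of_mem hj)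
    have h4 : |b i| ≤ 1 := hb i (mem_insert_self i s)
    have h5 : |a i - b i| * |∏ j ∈ s, a j| ≤ |a i - b i| := by
      have := mul_le_mul_of_nonneg_left h3 (abs_nonneg (a i - b i)); linarith
    have h6 : |b i| * |∏ j ∈ s, a j - ∏ j ∈ s, b j| ≤ |∏ j ∈ s, a j - ∏ j ∈ s, b j| := by
      have := mul_le_mul_of_nonneg_right h4 (abs_nonneg (∏ j ∈ s, a j - ∏ j ∈ s, b j)); linarith
    linarith

theorem Mv_bd {G X : Type*} [AddCommGroup G] (A : G → X → X) (u : G) (L : ℕ) {f : X → ℝ}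
    (hf : ∀ x, |f x| ≤ 1) (y : X) : |Mv A u L f y| ≤ 1 := by
  unfold Mv
  rcases Nat.eq_zero_or_pos L with h | h
  · subst h; simp
  · have hL : (0 : ℝ) < L := by exact_mod_cast h
    rw [abs_mul, abs_of_pos (inv_pos.2 hL), inv_mul_le_iff₀ hL, mul_one]
    refine (abs_sum_le_sum_abs _ _).trans ((sum_le_sum fun l _ => hf _).trans ?_)
    simp

variable {Ω : Type*} {mΩ : MeasurableSpace Ω} {𝒯 : Type*}
variable {Λ : Type*} [AddCommGroup Λ] [LinearOrder Λ] [IsOrderedAddMonoid Λ]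

/-- almost every noise is good for all systems and all averages -/
theorem main {m : ℕ} {J D : Type*} [Countable J] [Countable 𝒯] {P : Measure Ω}
    [IsProbabilityMeasure P] {θ : Fin m → 𝒯 → Ω → ℕ} {L : Fin m → 𝒯 → ℕ} (h : IsNoise P θ L)
    {τ : 𝒯 → Λ} (hτ : Function.Injective τ) (T : J → Finset 𝒯) (hT : ∀ j, (T j).Nonempty)
    {C : ℝ} (hC : 1 ≤ C)
    (hB : ∀ j, (((T j).image τ - (T j).image τ).card : ℝ) ≤ C * (T j).card)
    (K : J → ℕ) (hK : ∀ j, ∀ t ∈ T j, ∀ i, L i t ≤ K j)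
    (hsum : Summable fun j => ((K j : ℝ) ^ m) ^ 2 * ((T j).card : ℝ) ^ (-(1 / 2 : ℝ) ^ m))
    {l : Filter D} (F : D → Finset 𝒯) (g : D → J) (hg : Tendsto g l cofinite)
    (hsub : ∀ᶠ N in l, T (g N) ⊆ F N)
    (hr : Tendsto (fun N => ((F N).card : ℝ) / (T (g N)).card) l (𝓝 1)) :
    ∀ᵐ ω ∂P, (∀ i t, θ i t ω < L i t) ∧
      ∀ (G : Type w) [AddCommGroup G] (X : Type u) [MeasurableSpace X] (μ : Measure X)
      [IsProbabilityMeasure μ] (A : G → X → X), IsAct μ A →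
      ∀ (S : Fin m → (Λ →+ G)) (v : Fin m → G) (f : Fin m → X → ℝ),
        (∀ i, Measurable (f i) ∧ ∀ x, |f i x| ≤ 1) →
      ∀ᵐ x ∂μ, Tendsto (fun N => (∑ t ∈ F N, (∏ i, f i (A (θ i t ω • v i) (A (S i (τ t)) x)) -
        ∏ i, Mv A (v i) (L i t) (f i) (A (S i (τ t)) x))) / (F N).card) l (𝓝 0) := by
  filter_upwards [part1 h hτ T hT hC hB K hK hsum] with ω hω
  refine ⟨hω.1, ?_⟩
  intro G _ X _ μ _ A hA S v f hf
  filter_upwards [hω.2 G X μ A hA S v f hf] with x hx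
  refine interp F (fun N => T (g N)) _ 2 (fun t => ?_) hsub (Eventually.of_forall fun N => hT _) hr
    (hx.comp hg)
  have h1 : |∏ i, f i (A (θ i t ω • v i) (A (S i (τ t)) x))| ≤ 1 :=
    abs_prod_le_one _ _ fun i _ => (hf i).2 _
  have h2 : |∏ i, Mv A (v i) (L i t) (f i) (A (S i (τ t)) x)| ≤ 1 :=
    abs_prod_le_one _ _ fun i _ => Mv_bd A _ _ (hf i).2 _
  have h3 := abs_sub (∏ i, f i (A (θ i t ω • v i) (A (S i (τ t)) x)))
    (∏ i, Mv A (v i) (L i t) (f i) (A (S i (τ t)) x))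
  linarith

end Pool.Agent.Q83.NT
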