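import Pool.Agent.Q83.NT.Prob

/-!
# Almost every noise is good for all systems along a sparse family of finite sets
-/

set_option autoImplicit false

namespace Pool.Agent.Q83.NT

open MeasureTheory ProbabilityTheory Finset Filter Topology
open scoped Pointwise ENNReal

universe u w

/-- summable mean squares imply convergence to zero almost everywhere -/
theorem ae_tendsto {J : Type*} [Countable J] {X : Type*} [MeasurableSpace X] {μ : Measure X}
    {Y : J → X → ℝ} (hm : ∀ j, Measurable (Y j)) (hi : ∀ j, Integrable (fun x => Y j x ^ 2) μ)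
    (hs : Summable fun j => ∫ x, Y j x ^ 2 ∂μ) :
    ∀ᵐ x ∂μ, Tendsto (fun j => Y j x) cofinite (𝓝 0) := by
  have h1 : ∫⁻ x, ∑' j, ENNReal.ofReal (Y j x ^ 2) ∂μ ≠ ∞ := by
    rw [lintegral_tsum fun j => ((hm j).pow_const 2).ennreal_ofReal.aemeasurable]
    have : ∀ j, ∫⁻ x, ENNReal.ofReal (Y j x ^ 2) ∂μ = ENNReal.ofReal (∫ x, Y j x ^ 2 ∂μ) :=
      fun j => (ofReal_integral_eq_lintegral_ofReal (hi j)
        (Eventually.of_forall fun x => sq_nonneg _)).symm
    simp_rw [this]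
    exact hs.tsum_ofReal_ne_top
  have h2 := ae_lt_top' (Measurable.ennreal_tsum fun j =>
    ((hm j).pow_const 2).ennreal_ofReal).aemeasurable h1
  filter_upwards [h2] with x hx
  have h3 := ENNReal.tendsto_cofinite_zero_of_tsum_ne_top hx.ne
  have h4 : Tendsto (fun j => Y j x ^ 2) cofinite (𝓝 0) := by
    have h5 := (ENNReal.tendsto_toReal ENNReal.zero_ne_top).comp h3
    refine (h5.congr fun j => ?_)
    simp only [Function.comp]
    exact ENNReal.toReal_ofReal (sq_nonneg _)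
  have h6 : Tendsto (fun j => |Y j x|) cofinite (𝓝 0) := by
    have h7 := (Real.continuous_sqrt.tendsto 0).comp h4
    rw [Real.sqrt_zero] at h7
    refine h7.congr fun j => ?_
    simp only [Function.comp]
    exact Real.sqrt_sq_eq_abs _
  exact (tendsto_zero_iff_abs_tendsto_zero _).2 h6

/-- summable expectations imply almost sure summability -/
theorem ae_summable {J : Type*} [Countable J] {X : Type*} [MeasurableSpace X] {μ : Measure X}
    {Z : J → X → ℝ} (hm : ∀ j, Measurable (Z j)) (h0 : ∀ j x, 0 ≤ Z j x)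
    (hi : ∀ j, Integrable (Z j) μ) (hs : Summable fun j => ∫ x, Z j x ∂μ) :
    ∀ᵐ x ∂μ, Summable fun j => Z j x := by
  have h1 : ∫⁻ x, ∑' j, ENNReal.ofReal (Z j x) ∂μ ≠ ∞ := by
    rw [lintegral_tsum fun j => (hm j).ennreal_ofReal.aemeasurable]
    have : ∀ j, ∫⁻ x, ENNReal.ofReal (Z j x) ∂μ = ENNReal.ofReal (∫ x, Z j x ∂μ) :=
      fun j => (ofReal_integral_eq_lintegral_ofReal (hi j)
        (Eventually.of_forall fun x => h0 j x)).symm
    simp_rw [this]
    exact hs.tsum_ofReal_ne_top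
  have h2 := ae_lt_top' (Measurable.ennreal_tsum fun j => (hm j).ennreal_ofReal).aemeasurable h1
  filter_upwards [h2] with x hx
  have h3 := ENNReal.summable_toReal hx.ne
  refine h3.congr fun j => ?_
  exact ENNReal.toReal_ofReal (h0 j x)

variable {Λ : Type*} [AddCommGroup Λ] [LinearOrder Λ] [IsOrderedAddMonoid Λ]
variable {Ω : Type*} {mΩ : MeasurableSpace Ω}

/-- the centered indicator of the value `l` of the noise at `n` -/
noncomputable def kk {V : Type*} (P : Measure Ω) (θ : Λ → Ω → V) (l : V) (ω : Ω) (n : Λ) : ℝ :=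
  {ω | θ n ω = l}.indicator (fun _ => (1 : ℝ)) ω - P.real {ω | θ n ω = l}

theorem kk_bd {V : Type*} (P : Measure Ω) [IsProbabilityMeasure P] (θ : Λ → Ω → V) (l : V)
    (ω : Ω) (n : Λ) : |kk P θ l ω n| ≤ 1 := by
  have h1 : 0 ≤ P.real {ω | θ n ω = l} := measureReal_nonneg
  have h2 : P.real {ω | θ n ω = l} ≤ 1 := measureReal_le_one
  unfold kk
  by_cases h : ω ∈ {ω | θ n ω = l}
  · rw [Set.indicator_of_mem h, abs_le]; constructor <;> linarith
  · rw [Set.indicator_of_notMem h, abs_le]; constructor <;> linarith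

open Classical in
theorem kk_ad {V : Type*} {P : Measure Ω} [IsProbabilityMeasure P] {𝓕 : Λ → MeasurableSpace Ω}
    (hle : ∀ n, 𝓕 n ≤ mΩ) {θ : Λ → Ω → V} (hθ : ∀ n l, MeasurableSet[𝓕 n] {ω | θ n ω = l})
    (B : Finset Λ) (l : V) : Ad 𝓕 P (fun ω n => if n ∈ B then kk P θ l ω n else 0) := by
  refine ⟨0, fun n => ⟨fun ω => if n ∈ B then kk P θ l ω n else 0, fun _ => 1, fun ω => by simp,
    ?_, ?_, ?_, ?_, by simp⟩⟩
  · rw [add_zero]
    by_cases h : n ∈ B
    · simp only [h, if_true]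
      unfold kk
      exact (measurable_const.indicator (hθ n l)).sub measurable_const
    · simp only [h, if_false]
      exact measurable_const
  · intro ω
    by_cases h : n ∈ B
    · simp only [h, if_true]; exact kk_bd P θ l ω n
    · simp [h]
  · by_cases h : n ∈ B
    · simp only [h, if_true]
      unfold kk
      have hms : MeasurableSet {ω | θ n ω = l} := hle n _ (hθ n l)
      rw [integral_sub ((integrable_const (1 : ℝ)).indicator hms) (integrable_const _),
        integral_indicator hms]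
      simp
    · simp [h]
  · exact measurable_const

open Classical in
theorem scheme {V J : Type*} [Countable J] {P : Measure Ω} [IsProbabilityMeasure P]
    {𝓕 : Λ → MeasurableSpace Ω} (hle : ∀ n, 𝓕 n ≤ mΩ) (hind : ∀ m, Indep (𝓕 m) (fut 𝓕 m) P)
    {θ : Λ → Ω → V} (hθ : ∀ n l, MeasurableSet[𝓕 n] {ω | θ n ω = l}) (m : ℕ)
    (B : J → Finset Λ) (hB1 : ∀ j, (B j).Nonempty) {C : ℝ} (hC : 1 ≤ C)
    (hB : ∀ j, ((B j - B j).card : ℝ) ≤ C * (B j).card) (E : J → Finset V)
    (hsum : Summable fun j =>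
      ((E j).card : ℝ) ^ 2 * ((B j).card : ℝ) ^ (-(1 / 2 : ℝ) ^ m)) :
    ∀ᵐ ω ∂P, ∀ (G : Type w) [AddCommGroup G] (X : Type u) [MeasurableSpace X] (μ : Measure X)
      [IsProbabilityMeasure μ] (A : G → X → X), IsAct μ A →
      ∀ fs : V → List ((Λ →+ G) × (X → ℝ)), (∀ l, (fs l).length = m ∧ Reg (fs l)) →
      ∀ᵐ x ∂μ, Tendsto (fun j => (∑ l ∈ E j, ∑ n ∈ B j, kk P θ l ω n * pr A (fs l) n x) /
        (B j).card) cofinite (𝓝 0) := by
  set W : J → V → Ω → Λ → ℝ := fun j l ω n => if n ∈ B j then kk P θ l ω n else 0 with hW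
  have hWad : ∀ j l, Ad 𝓕 P (W j l) := fun j l => kk_ad hle hθ (B j) l
  set Z : J → Ω → ℝ := fun j ω =>
    ((E j).card : ℝ) * (∑ l ∈ E j, Phi (B j) m (W j l ω)) / ((B j).card : ℝ) ^ 2 with hZ
  have hPm : ∀ j l, Measurable fun ω => Phi (B j) m (W j l ω) := fun j l =>
    Phi_meas (B j) m fun n => (hWad j l).meas hle n
  have hPi : ∀ j l, Integrable (fun ω => Phi (B j) m (W j l ω)) P := fun j l =>
    integrable_bd (C := (C * (B j).card) ^ 2) (hPm j l) fun ω => by
      rw [abs_of_nonneg (Phi_nonneg _ _ _)]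
      exact Phi_triv (B j) hC (hB j) m fun n => (hWad j l).bd ω n
  have hZm : ∀ j, Measurable (Z j) := fun j =>
    ((Finset.measurable_sum _ fun l _ => hPm j l).const_mul _).div_const _
  have hZ0 : ∀ j ω, 0 ≤ Z j ω := fun j ω =>
    div_nonneg (mul_nonneg (Nat.cast_nonneg _) (sum_nonneg fun l _ => Phi_nonneg _ _ _))
      (sq_nonneg _)
  have hZi : ∀ j, Integrable (Z j) P := fun j =>
    ((integrable_finsetSum _ fun l _ => hPi j l).const_mul _).div_const _
  have hZs : Summable fun j => ∫ ω, Z j ω ∂P := by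
    refine Summable.of_nonneg_of_le (fun j => integral_nonneg (hZ0 j)) (fun j => ?_)
      (hsum.mul_left (3 * C ^ 2))
    have hb : (0 : ℝ) < (B j).card := by exact_mod_cast (hB1 j).card_pos
    have e1 : ∫ ω, Z j ω ∂P = ((E j).card : ℝ) *
        (∑ l ∈ E j, ∫ ω, Phi (B j) m (W j l ω) ∂P) / ((B j).card : ℝ) ^ 2 := by
      simp only [hZ]
      rw [integral_div, integral_const_mul, integral_finsetSum _ fun l _ => hPi j l]
    rw [e1]
    have h1 : ∑ l ∈ E j, ∫ ω, Phi (B j) m (W j l ω) ∂P ≤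
        (E j).card * (3 * C ^ 2 * ((B j).card : ℝ) ^ (2 - (1 / 2 : ℝ) ^ m)) := by
      refine (sum_le_sum fun l _ => EPhi hle hind (B j) (hB1 j) hC (hB j) m (hWad j l)).trans ?_
      rw [sum_const, nsmul_eq_mul]
    have h2 : ((B j).card : ℝ) ^ (2 - (1 / 2 : ℝ) ^ m) =
        ((B j).card : ℝ) ^ 2 * ((B j).card : ℝ) ^ (-(1 / 2 : ℝ) ^ m) := by
      rw [sub_eq_add_neg, Real.rpow_add hb]
      norm_num
    rw [div_le_iff₀ (by positivity)]
    calc ((E j).card : ℝ) * ∑ l ∈ E j, ∫ ω, Phi (B j) m (W j l ω) ∂P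
        ≤ (E j).card * ((E j).card * (3 * C ^ 2 * ((B j).card : ℝ) ^ (2 - (1 / 2 : ℝ) ^ m))) :=
          mul_le_mul_of_nonneg_left h1 (Nat.cast_nonneg _)
      _ = 3 * C ^ 2 * (((E j).card : ℝ) ^ 2 * ((B j).card : ℝ) ^ (-(1 / 2 : ℝ) ^ m)) *
          ((B j).card : ℝ) ^ 2 := by rw [h2]; ring
  filter_upwards [ae_summable hZm hZ0 hZi hZs] with ω hω
  intro G _ X _ μ _ A hA fs hfs
  set Y : J → X → ℝ := fun j x =>
    (∑ l ∈ E j, ∑ n ∈ B j, kk P θ l ω n * pr A (fs l) n x) / (B j).card with hY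
  have hYeq : ∀ j x, Y j x = (∑ l ∈ E j, Sm (B j) A (W j l ω) (fs l) x) / (B j).card := by
    intro j x
    simp only [hY, Sm, hW]
    congr 1
    refine sum_congr rfl fun l _ => sum_congr rfl fun n hn => ?_
    rw [if_pos hn]
  have hYm : ∀ j, Measurable (Y j) := fun j => by
    have : Y j = fun x => (∑ l ∈ E j, Sm (B j) A (W j l ω) (fs l) x) / (B j).card :=
      funext (hYeq j)
    rw [this]
    exact (Finset.measurable_sum _ fun l _ => Sm_meas hA _ _ (hfs l).2).div_const _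
  have hS2i : ∀ j l, Integrable (fun x => Sm (B j) A (W j l ω) (fs l) x ^ 2) μ := fun j l =>
    integrable_bd (C := (∑ n ∈ B j, |W j l ω n|) ^ 2)
      ((Sm_meas hA _ _ (hfs l).2).pow_const 2) fun x => by
        rw [abs_pow]
        exact pow_le_pow_left₀ (abs_nonneg _) (Sm_bd _ _ (hfs l).2 x) 2
  have hpt : ∀ j x, Y j x ^ 2 ≤
      ((E j).card : ℝ) * (∑ l ∈ E j, Sm (B j) A (W j l ω) (fs l) x ^ 2) / ((B j).card : ℝ) ^ 2 := by
    intro j x
    rw [hYeq, div_pow]
    apply div_le_div_of_nonneg_right _ (sq_nonneg _)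
    exact sq_sum_le_card_mul_sum_sq
  have hYi : ∀ j, Integrable (fun x => Y j x ^ 2) μ := fun j => by
    refine Integrable.mono' (((integrable_finsetSum (E j) fun l _ => hS2i j l).const_mul
      ((E j).card : ℝ)).div_const (((B j).card : ℝ) ^ 2))
      ((hYm j).pow_const 2).aestronglyMeasurable (Eventually.of_forall fun x => ?_)
    rw [Real.norm_eq_abs, abs_of_nonneg (sq_nonneg _)]
    exact hpt j x
  refine ae_tendsto hYm hYi ?_
  refine Summable.of_nonneg_of_le (fun j => integral_nonneg fun x => sq_nonneg _) (fun j => ?_) hω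
  calc ∫ x, Y j x ^ 2 ∂μ ≤ ∫ x, ((E j).card : ℝ) *
        (∑ l ∈ E j, Sm (B j) A (W j l ω) (fs l) x ^ 2) / ((B j).card : ℝ) ^ 2 ∂μ :=
        integral_mono (hYi j) (((integrable_finsetSum (E j) fun l _ => hS2i j l).const_mul
          ((E j).card : ℝ)).div_const (((B j).card : ℝ) ^ 2)) (hpt j)
    _ = ((E j).card : ℝ) * (∑ l ∈ E j, ∫ x, Sm (B j) A (W j l ω) (fs l) x ^ 2 ∂μ) /
        ((B j).card : ℝ) ^ 2 := by
        rw [integral_div, integral_const_mul, integral_finsetSum _ fun l _ => hS2i j l]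
    _ ≤ Z j ω := by
        simp only [hZ]
        apply div_le_div_of_nonneg_right _ (sq_nonneg _)
        apply mul_le_mul_of_nonneg_left _ (Nat.cast_nonneg _)
        refine sum_le_sum fun l _ => ?_
        apply det hA (B j) m (fs l) (hfs l).1 (hfs l).2
        intro n hn
        simp [hW, hn]

end Pool.Agent.Q83.NT
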