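import Pool.Agent.Q83.NT.Times

/-!
# Boxes of times
-/

set_option autoImplicit false

namespace Pool.Agent.Q83.NT

open MeasureTheory ProbabilityTheory Finset Filter Topology
open scoped Pointwise ENNReal

universe u w

/-- the box `[1, M_1] × ... × [1, M_k]` -/
def bx {k : ℕ} (M : Fin k → ℕ) : Finset (Fin k → ℕ) := Fintype.piFinset fun r => Icc 1 (M r)

theorem bx_card {k : ℕ} (M : Fin k → ℕ) : (bx M).card = ∏ r, M r := by
  unfold bx
  rw [Fintype.card_piFinset]
  simp

theorem mem_bx {k : ℕ} {M t : Fin k → ℕ} : t ∈ bx M ↔ ∀ r, 1 ≤ t r ∧ t r ≤ M r := by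
  unfold bx
  rw [Fintype.mem_piFinset]
  simp

theorem coord_tendsto {k : ℕ} (r : Fin k) : Tendsto (fun N : Fin k → ℕ => N r) atTop atTop :=
  tendsto_atTop.2 fun b => (eventually_ge_atTop (fun _ => b)).mono fun _ hN => hN r

/-- the places of the times, ordered lexicographically -/
def pl {k : ℕ} (t : Fin k → ℕ) : Lex (Fin k → ℤ) := toLex fun r => (t r : ℤ)

theorem pl_inj {k : ℕ} : Function.Injective (pl (k := k)) := by
  intro a b hab
  funext r
  have h1 := congrFun (toLex.injective hab) r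
  simpa using h1

theorem bx_diff {k : ℕ} {Λ : Type*} [AddCommGroup Λ] [LinearOrder Λ] (τ : (Fin k → ℕ) → Λ)
    (ι : (Fin k → ℤ) → Λ) (hι : ∀ a b, τ a - τ b = ι fun r => (a r : ℤ) - (b r : ℤ))
    (M : Fin k → ℕ) (hM : ∀ r, 1 ≤ M r) :
    (((bx M).image τ - (bx M).image τ).card : ℝ) ≤ (3 : ℝ) ^ k * (bx M).card := by
  have h1 : (bx M).image τ - (bx M).image τ ⊆
      (Fintype.piFinset fun r => Icc (-(M r : ℤ)) (M r : ℤ)).image ι := by
    intro z hz
    rw [Finset.mem_sub] at hz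
    obtain ⟨a, ha, b, hb, rfl⟩ := hz
    rw [mem_image] at ha hb
    obtain ⟨a, ha, rfl⟩ := ha
    obtain ⟨b, hb, rfl⟩ := hb
    rw [mem_bx] at ha hb
    rw [mem_image]
    refine ⟨fun r => (a r : ℤ) - (b r : ℤ), ?_, (hι a b).symm⟩
    rw [Fintype.mem_piFinset]
    intro r
    rw [mem_Icc]
    have h2 := ha r
    have h3 := hb r
    omega
  have h2 := (card_le_card h1).trans card_image_le
  rw [Fintype.card_piFinset] at h2
  have h3 : ∏ r, (Icc (-(M r : ℤ)) (M r : ℤ)).card ≤ ∏ r, 3 * M r := by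
    refine prod_le_prod' fun r _ => ?_
    rw [Int.card_Icc]
    have := hM r
    omega
  rw [prod_mul_distrib, prod_const, card_univ, Fintype.card_fin] at h3
  rw [bx_card]
  exact_mod_cast h2.trans h3

variable {Ω : Type*} {mΩ : MeasurableSpace Ω}

/-- boxes of times -/
theorem main_box {k m : ℕ} (hk : 1 ≤ k) {P : Measure Ω} [IsProbabilityMeasure P]
    {θ : Fin m → (Fin k → ℕ) → Ω → ℕ}
    {L : Fin m → (Fin k → ℕ) → ℕ} (h : IsNoise P θ L)
    (hslow : ∀ q : ℕ, ∃ C : ℕ, ∀ i, ∀ t : Fin k → ℕ, (∀ r, 1 ≤ t r) → L i t ^ q ≤ C * ∏ r, t r) :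
    ∀ᵐ ω ∂P, (∀ i t, θ i t ω < L i t) ∧
      ∀ (G : Type w) [AddCommGroup G] (X : Type u) [MeasurableSpace X] (μ : Measure X)
      [IsProbabilityMeasure μ] (A : G → X → X), IsAct μ A →
      ∀ (S : Fin m → (Lex (Fin k → ℤ) →+ G)) (v : Fin m → G) (f : Fin m → X → ℝ),
        (∀ i, Measurable (f i) ∧ ∀ x, |f i x| ≤ 1) →
      ∀ᵐ x ∂μ, Tendsto (fun M : Fin k → ℕ => (∑ t ∈ bx M,
        (∏ i, f i (A (θ i t ω • v i) (A (S i (pl t)) x)) -
        ∏ i, Mv A (v i) (L i t) (f i) (A (S i (pl t)) x))) / (bx M).card) atTop (𝓝 0) := by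
  classical
  have hne : Nonempty (Fin k) := ⟨⟨0, hk⟩⟩
  set p := 4 * 2 ^ m with hp
  have hp1 : 1 ≤ p := by have : 0 < 4 * 2 ^ m := by positivity
                         omega
  obtain ⟨C, hC⟩ := hslow (2 * m * p)
  set T : (Fin k → ℕ) → Finset (Fin k → ℕ) := fun j => bx fun r => (j r + 1) ^ p with hT
  set K : (Fin k → ℕ) → ℕ := fun j => (univ ×ˢ T j).sup fun q => L q.1 q.2 with hK
  have hTc : ∀ j, (T j).card = (∏ r, (j r + 1)) ^ p := fun j => by
    simp only [hT]
    rw [bx_card, prod_pow]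
  have hTne : ∀ j, (T j).Nonempty := fun j => by
    rw [← card_pos, hTc]; positivity
  have hCC : (1 : ℝ) ≤ (3 : ℝ) ^ k := one_le_pow₀ (by norm_num)
  have hKK : ∀ j, ∀ t ∈ T j, ∀ i, L i t ≤ K j := fun j t ht i =>
    le_sup (f := fun q : Fin m × (Fin k → ℕ) => L q.1 q.2) (mk_mem_product (mem_univ i) ht)
  have hsum : Summable fun j => ((K j : ℝ) ^ m) ^ 2 * ((T j).card : ℝ) ^ (-(1 / 2 : ℝ) ^ m) := by
    refine slow_sum m (fun j => ∏ r, (j r + 1)) (fun j => (T j).card) K (C + 1) (by omega)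
      (fun j => ?_) (fun j => by rw [hTc]) (fun j => ?_) (summable_box3 k)
    · have : 0 < ∏ r, (j r + 1) := by positivity
      exact this
    refine sup_pow_le _ _ _ _ (fun b hb => ?_) ?_
    · have h3 := (mem_product.1 hb).2
      simp only [hT, mem_bx] at h3
      refine (hC b.1 b.2 fun r => (h3 r).1).trans ?_
      refine Nat.mul_le_mul (by omega) ?_
      rw [← prod_pow]
      exact prod_le_prod' fun r _ => (h3 r).2
    · have : 0 < (C + 1) * (∏ r, (j r + 1)) ^ p := by positivity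
      exact this
  have hg : Tendsto (fun (N : Fin k → ℕ) => fun r => rt p (N r) - 1) atTop cofinite := by
    refine Tendsto.mono_right ?_ (atTop_le_cofinite (α := Fin k → ℕ))
    rw [tendsto_atTop]
    intro b
    have h1 : ∀ r, ∀ᶠ N : Fin k → ℕ in atTop, b r + 1 ≤ rt p (N r) := fun r =>
      ((rt_tendsto hp1).comp (coord_tendsto r)).eventually_ge_atTop _
    filter_upwards [eventually_all.2 h1] with N hN r
    have := hN r
    show b r ≤ rt p (N r) - 1
    omega
  have hsub : ∀ᶠ N : Fin k → ℕ in atTop, T (fun r => rt p (N r) - 1) ⊆ bx N := by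
    filter_upwards [eventually_ge_atTop (fun _ => 1)] with N hN
    intro t ht
    simp only [hT, mem_bx] at ht ⊢
    intro r
    have h1 := rt_pos hp1 (hN r)
    have h2 := rt_pow_le hp1 (N r)
    have h3 := ht r
    rw [Nat.sub_add_cancel h1] at h3
    exact ⟨h3.1, h3.2.trans h2⟩
  have hr : Tendsto (fun N : Fin k → ℕ => ((bx N).card : ℝ) / (T (fun r => rt p (N r) - 1)).card)
      atTop (𝓝 1) := by
    have h1 : Tendsto (fun N : Fin k → ℕ => ∏ r, ((N r : ℝ) / ((rt p (N r) ^ p : ℕ) : ℝ))) atTop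
        (𝓝 (∏ _r : Fin k, 1)) :=
      tendsto_finsetProd _ fun r _ => (rt_ratio hp1).comp (coord_tendsto r)
    rw [prod_const_one] at h1
    refine h1.congr' ?_
    filter_upwards [eventually_ge_atTop (fun _ => 1)] with N hN
    rw [prod_div_distrib, bx_card]
    simp only [hT]
    rw [bx_card]
    push_cast
    congr 1
    refine prod_congr rfl fun r _ => ?_
    have h2 := rt_pos hp1 (hN r)
    have h3 : (((rt p (N r) - 1 : ℕ) : ℝ) + 1) = rt p (N r) := by
      have h4 : rt p (N r) - 1 + 1 = rt p (N r) := Nat.sub_add_cancel h2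
      exact_mod_cast h4
    rw [h3]
  refine main.{u, w} h pl_inj T hTne hCC ?_ K hKK hsum bx (fun N => fun r => rt p (N r) - 1) hg
    hsub hr
  intro j
  have hj : ∀ r, 1 ≤ (fun r => (j r + 1) ^ p) r := fun r => by
    have : 0 < (j r + 1) ^ p := by positivity
    exact this
  exact bx_diff pl toLex (fun _ _ => rfl) _ hj

end Pool.Agent.Q83.NT
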