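import Pool.Agent.Q83.NT.Avg
import Pool.Agent.Q83.NT.Birk

/-!
# Long averages at sparse or dense times are close to the conditional expectation
-/

set_option autoImplicit false

namespace Pool.Agent.Q83.NT

open MeasureTheory ProbabilityTheory Finset Filter Topology
open scoped Pointwise ENNReal

variable {G X : Type*} [AddCommGroup G] {mX : MeasurableSpace X} {μ : Measure X}
  {A : G → X → X}

/-- the conditional expectation on the invariant sets of `A u` -/
noncomputable def ivt (μ : Measure X) (A : G → X → X) (u : G) (f : X → ℝ) : X → ℝ :=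
  μ[f | MeasurableSpace.invariants (A u)]

theorem ivt_meas' (u : G) (f : X → ℝ) :
    Measurable[MeasurableSpace.invariants (A u)] (ivt μ A u f) :=
  stronglyMeasurable_condExp.measurable

theorem ivt_meas (u : G) (f : X → ℝ) : Measurable (ivt μ A u f) :=
  (ivt_meas' u f).mono (MeasurableSpace.invariants_le _) le_rfl

theorem act_iter (hA : IsAct μ A) (u : G) (n : ℕ) (x : X) : (A u)^[n] x = A (n • u) x := by
  induction n with
  | zero => simp [hA.zero]
  | succ n ih => rw [Function.iterate_succ_apply', ih, ← hA.add, succ_nsmul', ]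

theorem ivt_nat (hA : IsAct μ A) (u : G) (f : X → ℝ) (n : ℕ) (x : X) :
    ivt μ A u f (A (n • u) x) = ivt μ A u f x := by
  have h : ∀ x, ivt μ A u f (A u x) = ivt μ A u f x := fun x =>
    congrFun (MeasurableSpace.comp_eq_of_measurable_invariants (ivt_meas' u f)) x
  rw [← act_iter hA]
  induction n with
  | zero => rfl
  | succ n ih => rw [Function.iterate_succ_apply', h, ih]

theorem ivt_shift (hA : IsAct μ A) (u : G) (f : X → ℝ) (n : ℤ) (x : X) :
    ivt μ A u f (A (n • u) x) = ivt μ A u f x := by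
  obtain ⟨k, rfl | rfl⟩ := n.eq_nat_or_neg
  · rw [natCast_zsmul]; exact ivt_nat hA u f k x
  · rw [← ivt_nat hA u f k (A (-(k : ℤ) • u) x), ← hA.add]
    rw [neg_smul, natCast_zsmul, add_neg_cancel, hA.zero]

theorem ivt_tendsto [IsProbabilityMeasure μ] (hA : IsAct μ A) (u : G) {f : X → ℝ}
    (hf : Measurable f) (hf1 : ∀ x, |f x| ≤ 1) :
    ∀ᵐ x ∂μ, Tendsto (fun L : ℕ => Mv A u L f x) atTop (𝓝 (ivt μ A u f x)) := by
  filter_upwards [BPE.birkhoff (hA.mp u) f hf 1 hf1] with x hx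
  refine hx.congr fun n => ?_
  unfold Mv
  simp_rw [act_iter hA]

theorem ivt_bd [IsProbabilityMeasure μ] (u : G) {f : X → ℝ} (hf1 : ∀ x, |f x| ≤ 1) :
    ∀ᵐ x ∂μ, |ivt μ A u f x| ≤ 1 :=
  ae_bdd_abs_condExp_of_ae_bdd_abs (m := MeasurableSpace.invariants (A u)) (μ := μ)
      (f := f) (R := 1) (Filter.Eventually.of_forall hf1)

/-- the frequency of the visits to sets whose measures are summable tends to zero -/
theorem freq [IsProbabilityMeasure μ] (hA : IsAct μ A) (u : G) (E : ℕ → Set X)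
    (hE : ∀ s, MeasurableSet (E s)) (hs : Summable fun s => μ.real (E s)) :
    ∀ᵐ x ∂μ, ∀ ε > 0, ∀ᶠ s in atTop, ∀ᶠ K : ℕ in atTop,
      Mv A u K ((E s).indicator fun _ => 1) x < ε := by
  have h1 : ∀ s, ∀ᵐ x ∂μ, Tendsto (fun K : ℕ => Mv A u K ((E s).indicator fun _ => 1) x) atTop
      (𝓝 (ivt μ A u ((E s).indicator fun _ => 1) x)) := fun s =>
    ivt_tendsto hA u (measurable_const.indicator (hE s)) fun x => by
      by_cases hx : x ∈ E s
      · rw [Set.indicator_of_mem hx]; simp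
      · rw [Set.indicator_of_notMem hx]; simp
  have h2 : ∀ᵐ x ∂μ, Summable fun s => |ivt μ A u ((E s).indicator fun _ => 1) x| := by
    refine ae_summable (fun s => measurable_abs.comp (ivt_meas u _)) (fun s x => abs_nonneg _)
      (fun s => integrable_condExp.abs) ?_
    refine Summable.of_nonneg_of_le (fun s => integral_nonneg fun x => abs_nonneg _)
      (fun s => ?_) hs
    refine (integral_abs_condExp_le _).trans (le_of_eq ?_)
    have : (fun x => |(E s).indicator (fun _ => (1 : ℝ)) x|) = (E s).indicator fun _ => 1 := by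
      funext x
      by_cases hx : x ∈ E s
      · rw [Set.indicator_of_mem hx]; simp
      · rw [Set.indicator_of_notMem hx]; simp
    rw [this, integral_indicator (hE s)]
    simp
  rw [← ae_all_iff] at h1
  filter_upwards [h1, h2] with x hx1 hx2 ε hε
  have h3 := hx2.tendsto_atTop_zero
  filter_upwards [h3.eventually_lt_const hε] with s hs
  exact (hx1 s).eventually_lt_const ((le_abs_self _).trans_lt hs)

theorem count_le {𝒯 : Type*} (F : Finset 𝒯) (lam : 𝒯 → ℤ) (K : ℕ) (c : ℝ)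
    (hK : 0 < K) (hF : F.Nonempty) (h1 : ∀ t ∈ F, |lam t| < K)
    (h2 : ∀ r, ((F.filter fun t => lam t = r).card : ℝ) * K ≤ c * F.card) (g : ℤ → ℝ)
    (hg : ∀ r, 0 ≤ g r) :
    (∑ t ∈ F, g (lam t)) / (F.card : ℝ) ≤ c * ((K : ℝ)⁻¹ * ∑ r ∈ range K, g r +
      (K : ℝ)⁻¹ * ∑ r ∈ range K, g (-(r : ℤ))) := by
  classical
  have hc1 : (0 : ℝ) < F.card := by exact_mod_cast hF.card_pos
  have hK1 : (0 : ℝ) < K := by exact_mod_cast hK
  have hc0 : 0 ≤ c := by
    have h3 := h2 0
    have h4 : 0 ≤ c * F.card := le_trans (by positivity) h3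
    by_contra h5
    push Not at h5
    have : c * F.card < 0 := mul_neg_of_neg_of_pos h5 hc1
    linarith
  rw [div_le_iff₀ hc1]
  have h3 : ∑ t ∈ F, g (lam t) ≤ c * F.card / K * ∑ r ∈ Ioo (-(K : ℤ)) (K : ℤ), g r := by
    rw [← sum_fiberwise_of_maps_to (s := F) (t := Ioo (-(K : ℤ)) (K : ℤ)) (g := lam)
      (fun t ht => by
        have := h1 t ht
        rw [abs_lt] at this
        exact mem_Ioo.2 this) (fun t => g (lam t)), mul_sum]
    refine sum_le_sum fun r _ => ?_
    have h4 : ∑ t ∈ F with lam t = r, g (lam t) = (F.filter fun t => lam t = r).card * g r := by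
      rw [sum_congr rfl fun t ht => by rw [(mem_filter.1 ht).2], sum_const, nsmul_eq_mul]
    rw [h4]
    refine mul_le_mul_of_nonneg_right ?_ (hg r)
    rw [le_div_iff₀ hK1]
    exact h2 r
  have h5 : ∑ r ∈ Ioo (-(K : ℤ)) (K : ℤ), g r ≤ ∑ r ∈ range K, g r + ∑ r ∈ range K, g (-(r : ℤ)) := by
    have h6 : Ioo (-(K : ℤ)) (K : ℤ) ⊆ (range K).image (fun n : ℕ => (n : ℤ)) ∪
        (range K).image (fun n : ℕ => -(n : ℤ)) := by
      intro r hr
      rw [mem_Ioo] at hr
      rw [mem_union, mem_image, mem_image]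
      rcases le_total 0 r with h | h
      · left
        exact ⟨r.toNat, by rw [mem_range]; omega, by omega⟩
      · right
        exact ⟨(-r).toNat, by rw [mem_range]; omega, by omega⟩
    refine (sum_le_sum_of_subset_of_nonneg h6 fun r _ _ => hg r).trans ?_
    refine (le_add_of_nonneg_right (sum_nonneg fun r _ => hg r)).trans
      (le_of_eq (sum_union_inter)) |>.trans ?_
    rw [sum_image fun a _ b _ hab => by simpa using hab,
      sum_image fun a _ b _ hab => by simpa using hab]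
  calc ∑ t ∈ F, g (lam t) ≤ c * F.card / K * ∑ r ∈ Ioo (-(K : ℤ)) (K : ℤ), g r := h3
    _ ≤ c * F.card / K * (∑ r ∈ range K, g r + ∑ r ∈ range K, g (-(r : ℤ))) :=
        mul_le_mul_of_nonneg_left h5 (by positivity)
    _ = _ := by field_simp

/-- the points where some long average is far from its limit -/
def badSet (μ : Measure X) (A : G → X → X) (u : G) (f : X → ℝ) (δ : ℝ) (R : ℕ) : Set X :=
  {y | ∃ L : ℕ, R ≤ L ∧ δ < |Mv A u L f y - ivt μ A u f y|}

theorem Mv_meas (hA : IsAct μ A) (u : G) {f : X → ℝ} (hf : Measurable f) (L : ℕ) :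
    Measurable (Mv A u L f) := by
  unfold Mv
  exact (Finset.measurable_sum _ fun l _ => hf.comp (hA.mp _).measurable).const_mul _

theorem badSet_meas (hA : IsAct μ A) (u : G) {f : X → ℝ} (hf : Measurable f) (δ : ℝ) (R : ℕ) :
    MeasurableSet (badSet μ A u f δ R) := by
  have e : badSet μ A u f δ R =
      ⋃ L : ℕ, ⋃ _ : R ≤ L, {y | δ < |Mv A u L f y - ivt μ A u f y|} := by
    ext y; simp [badSet]
  rw [e]
  refine MeasurableSet.iUnion fun L => MeasurableSet.iUnion fun _ => ?_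
  exact measurableSet_lt measurable_const
    (measurable_abs.comp ((Mv_meas hA u hf L).sub (ivt_meas u f)))

theorem badSet_tendsto [IsProbabilityMeasure μ] (hA : IsAct μ A) (u : G) {f : X → ℝ}
    (hf : Measurable f) (hf1 : ∀ x, |f x| ≤ 1) {δ : ℝ} (hδ : 0 < δ) :
    Tendsto (fun R => μ.real (badSet μ A u f δ R)) atTop (𝓝 0) := by
  have h1 := tendsto_measure_iInter_atTop (μ := μ) (s := badSet μ A u f δ)
    (fun R => (badSet_meas hA u hf δ R).nullMeasurableSet)
    (fun R R' hR y hy => by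
      obtain ⟨L, h1, h2⟩ := hy
      exact ⟨L, hR.trans h1, h2⟩) ⟨0, measure_ne_top _ _⟩
  have h2 : μ (⋂ R, badSet μ A u f δ R) = 0 := by
    rw [measure_eq_zero_iff_ae_notMem]
    filter_upwards [ivt_tendsto hA u hf hf1] with x hx hmem
    rw [Metric.tendsto_atTop] at hx
    obtain ⟨R, hR⟩ := hx δ hδ
    obtain ⟨L, h3, h4⟩ := Set.mem_iInter.1 hmem R
    have h5 := hR L h3
    rw [Real.dist_eq] at h5
    linarith
  rw [h2] at h1
  have h3 := (ENNReal.tendsto_toReal ENNReal.zero_ne_top).comp h1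
  exact h3

theorem Mv_neg_ind (s : Set X) (u : G) (K : ℕ) (x : X) :
    Mv A (-u) K (s.indicator fun _ => 1) x =
      (K : ℝ)⁻¹ * ∑ r ∈ range K, s.indicator (fun _ => (1 : ℝ)) (A (-(r : ℤ) • u) x) := by
  unfold Mv
  congr 1
  refine sum_congr rfl fun r _ => ?_
  rw [neg_smul, natCast_zsmul, smul_neg]

/-- the averages at the times `lam t` of the long averages tend to the conditional expectation -/
theorem part2 [IsProbabilityMeasure μ] {𝒯 D : Type*} {l : Filter D} (F : D → Finset 𝒯)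
    (lam : 𝒯 → ℤ) (L : 𝒯 → ℕ) (Kf : D → ℕ) (c : ℝ) (hK : Tendsto Kf l atTop)
    (hpos : ∀ᶠ N in l, (F N).Nonempty) (h1 : ∀ᶠ N in l, ∀ t ∈ F N, |lam t| < Kf N)
    (h2 : ∀ᶠ N in l, ∀ r, (((F N).filter fun t => lam t = r).card : ℝ) * Kf N ≤ c * (F N).card)
    (hL : ∀ R : ℕ, Tendsto (fun N => (((F N).filter fun t => L t < R).card : ℝ) / (F N).card) l
      (𝓝 0)) (hA : IsAct μ A) (u : G) {f : X → ℝ} (hf : Measurable f) (hf1 : ∀ x, |f x| ≤ 1) :
    ∀ᵐ x ∂μ, Tendsto (fun N => (∑ t ∈ F N, |Mv A u (L t) f (A (lam t • u) x) - ivt μ A u f x|) /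
      ((F N).card : ℝ)) l (𝓝 0) := by
  have hR : ∀ s : ℕ, ∃ R : ℕ, μ.real (badSet μ A u f (1 / ((s : ℝ) + 1)) R) ≤ (1 / 2 : ℝ) ^ s := by
    intro s
    have h3 := badSet_tendsto hA u hf hf1 (δ := 1 / ((s : ℝ) + 1)) (by positivity)
    obtain ⟨R, hR⟩ := (h3.eventually_le_const (by positivity : (0 : ℝ) < (1 / 2) ^ s)).exists
    exact ⟨R, hR⟩
  choose R hR using hR
  set E : ℕ → Set X := fun s => badSet μ A u f (1 / ((s : ℝ) + 1)) (R s) with hE
  have hEm : ∀ s, MeasurableSet (E s) := fun s => badSet_meas hA u hf _ _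
  have hEs : Summable fun s => μ.real (E s) :=
    Summable.of_nonneg_of_le (fun s => measureReal_nonneg) hR
      (summable_geometric_of_lt_one (by norm_num) (by norm_num))
  filter_upwards [freq hA u E hEm hEs, freq hA (-u) E hEm hEs, ivt_bd (A := A) u hf1]
    with x hx1 hx2 hx3
  have hc0 : 0 ≤ c ∨ c < 0 := le_or_gt 0 c
  rw [Metric.tendsto_nhds]
  intro ε hε
  set η : ℝ := ε / (2 * (3 + 4 * |c|)) with hη
  have hη0 : 0 < η := by positivity
  have h4 : ∀ᶠ s : ℕ in atTop, 1 / ((s : ℝ) + 1) < η :=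
    (tendsto_one_div_add_atTop_nhds_zero_nat (𝕜 := ℝ)).eventually_lt_const hη0
  obtain ⟨s, hs1, hs2, hs3⟩ := (h4.and ((hx1 η hη0).and (hx2 η hη0))).exists
  have h5 := (hL (R s)).eventually_lt_const hη0
  filter_upwards [hpos, h1, h2, h5, hK.eventually hs2, hK.eventually hs3,
    hK.eventually (eventually_gt_atTop 0)] with N hN1 hN2 hN3 hN4 hN5 hN6 hN7
  have hc1 : (0 : ℝ) < (F N).card := by exact_mod_cast hN1.card_pos
  rw [Real.dist_eq, sub_zero, abs_of_nonneg (div_nonneg (sum_nonneg fun t _ => abs_nonneg _) hc1.le)]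
  have h6 : ∀ t ∈ F N, |Mv A u (L t) f (A (lam t • u) x) - ivt μ A u f x| ≤
      η + 2 * (if L t < R s then 1 else 0) +
        2 * (E s).indicator (fun _ => (1 : ℝ)) (A (lam t • u) x) := by
    intro t _
    have h7 : |Mv A u (L t) f (A (lam t • u) x) - ivt μ A u f x| ≤ 2 := by
      have h8 := Mv_bd A u (L t) hf1 (A (lam t • u) x)
      have h9 := abs_sub (Mv A u (L t) f (A (lam t • u) x)) (ivt μ A u f x)
      linarith
    by_cases h8 : L t < R s
    · rw [if_pos h8]
      have h9 : 0 ≤ (E s).indicator (fun _ => (1 : ℝ)) (A (lam t • u) x) :=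
        Set.indicator_nonneg (fun _ _ => zero_le_one) _
      linarith
    · rw [if_neg h8]
      by_cases h9 : A (lam t • u) x ∈ E s
      · rw [Set.indicator_of_mem h9]
        linarith
      · rw [Set.indicator_of_notMem h9]
        have h10 : |Mv A u (L t) f (A (lam t • u) x) - ivt μ A u f (A (lam t • u) x)| ≤
            1 / ((s : ℝ) + 1) := by
          by_contra h11
          push Not at h11
          exact h9 ⟨L t, not_lt.1 h8, h11⟩
        rw [ivt_shift hA] at h10
        linarith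
  have h7 : (∑ t ∈ F N, |Mv A u (L t) f (A (lam t • u) x) - ivt μ A u f x|) / ((F N).card : ℝ) ≤
      η + 2 * ((((F N).filter fun t => L t < R s).card : ℝ) / (F N).card) +
      2 * ((∑ t ∈ F N, (E s).indicator (fun _ => (1 : ℝ)) (A (lam t • u) x)) / (F N).card) := by
    rw [div_le_iff₀ hc1]
    refine (sum_le_sum h6).trans (le_of_eq ?_)
    rw [sum_add_distrib, sum_add_distrib, ← mul_sum, ← mul_sum, sum_const, nsmul_eq_mul,
      sum_boole]
    field_simp
  have h8 := count_le (F N) lam (Kf N) c hN7 hN1 hN2 hN3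
    (fun r => (E s).indicator (fun _ => (1 : ℝ)) (A (r • u) x))
    (fun r => Set.indicator_nonneg (fun _ _ => zero_le_one) _)
  rw [Mv_neg_ind] at hN6
  unfold Mv at hN5
  have h9 : ∀ r : ℕ, A ((r : ℤ) • u) x = A (r • u) x := fun r => by rw [natCast_zsmul]
  simp only [h9] at h8
  set P1 := ((Kf N : ℕ) : ℝ)⁻¹ * ∑ r ∈ range (Kf N), (E s).indicator (fun _ => (1 : ℝ)) (A (r • u) x)
  set P2 := ((Kf N : ℕ) : ℝ)⁻¹ * ∑ r ∈ range (Kf N),
    (E s).indicator (fun _ => (1 : ℝ)) (A (-(r : ℤ) • u) x)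
  have hP1 : 0 ≤ P1 := mul_nonneg (by positivity)
    (sum_nonneg fun r _ => Set.indicator_nonneg (fun _ _ => zero_le_one) _)
  have hP2 : 0 ≤ P2 := mul_nonneg (by positivity)
    (sum_nonneg fun r _ => Set.indicator_nonneg (fun _ _ => zero_le_one) _)
  have h10 : c * (P1 + P2) ≤ |c| * (2 * η) :=
    mul_le_mul (le_abs_self c) (by linarith) (by linarith) (abs_nonneg c)
  have h11 : (3 + 4 * |c|) * η = ε / 2 := by
    rw [hη]; field_simp
  nlinarith [abs_nonneg c]

end Pool.Agent.Q83.NT
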