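import Pool.Agent.Q83.NT.Boxes
import Pool.Agent.Q83.NT.Smooth

/-!
# Displaced times: the averages of the displaced products
-/

set_option autoImplicit false

namespace Pool.Agent.Q83.NT

open MeasureTheory ProbabilityTheory Finset Filter Topology
open scoped Pointwise ENNReal

universe u w

theorem combine {ι 𝒯 D : Type*} [Fintype ι] [DecidableEq ι] {l : Filter D} (F : D → Finset 𝒯)
    (a : 𝒯 → ℝ) (b : ι → 𝒯 → ℝ) (β : ι → ℝ) (J : Finset ι) (hb : ∀ i t, |b i t| ≤ 1)
    (hβ : ∀ i, |β i| ≤ 1)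
    (h1 : Tendsto (fun N => (∑ t ∈ F N, (a t - ∏ i, b i t)) / ((F N).card : ℝ)) l (𝓝 0))
    (h2 : ∀ i ∈ J, Tendsto (fun N => (∑ t ∈ F N, |b i t - β i|) / ((F N).card : ℝ)) l (𝓝 0)) :
    Tendsto (fun N => (∑ t ∈ F N, a t) / ((F N).card : ℝ) -
      (∏ i ∈ J, β i) * ((∑ t ∈ F N, ∏ i ∈ Jᶜ, b i t) / ((F N).card : ℝ))) l (𝓝 0) := by
  have h3 : Tendsto (fun N => |(∑ t ∈ F N, (a t - ∏ i, b i t)) / ((F N).card : ℝ)| +
      ∑ i ∈ J, (∑ t ∈ F N, |b i t - β i|) / ((F N).card : ℝ)) l (𝓝 0) := by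
    have h4 := h1.abs.add (tendsto_finsetSum J fun i hi => h2 i hi)
    simpa using h4
  refine squeeze_zero_norm (fun N => ?_) h3
  rw [Real.norm_eq_abs]
  have e : (∑ t ∈ F N, a t) / ((F N).card : ℝ) -
      (∏ i ∈ J, β i) * ((∑ t ∈ F N, ∏ i ∈ Jᶜ, b i t) / ((F N).card : ℝ)) =
      (∑ t ∈ F N, (a t - ∏ i, b i t)) / ((F N).card : ℝ) +
      (∑ t ∈ F N, (∏ i ∈ J, b i t - ∏ i ∈ J, β i) * ∏ i ∈ Jᶜ, b i t) / ((F N).card : ℝ) := by
    have e1 : ∀ t, (∏ i ∈ J, b i t - ∏ i ∈ J, β i) * ∏ i ∈ Jᶜ, b i t =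
        ∏ i, b i t - (∏ i ∈ J, β i) * ∏ i ∈ Jᶜ, b i t := by
      intro t
      rw [sub_mul, prod_mul_prod_compl]
    simp_rw [e1]
    rw [sum_sub_distrib, sum_sub_distrib, ← mul_sum]
    ring
  rw [e]
  refine (abs_add_le _ _).trans (add_le_add le_rfl ?_)
  rcases (F N).eq_empty_or_nonempty with h | h
  · rw [h]; simp
  have hc : (0 : ℝ) < (F N).card := by exact_mod_cast h.card_pos
  rw [abs_div, abs_of_pos hc, ← sum_div]
  apply div_le_div_of_nonneg_right _ hc.le
  rw [sum_comm]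
  refine (abs_sum_le_sum_abs _ _).trans (sum_le_sum fun t _ => ?_)
  rw [abs_mul]
  have h5 : |∏ i ∈ Jᶜ, b i t| ≤ 1 := abs_prod_le_one _ _ fun i _ => hb i t
  have h6 := abs_prod_sub_le J (fun i => b i t) β (fun i _ => hb i t) fun i _ => hβ i
  have h7 := mul_le_mul_of_nonneg_left h5 (abs_nonneg (∏ i ∈ J, b i t - ∏ i ∈ J, β i))
  linarith

variable {Ω : Type*} {mΩ : MeasurableSpace Ω}

theorem dens_nat {L : ℕ → ℕ} (hL : Tendsto L atTop atTop) (R : ℕ) :
    Tendsto (fun N : ℕ => (((Icc 1 N).filter fun t => L t < R).card : ℝ) / (Icc 1 N).card) atTop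
      (𝓝 0) := by
  obtain ⟨n0, hn0⟩ := (hL.eventually_ge_atTop R).exists_forall_of_atTop
  have h1 : Tendsto (fun N : ℕ => (n0 : ℝ) / (N : ℝ)) atTop (𝓝 0) :=
    tendsto_const_div_atTop_nhds_zero_nat _
  refine squeeze_zero (fun N => by positivity) (fun N => ?_) h1
  rw [Nat.card_Icc, Nat.add_sub_cancel]
  apply div_le_div_of_nonneg_right _ (Nat.cast_nonneg _)
  have h2 : ((Icc 1 N).filter fun t => L t < R) ⊆ range n0 := by
    intro t ht
    rw [mem_filter] at ht
    rw [mem_range]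
    by_contra h3
    have := hn0 t (not_lt.1 h3)
    omega
  have h3 := card_le_card h2
  rw [card_range] at h3
  exact_mod_cast h3

/-- one-sided times -/
theorem disp_nat {m : ℕ} {P : Measure Ω} [IsProbabilityMeasure P] {θ : Fin m → ℕ → Ω → ℕ}
    {L : Fin m → ℕ → ℕ} (h : IsNoise P θ L)
    (hslow : ∀ q : ℕ, ∃ C : ℕ, ∀ i, ∀ n : ℕ, 1 ≤ n → L i n ^ q ≤ C * n) (J : Finset (Fin m))
    (hJ : ∀ i ∈ J, Tendsto (L i) atTop atTop) :
    ∀ᵐ ω ∂P, ∀ (G : Type w) [AddCommGroup G] (X : Type u) [MeasurableSpace X] (μ : Measure X)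
      [IsProbabilityMeasure μ] (A : G → X → X), IsAct μ A →
      ∀ (a : Fin m → ℤ), (∀ i ∈ J, a i ≠ 0) → ∀ (v : Fin m → G) (f : Fin m → X → ℝ),
        (∀ i, Measurable (f i) ∧ ∀ x, |f i x| ≤ 1) →
      ∀ᵐ x ∂μ, Tendsto (fun N : ℕ =>
        (∑ t ∈ Icc 1 N, ∏ i, f i (A ((a i * (t : ℤ) + (θ i t ω : ℤ)) • v i) x)) /
          ((Icc 1 N).card : ℝ) - (∏ i ∈ J, ivt μ A (v i) (f i) x) *
        ((∑ t ∈ Icc 1 N, ∏ i ∈ Jᶜ, Mv A (v i) (L i t) (f i) (A ((a i * (t : ℤ)) • v i) x)) /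
          ((Icc 1 N).card : ℝ))) atTop (𝓝 0) := by
  classical
  filter_upwards [main_nat.{u, w} h hslow] with ω hω
  intro G _ X _ μ _ A hA a ha v f hf
  have h1 := hω.2 G X μ A hA (fun i => zmultiplesHom G (a i • v i)) v f hf
  have h2 : ∀ᵐ x ∂μ, ∀ i ∈ J, Tendsto (fun N : ℕ => (∑ t ∈ Icc 1 N,
      |Mv A (v i) (L i t) (f i) (A ((a i * (t : ℤ)) • v i) x) - ivt μ A (v i) (f i) x|) /
      ((Icc 1 N).card : ℝ)) atTop (𝓝 0) := by
    refine (ae_ball_iff J.countable_toSet).2 fun i hi => ?_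
    have hai : a i ≠ 0 := ha i hi
    refine part2 (fun N : ℕ => Icc 1 N) (fun t : ℕ => a i * (t : ℤ)) (L i)
      (fun N => (a i).natAbs * N + 1) ((a i).natAbs + 1) ?_ ?_ ?_ ?_ (dens_nat (hJ i hi)) hA (v i)
      (hf i).1 (hf i).2
    · have h3 : 1 ≤ (a i).natAbs := by omega
      refine tendsto_atTop_mono (fun N => ?_) tendsto_id
      show N ≤ (a i).natAbs * N + 1
      nlinarith
    · filter_upwards [eventually_ge_atTop 1] with N hN
      exact ⟨1, by rw [mem_Icc]; omega⟩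
    · filter_upwards with N t ht
      rw [mem_Icc] at ht
      rw [abs_mul, Int.abs_eq_natAbs, Nat.abs_cast]
      have h4 : (a i).natAbs * t ≤ (a i).natAbs * N := Nat.mul_le_mul_left _ ht.2
      have h5 : (((a i).natAbs * t : ℕ) : ℤ) ≤ (((a i).natAbs * N : ℕ) : ℤ) := by exact_mod_cast h4
      push_cast at h5 ⊢
      linarith
    · filter_upwards [eventually_ge_atTop 1] with N hN r
      have h6 : ((Icc 1 N).filter fun t : ℕ => a i * (t : ℤ) = r).card ≤ 1 := by
        rw [card_le_one]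
        intro s hs t ht
        rw [mem_filter] at hs ht
        have h7 : a i * (s : ℤ) = a i * (t : ℤ) := hs.2.trans ht.2.symm
        have h8 := mul_left_cancel₀ hai h7
        exact_mod_cast h8
      rw [Nat.card_Icc, Nat.add_sub_cancel]
      have h7 : ((((Icc 1 N).filter fun t : ℕ => a i * (t : ℤ) = r).card : ℕ) : ℝ) ≤ 1 := by
        exact_mod_cast h6
      have h8 : (1 : ℝ) ≤ N := by exact_mod_cast hN
      have h9 : (0 : ℝ) ≤ ((a i).natAbs : ℝ) := Nat.cast_nonneg _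
      have h10 := mul_le_mul_of_nonneg_right h7
        (by positivity : (0 : ℝ) ≤ ((((a i).natAbs * N + 1 : ℕ)) : ℝ))
      refine h10.trans ?_
      push_cast
      nlinarith
  filter_upwards [h1, h2, ae_all_iff.2 fun i => ivt_bd (μ := μ) (A := A) (v i) (hf i).2]
    with x hx1 hx2 hx3
  refine combine (fun N : ℕ => Icc 1 N)
    (fun t => ∏ i, f i (A ((a i * (t : ℤ) + (θ i t ω : ℤ)) • v i) x))
    (fun i t => Mv A (v i) (L i t) (f i) (A ((a i * (t : ℤ)) • v i) x))
    (fun i => ivt μ A (v i) (f i) x) J (fun i t => Mv_bd A _ _ (hf i).2 _) hx3 ?_ hx2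
  refine hx1.congr fun N => ?_
  congr 1
  refine sum_congr rfl fun t _ => ?_
  have e : ∀ i, (zmultiplesHom G (a i • v i)) (t : ℤ) = (a i * (t : ℤ)) • v i := fun i => by
    rw [zmultiplesHom_apply, smul_smul, mul_comm]
  simp only [e]
  congr 1
  refine prod_congr rfl fun i _ => ?_
  rw [← hA.add, ← natCast_zsmul, ← add_smul, add_comm]

theorem card_int (M : ℕ) : (Icc (-(M : ℤ)) (M : ℤ)).card = 2 * M + 1 := by
  rw [Int.card_Icc]; omega

theorem dens_int {L : ℤ → ℕ} (hL : Tendsto L cofinite atTop) (R : ℕ) :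
    Tendsto (fun N : ℕ => (((Icc (-(N : ℤ)) (N : ℤ)).filter fun t => L t < R).card : ℝ) /
      (Icc (-(N : ℤ)) (N : ℤ)).card) atTop (𝓝 0) := by
  classical
  have h0 : {t : ℤ | ¬ R ≤ L t}.Finite := hL.eventually_ge_atTop R
  set S := h0.toFinset with hS
  have h1 : Tendsto (fun N : ℕ => (S.card : ℝ) / (N : ℝ)) atTop (𝓝 0) :=
    tendsto_const_div_atTop_nhds_zero_nat _
  refine squeeze_zero' (Eventually.of_forall fun N => by positivity) ?_ h1
  filter_upwards [eventually_ge_atTop 1] with N hN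
  rw [card_int]
  have hN1 : (0 : ℝ) < N := by exact_mod_cast hN
  have h2 : ((Icc (-(N : ℤ)) (N : ℤ)).filter fun t => L t < R) ⊆ S := by
    intro t ht
    rw [mem_filter] at ht
    rw [hS, Set.Finite.mem_toFinset]
    exact not_le.2 ht.2
  have h3 : ((((Icc (-(N : ℤ)) (N : ℤ)).filter fun t => L t < R).card : ℕ) : ℝ) ≤ S.card := by
    exact_mod_cast card_le_card h2
  have h4 : (N : ℝ) ≤ ((2 * N + 1 : ℕ) : ℝ) := by push_cast; linarith
  exact div_le_div₀ (Nat.cast_nonneg _) h3 hN1 h4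

/-- two-sided times -/
theorem disp_int {m : ℕ} {P : Measure Ω} [IsProbabilityMeasure P] {θ : Fin m → ℤ → Ω → ℕ}
    {L : Fin m → ℤ → ℕ} (h : IsNoise P θ L)
    (hslow : ∀ q : ℕ, ∃ C : ℕ, ∀ i, ∀ n : ℤ, L i n ^ q ≤ C * (n.natAbs + 1)) (J : Finset (Fin m))
    (hJ : ∀ i ∈ J, Tendsto (L i) cofinite atTop) :
    ∀ᵐ ω ∂P, ∀ (G : Type w) [AddCommGroup G] (X : Type u) [MeasurableSpace X] (μ : Measure X)
      [IsProbabilityMeasure μ] (A : G → X → X), IsAct μ A →
      ∀ (a : Fin m → ℤ), (∀ i ∈ J, a i ≠ 0) → ∀ (v : Fin m → G) (f : Fin m → X → ℝ),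
        (∀ i, Measurable (f i) ∧ ∀ x, |f i x| ≤ 1) →
      ∀ᵐ x ∂μ, Tendsto (fun N : ℕ =>
        (∑ t ∈ Icc (-(N : ℤ)) (N : ℤ), ∏ i, f i (A ((a i * t + (θ i t ω : ℤ)) • v i) x)) /
          ((Icc (-(N : ℤ)) (N : ℤ)).card : ℝ) - (∏ i ∈ J, ivt μ A (v i) (f i) x) *
        ((∑ t ∈ Icc (-(N : ℤ)) (N : ℤ),
          ∏ i ∈ Jᶜ, Mv A (v i) (L i t) (f i) (A ((a i * t) • v i) x)) /
          ((Icc (-(N : ℤ)) (N : ℤ)).card : ℝ))) atTop (𝓝 0) := by
  classical
  filter_upwards [main_int.{u, w} h hslow] with ω hω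
  intro G _ X _ μ _ A hA a ha v f hf
  have h1 := hω.2 G X μ A hA (fun i => zmultiplesHom G (a i • v i)) v f hf
  have h2 : ∀ᵐ x ∂μ, ∀ i ∈ J, Tendsto (fun N : ℕ => (∑ t ∈ Icc (-(N : ℤ)) (N : ℤ),
      |Mv A (v i) (L i t) (f i) (A ((a i * t) • v i) x) - ivt μ A (v i) (f i) x|) /
      ((Icc (-(N : ℤ)) (N : ℤ)).card : ℝ)) atTop (𝓝 0) := by
    refine (ae_ball_iff J.countable_toSet).2 fun i hi => ?_
    have hai : a i ≠ 0 := ha i hi
    refine part2 (fun N : ℕ => Icc (-(N : ℤ)) (N : ℤ)) (fun t : ℤ => a i * t) (L i)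
      (fun N => (a i).natAbs * N + 1) ((a i).natAbs + 1) ?_ ?_ ?_ ?_ (dens_int (hJ i hi)) hA (v i)
      (hf i).1 (hf i).2
    · have h3 : 1 ≤ (a i).natAbs := by omega
      refine tendsto_atTop_mono (fun N => ?_) tendsto_id
      show N ≤ (a i).natAbs * N + 1
      nlinarith
    · filter_upwards with N
      exact ⟨0, by rw [mem_Icc]; omega⟩
    · filter_upwards with N t ht
      rw [mem_Icc] at ht
      rw [abs_mul, Int.abs_eq_natAbs, Int.abs_eq_natAbs]
      have h4 : (a i).natAbs * t.natAbs ≤ (a i).natAbs * N := Nat.mul_le_mul_left _ (by omega)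
      have h5 : (((a i).natAbs * t.natAbs : ℕ) : ℤ) ≤ (((a i).natAbs * N : ℕ) : ℤ) := by
        exact_mod_cast h4
      push_cast at h5 ⊢
      linarith
    · filter_upwards with N r
      have h6 : ((Icc (-(N : ℤ)) (N : ℤ)).filter fun t : ℤ => a i * t = r).card ≤ 1 := by
        rw [card_le_one]
        intro s hs t ht
        rw [mem_filter] at hs ht
        have h7 : a i * s = a i * t := hs.2.trans ht.2.symm
        exact mul_left_cancel₀ hai h7
      rw [card_int]
      have h7 : ((((Icc (-(N : ℤ)) (N : ℤ)).filter fun t : ℤ => a i * t = r).card : ℕ) : ℝ) ≤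
          1 := by exact_mod_cast h6
      have h9 : (0 : ℝ) ≤ ((a i).natAbs : ℝ) := Nat.cast_nonneg _
      have h10 := mul_le_mul_of_nonneg_right h7
        (by positivity : (0 : ℝ) ≤ ((((a i).natAbs * N + 1 : ℕ)) : ℝ))
      refine h10.trans ?_
      push_cast
      have h11 : (0 : ℝ) ≤ N := Nat.cast_nonneg _
      nlinarith
  filter_upwards [h1, h2, ae_all_iff.2 fun i => ivt_bd (μ := μ) (A := A) (v i) (hf i).2]
    with x hx1 hx2 hx3
  refine combine (fun N : ℕ => Icc (-(N : ℤ)) (N : ℤ))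
    (fun t => ∏ i, f i (A ((a i * t + (θ i t ω : ℤ)) • v i) x))
    (fun i t => Mv A (v i) (L i t) (f i) (A ((a i * t) • v i) x))
    (fun i => ivt μ A (v i) (f i) x) J (fun i t => Mv_bd A _ _ (hf i).2 _) hx3 ?_ hx2
  refine hx1.congr fun N => ?_
  congr 1
  refine sum_congr rfl fun t _ => ?_
  have e : ∀ i, (zmultiplesHom G (a i • v i)) t = (a i * t) • v i := fun i => by
    rw [zmultiplesHom_apply, smul_smul, mul_comm]
  simp only [e]
  congr 1
  refine prod_congr rfl fun i _ => ?_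
  rw [← hA.add, ← natCast_zsmul, ← add_smul, add_comm]

/-! ### boxes -/

theorem bx_slab {k : ℕ} (M : Fin k → ℕ) (r : Fin k) (c : ℕ) :
    ((bx M).filter fun t => t r < c).card * M r ≤ c * (bx M).card := by
  classical
  have h1 : ((bx M).filter fun t => t r < c) ⊆ bx (Function.update M r c) := by
    intro t ht
    rw [mem_filter, mem_bx] at ht
    rw [mem_bx]
    intro s
    by_cases hs : s = r
    · subst hs
      rw [Function.update_self]
      exact ⟨(ht.1 s).1, ht.2.le⟩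
    · rw [Function.update_of_ne hs]
      exact ht.1 s
  have h2 := card_le_card h1
  rw [bx_card, prod_update_of_mem (mem_univ r)] at h2
  rw [bx_card, ← mul_prod_erase univ M (mem_univ r), ← sdiff_singleton_eq_erase]
  calc ((bx M).filter fun t => t r < c).card * M r
      ≤ (c * ∏ x ∈ univ \ {r}, M x) * M r := Nat.mul_le_mul_right _ h2
    _ = _ := by ring

theorem dens_box {k : ℕ} {L : (Fin k → ℕ) → ℕ} (hL : Tendsto L atTop atTop) (R : ℕ) :
    Tendsto (fun M : Fin k → ℕ => (((bx M).filter fun t => L t < R).card : ℝ) / (bx M).card) atTop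
      (𝓝 0) := by
  classical
  obtain ⟨t0, ht0⟩ := (hL.eventually_ge_atTop R).exists_forall_of_atTop
  have h1 : Tendsto (fun M : Fin k → ℕ => ∑ r, ((t0 r : ℕ) : ℝ) / (M r : ℝ)) atTop (𝓝 0) := by
    have h2 := tendsto_finsetSum (univ : Finset (Fin k)) fun r _ =>
      (tendsto_const_div_atTop_nhds_zero_nat ((t0 r : ℕ) : ℝ)).comp (coord_tendsto r)
    simpa using h2
  refine squeeze_zero' (Eventually.of_forall fun N => by positivity) ?_ h1
  filter_upwards [eventually_ge_atTop (fun _ => 1)] with M hM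
  have hM1 : ∀ r, (0 : ℝ) < M r := fun r => by exact_mod_cast hM r
  have hb : (0 : ℝ) < (bx M).card := by
    rw [bx_card]
    exact_mod_cast prod_pos fun r _ => hM r
  have h2 : ((bx M).filter fun t => L t < R) ⊆
      univ.biUnion fun r => (bx M).filter fun t => t r < t0 r := by
    intro t ht
    rw [mem_filter] at ht
    rw [mem_biUnion]
    by_contra h3
    push Not at h3
    have h4 : t0 ≤ t := fun r => by
      have h5 := h3 r (mem_univ r)
      rw [mem_filter] at h5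
      by_contra h6
      exact h5 ⟨ht.1, not_le.1 h6⟩
    have := ht0 t h4
    omega
  rw [div_le_iff₀ hb, sum_mul]
  have h3 : ((((bx M).filter fun t => L t < R).card : ℕ) : ℝ) ≤
      ∑ r, ((((bx M).filter fun t => t r < t0 r).card : ℕ) : ℝ) := by
    exact_mod_cast (card_le_card h2).trans card_biUnion_le
  refine h3.trans (sum_le_sum fun r _ => ?_)
  rw [div_mul_eq_mul_div, le_div_iff₀ (hM1 r)]
  exact_mod_cast bx_slab M r (t0 r)

theorem bx_fiber {k : ℕ} (c : Fin k → ℤ) (M : Fin k → ℕ) (i : Fin k) (hi : c i ≠ 0) (s : ℤ) :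
    ((bx M).filter fun t => ∑ r, c r * (t r : ℤ) = s).card * M i ≤ (bx M).card := by
  classical
  have h1 : (((bx M).filter fun t => ∑ r, c r * (t r : ℤ) = s) ×ˢ Icc 1 (M i)).card ≤
      (bx M).card := by
    refine card_le_card_of_injOn (fun p => Function.update p.1 i p.2) ?_ ?_
    · intro p hp
      rw [mem_coe, mem_product, mem_filter, mem_bx, mem_Icc] at hp
      rw [mem_coe, mem_bx]
      intro r
      by_cases hr : r = i
      · subst hr
        show 1 ≤ Function.update p.1 r p.2 r ∧ Function.update p.1 r p.2 r ≤ M r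
        rw [Function.update_self]
        exact hp.2
      · show 1 ≤ Function.update p.1 i p.2 r ∧ Function.update p.1 i p.2 r ≤ M r
        rw [Function.update_of_ne hr]
        exact hp.1.1 r
    · intro p hp q hq hpq
      rw [mem_coe, mem_product, mem_filter] at hp hq
      have e1 : ∀ r, Function.update p.1 i p.2 r = Function.update q.1 i q.2 r := congrFun hpq
      have e2 : p.2 = q.2 := by simpa using e1 i
      have e3 : ∀ r, r ≠ i → p.1 r = q.1 r := fun r hr => by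
        have := e1 r
        rwa [Function.update_of_ne hr, Function.update_of_ne hr] at this
      have e4 : c i * (p.1 i : ℤ) = c i * (q.1 i : ℤ) := by
        have h5 := hp.1.2.trans hq.1.2.symm
        rw [← add_sum_erase univ _ (mem_univ i), ← add_sum_erase univ (fun r => c r * (q.1 r : ℤ))
          (mem_univ i), sum_congr rfl fun r hr => by rw [e3 r (ne_of_mem_erase hr)]] at h5
        linarith
      have e5 : p.1 i = q.1 i := by
        have := mul_left_cancel₀ hi e4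
        exact_mod_cast this
      refine Prod.ext (funext fun r => ?_) e2
      by_cases hr : r = i
      · rw [hr]; exact e5
      · exact e3 r hr
  rwa [card_product, Nat.card_Icc, Nat.add_sub_cancel] at h1

/-- boxes of times -/
theorem disp_box {k m : ℕ} (hk : 1 ≤ k) {P : Measure Ω} [IsProbabilityMeasure P]
    {θ : Fin m → (Fin k → ℕ) → Ω → ℕ} {L : Fin m → (Fin k → ℕ) → ℕ} (h : IsNoise P θ L)
    (hslow : ∀ q : ℕ, ∃ C : ℕ, ∀ i, ∀ t : Fin k → ℕ, (∀ r, 1 ≤ t r) → L i t ^ q ≤ C * ∏ r, t r)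
    (J : Finset (Fin m)) (hJ : ∀ i ∈ J, Tendsto (L i) atTop atTop) :
    ∀ᵐ ω ∂P, ∀ (G : Type w) [AddCommGroup G] (X : Type u) [MeasurableSpace X] (μ : Measure X)
      [IsProbabilityMeasure μ] (A : G → X → X), IsAct μ A →
      ∀ (c : Fin m → Fin k → ℤ), (∀ i ∈ J, c i ≠ 0) → ∀ (v : Fin m → G) (f : Fin m → X → ℝ),
        (∀ i, Measurable (f i) ∧ ∀ x, |f i x| ≤ 1) →
      ∀ᵐ x ∂μ, Tendsto (fun M : Fin k → ℕ =>
        (∑ t ∈ bx M, ∏ i, f i (A ((∑ r, c i r * (t r : ℤ) + (θ i t ω : ℤ)) • v i) x)) /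
          ((bx M).card : ℝ) - (∏ i ∈ J, ivt μ A (v i) (f i) x) *
        ((∑ t ∈ bx M,
          ∏ i ∈ Jᶜ, Mv A (v i) (L i t) (f i) (A ((∑ r, c i r * (t r : ℤ)) • v i) x)) /
          ((bx M).card : ℝ))) atTop (𝓝 0) := by
  classical
  filter_upwards [main_box.{u, w} hk h hslow] with ω hω
  intro G _ X _ μ _ A hA c hc v f hf
  have h1 := hω.2 G X μ A hA (fun i =>
    { toFun := fun z => (∑ r, c i r * (ofLex z) r) • v i
      map_zero' := by
        show (∑ r, c i r * (0 : ℤ)) • v i = 0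
        simp
      map_add' := fun y z => by
        rw [← add_smul, ← sum_add_distrib]
        congr 1
        refine sum_congr rfl fun r _ => ?_
        rw [ofLex_add, Pi.add_apply, mul_add] }) v f hf
  have h2 : ∀ᵐ x ∂μ, ∀ i ∈ J, Tendsto (fun M : Fin k → ℕ => (∑ t ∈ bx M,
      |Mv A (v i) (L i t) (f i) (A ((∑ r, c i r * (t r : ℤ)) • v i) x) -
        ivt μ A (v i) (f i) x|) / ((bx M).card : ℝ)) atTop (𝓝 0) := by
    refine (ae_ball_iff J.countable_toSet).2 fun i hi => ?_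
    obtain ⟨r0, hr0⟩ := Function.ne_iff.1 (hc i hi)
    refine part2 bx (fun t : Fin k → ℕ => ∑ r, c i r * (t r : ℤ)) (L i)
      (fun M => ∑ r, (c i r).natAbs * M r + 1) (((∑ r, (c i r).natAbs + 1 : ℕ)) : ℝ) ?_ ?_ ?_ ?_
      (dens_box (hJ i hi)) hA (v i) (hf i).1 (hf i).2
    · refine tendsto_atTop_mono (fun M => ?_) (coord_tendsto r0)
      have h3 : 1 ≤ (c i r0).natAbs := by
        have : c i r0 ≠ 0 := hr0
        omega
      have h4 : (c i r0).natAbs * M r0 ≤ ∑ r, (c i r).natAbs * M r :=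
        single_le_sum (f := fun r => (c i r).natAbs * M r) (fun r _ => Nat.zero_le _)
          (mem_univ r0)
      nlinarith
    · filter_upwards [eventually_ge_atTop (fun _ => 1)] with M hM
      exact ⟨fun _ => 1, mem_bx.2 fun r => ⟨le_rfl, hM r⟩⟩
    · filter_upwards with M t ht
      rw [mem_bx] at ht
      have h5 : |∑ r, c i r * (t r : ℤ)| ≤ ((∑ r, (c i r).natAbs * M r : ℕ) : ℤ) := by
        refine (abs_sum_le_sum_abs _ _).trans ?_
        push_cast
        refine sum_le_sum fun r _ => ?_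
        rw [abs_mul, Nat.abs_cast]
        have h6 : (t r : ℤ) ≤ M r := by exact_mod_cast (ht r).2
        exact mul_le_mul_of_nonneg_left h6 (abs_nonneg _)
      push_cast at h5 ⊢
      linarith
    · filter_upwards with M s
      have h6 : ((bx M).filter fun t => ∑ r, c i r * (t r : ℤ) = s).card *
          (∑ r, (c i r).natAbs * M r + 1) ≤ (∑ r, (c i r).natAbs + 1) * (bx M).card := by
        set q := ((bx M).filter fun t => ∑ r, c i r * (t r : ℤ) = s).card with hq
        have h7 : q * ∑ r, (c i r).natAbs * M r ≤ (∑ r, (c i r).natAbs) * (bx M).card := by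
          rw [mul_sum, sum_mul]
          refine sum_le_sum fun r _ => ?_
          by_cases hr : c i r = 0
          · rw [hr]; simp
          · have h8 := bx_fiber (c i) M r hr s
            rw [← hq] at h8
            calc q * ((c i r).natAbs * M r) = (c i r).natAbs * (q * M r) := by ring
              _ ≤ _ := Nat.mul_le_mul_left _ h8
        have h9 : q ≤ (bx M).card := card_filter_le _ _
        nlinarith
      exact_mod_cast h6
  filter_upwards [h1, h2, ae_all_iff.2 fun i => ivt_bd (μ := μ) (A := A) (v i) (hf i).2]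
    with x hx1 hx2 hx3
  refine combine bx
    (fun t => ∏ i, f i (A ((∑ r, c i r * (t r : ℤ) + (θ i t ω : ℤ)) • v i) x))
    (fun i t => Mv A (v i) (L i t) (f i) (A ((∑ r, c i r * (t r : ℤ)) • v i) x))
    (fun i => ivt μ A (v i) (f i) x) J (fun i t => Mv_bd A _ _ (hf i).2 _) hx3 ?_ hx2
  refine hx1.congr fun M => ?_
  congr 1
  refine sum_congr rfl fun t _ => ?_
  have e : ∀ i, (∑ r, c i r * (ofLex (pl t)) r) • v i = (∑ r, c i r * (t r : ℤ)) • v i :=
    fun i => rfl
  simp only [AddMonoidHom.coe_mk, ZeroHom.coe_mk, e]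
  congr 1
  refine prod_congr rfl fun i _ => ?_
  rw [← hA.add, ← natCast_zsmul, ← add_smul, add_comm]

end Pool.Agent.Q83.NT
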