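import Mathlib

/-!
# Averages at randomly displaced times: definitions
-/

set_option autoImplicit false

namespace Pool.Agent.Q83.NT

open MeasureTheory ProbabilityTheory Finset Filter Topology

/-- The random integers `θ i t` (`i : ι`, `t : 𝒯`) are independent, and `θ i t` is uniform on
`{0, ..., L i t - 1}`, where `L i t ≥ 1`. -/
structure IsNoise {Ω : Type*} [MeasurableSpace Ω] (P : Measure Ω) {ι 𝒯 : Type*}
    (θ : ι → 𝒯 → Ω → ℕ) (L : ι → 𝒯 → ℕ) : Prop where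
  meas : ∀ i t, Measurable (θ i t)
  indep : iIndepFun (fun p : ι × 𝒯 => θ p.1 p.2) P
  unif : ∀ i t l, l < L i t → P.real {ω | θ i t ω = l} = (L i t : ℝ)⁻¹
  pos : ∀ i t, 1 ≤ L i t

/-- The mean of `f` over the `l` consecutive points `x, σ x, ..., σ^(l-1) x` of the orbit. -/
noncomputable def mn {X : Type} (σ : Equiv.Perm X) (l : ℕ) (f : X → ℝ) (x : X) : ℝ :=
  (l : ℝ)⁻¹ * ∑ j ∈ range l, f ((σ ^ (j : ℤ)) x)

/-- Almost everywhere convergence of the averages over `1 ≤ n ≤ N` of the product over `i ∈ S` of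
`f_i(T^{s_i(n)} x)`, for all invertible measure preserving maps `T` and all essentially bounded
`f_i`. -/
def ConvNat {m : ℕ} (S : Finset (Fin m)) (s : Fin m → ℕ → ℤ) : Prop :=
  ∀ (X : Type) [MeasurableSpace X] (μ : Measure X) [IsProbabilityMeasure μ]
    (T : Equiv.Perm X), Measurable T.symm → MeasurePreserving T μ μ →
    ∀ f : Fin m → X → ℝ, (∀ i, MemLp (f i) ⊤ μ) →
    ∀ᵐ x ∂μ, ∃ l : ℝ, Tendsto (fun N : ℕ => (N : ℝ)⁻¹ *
      ∑ n ∈ Icc 1 N, ∏ i ∈ S, f i ((T ^ s i n) x)) atTop (𝓝 l)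

/-- Almost everywhere convergence of the averages over `|n| ≤ N` of the product over `i ∈ S` of
`f_i(T_i^{s_i(n)} x)`, for all commuting invertible measure preserving maps `T_i` and all essentially
bounded `f_i`. -/
def ConvInt {m : ℕ} (S : Finset (Fin m)) (s : Fin m → ℤ → ℤ) : Prop :=
  ∀ (X : Type) [MeasurableSpace X] (μ : Measure X) [IsProbabilityMeasure μ]
    (T : Fin m → Equiv.Perm X), (∀ i, Measurable (T i).symm) →
    (∀ i, MeasurePreserving (T i) μ μ) → (∀ i j, T i * T j = T j * T i) →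
    ∀ f : Fin m → X → ℝ, (∀ i, MemLp (f i) ⊤ μ) →
    ∀ᵐ x ∂μ, ∃ l : ℝ, Tendsto (fun N : ℕ => ((2 * N + 1 : ℕ) : ℝ)⁻¹ *
      ∑ n ∈ Icc (-(N : ℤ)) (N : ℤ), ∏ i ∈ S, f i ((T i ^ s i n) x)) atTop (𝓝 l)

/-- Almost everywhere convergence of the averages over the boxes `[1,M_1] × ... × [1,M_k]`, as
`min M_r → ∞`, of the product over `i ∈ S` of `f_i(T_i^{s_i(t)} x)`, for all commuting invertible
measure preserving maps `T_i` and all essentially bounded `f_i`. -/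
def ConvBox {k m : ℕ} (S : Finset (Fin m)) (s : Fin m → (Fin k → ℕ) → ℤ) : Prop :=
  ∀ (X : Type) [MeasurableSpace X] (μ : Measure X) [IsProbabilityMeasure μ]
    (T : Fin m → Equiv.Perm X), (∀ i, Measurable (T i).symm) →
    (∀ i, MeasurePreserving (T i) μ μ) → (∀ i j, T i * T j = T j * T i) →
    ∀ f : Fin m → X → ℝ, (∀ i, MemLp (f i) ⊤ μ) →
    ∀ᵐ x ∂μ, ∃ l : ℝ, Tendsto (fun M : Fin k → ℕ => (∏ r, (M r : ℝ))⁻¹ *
      ∑ t ∈ Fintype.piFinset (fun r => Icc 1 (M r)), ∏ i ∈ S, f i ((T i ^ s i t) x)) atTop (𝓝 l)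

end Pool.Agent.Q83.NT
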