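import Mathlib

/-!
# Weighted multiple averages of commuting maps, deterministic part

Van der Corput's method without averaging over the shifts: for every measure preserving action of a
commutative group, the mean square of a weighted sum of products is at most a quantity `Phi` which
depends on the weights only.
-/

set_option autoImplicit false

namespace Pool.Agent.Q83.NT

open MeasureTheory Finset
open scoped Pointwise

/-- a measure preserving action of a commutative group, as a family of maps -/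
structure IsAct {G : Type*} [AddCommGroup G] {X : Type*} [MeasurableSpace X] (μ : Measure X)
    (A : G → X → X) : Prop where
  zero : ∀ x, A 0 x = x
  add : ∀ g h x, A (g + h) x = A g (A h x)
  mp : ∀ g, MeasurePreserving (A g) μ μ

variable {Λ G : Type*} [AddCommGroup Λ] [DecidableEq Λ] [AddCommGroup G]
variable {X : Type*} [MeasurableSpace X]

/-- the weights `w(n) w(n+a)` -/
def dw (w : Λ → ℝ) (a : Λ) (n : Λ) : ℝ := w n * w (n + a)

/-- the bound: it depends on the weights only -/
noncomputable def Phi (B : Finset Λ) : ℕ → (Λ → ℝ) → ℝ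
  | 0, w => (∑ n ∈ B, w n) ^ 2
  | s + 1, w => ∑ a ∈ B - B, Real.sqrt (Phi B s (dw w a))

/-- the product `∏ f_j (S_j(n) x)` -/
noncomputable def pr (A : G → X → X) (fs : List ((Λ →+ G) × (X → ℝ))) (n : Λ) (x : X) : ℝ :=
  (fs.map fun p => p.2 (A (p.1 n) x)).prod

/-- the weighted sum -/
noncomputable def Sm (B : Finset Λ) (A : G → X → X) (w : Λ → ℝ)
    (fs : List ((Λ →+ G) × (X → ℝ))) (x : X) : ℝ := ∑ n ∈ B, w n * pr A fs n x

/-- measurable functions bounded by one -/
def Reg (fs : List ((Λ →+ G) × (X → ℝ))) : Prop := ∀ p ∈ fs, Measurable p.2 ∧ ∀ x, |p.2 x| ≤ 1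

omit [MeasurableSpace X] in
theorem sq_identity (B : Finset Λ) (A : G → X → X)
    (hadd : ∀ g h x, A (g + h) x = A g (A h x)) (w : Λ → ℝ) (hw : ∀ n, n ∉ B → w n = 0)
    (fs : List ((Λ →+ G) × (X → ℝ))) (x : X) :
    Sm B A w fs x ^ 2 = ∑ a ∈ B - B, Sm B A (dw w a)
      (fs.map fun p => (p.1, fun y => p.2 y * p.2 (A (p.1 a) y))) x := by
  have h1 : ∀ a n, pr A (fs.map fun p => (p.1, fun y => p.2 y * p.2 (A (p.1 a) y))) n x =
      pr A fs n x * pr A fs (n + a) x := by
    intro a n
    unfold pr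
    rw [List.map_map, ← List.prod_map_mul]
    congr 1
    apply List.map_congr_left
    intro p _
    simp only [Function.comp]
    rw [map_add, add_comm (p.1 n), hadd]
  unfold Sm
  simp only [h1]
  rw [sum_comm, sq, sum_mul]
  refine sum_congr rfl fun n hn => ?_
  rw [mul_sum]
  have h2 : ∑ a ∈ B - B, dw w a n * (pr A fs n x * pr A fs (n + a) x) =
      ∑ a ∈ (B - B).filter (fun a => n + a ∈ B), dw w a n * (pr A fs n x * pr A fs (n + a) x) := by
    symm
    apply sum_subset (filter_subset _ _)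
    intro a ha hna
    have : n + a ∉ B := fun h => hna (mem_filter.2 ⟨ha, h⟩)
    simp [dw, hw _ this]
  rw [h2]
  refine sum_bij' (fun n' _ => n' - n) (fun a _ => n + a) ?_ ?_ ?_ ?_ ?_
  · intro n' hn'
    rw [mem_filter]
    refine ⟨sub_mem_sub hn' hn, ?_⟩
    simpa using hn'
  · intro a ha
    exact (mem_filter.1 ha).2
  · intro n' _
    simp
  · intro a _
    simp
  · intro n' _
    have : n + (n' - n) = n' := by abel
    simp only [dw, this]
    ring

theorem pr_meas {μ : Measure X} {A : G → X → X} (hA : IsAct μ A)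
    {fs : List ((Λ →+ G) × (X → ℝ))} (h : Reg fs) (n : Λ) : Measurable (pr A fs n) := by
  induction fs with
  | nil =>
    have h0 : pr A ([] : List ((Λ →+ G) × (X → ℝ))) n = fun _ => 1 := by funext x; simp [pr]
    rw [h0]
    exact measurable_const
  | cons p fs ih =>
    have h1 : pr A (p :: fs) n = fun x => p.2 (A (p.1 n) x) * pr A fs n x := by
      funext x; simp [pr]
    rw [h1]
    exact ((h p (by simp)).1.comp (hA.mp _).measurable).mul
      (ih fun q hq => h q (by simp [hq]))

omit [DecidableEq Λ] [MeasurableSpace X] in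
theorem pr_bd' {A : G → X → X} {fs : List ((Λ →+ G) × (X → ℝ))} (h : ∀ p ∈ fs, ∀ x, |p.2 x| ≤ 1)
    (n : Λ) (x : X) : |pr A fs n x| ≤ 1 := by
  induction fs with
  | nil => simp [pr]
  | cons p fs ih =>
    have h1 : pr A (p :: fs) n x = p.2 (A (p.1 n) x) * pr A fs n x := by simp [pr]
    rw [h1, abs_mul]
    exact mul_le_one₀ (h p (by simp) _) (abs_nonneg _) (ih fun q hq => h q (by simp [hq]))

omit [DecidableEq Λ] in
theorem pr_bd {A : G → X → X} {fs : List ((Λ →+ G) × (X → ℝ))} (h : Reg fs) (n : Λ) (x : X) :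
    |pr A fs n x| ≤ 1 := pr_bd' (fun p hp => (h p hp).2) n x

theorem Sm_meas {μ : Measure X} {A : G → X → X} (hA : IsAct μ A) (B : Finset Λ) (w : Λ → ℝ)
    {fs : List ((Λ →+ G) × (X → ℝ))} (h : Reg fs) : Measurable (Sm B A w fs) := by
  unfold Sm
  exact Finset.measurable_sum _ fun n _ => (pr_meas hA h n).const_mul _

theorem Sm_bd {A : G → X → X} (B : Finset Λ) (w : Λ → ℝ)
    {fs : List ((Λ →+ G) × (X → ℝ))} (h : Reg fs) (x : X) :
    |Sm B A w fs x| ≤ ∑ n ∈ B, |w n| := by
  unfold Sm
  refine (abs_sum_le_sum_abs _ _).trans (sum_le_sum fun n _ => ?_)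
  rw [abs_mul]
  exact mul_le_of_le_one_right (abs_nonneg _) (pr_bd h n x)

theorem integrable_bd {μ : Measure X} [IsProbabilityMeasure μ] {F : X → ℝ} (hF : Measurable F)
    {C : ℝ} (hC : ∀ x, |F x| ≤ C) : Integrable F μ :=
  Integrable.mono' (integrable_const C) hF.aestronglyMeasurable (Filter.Eventually.of_forall hC)

/-- Cauchy–Schwarz on a probability space -/
theorem int_le_sqrt {μ : Measure X} [IsProbabilityMeasure μ] {F Y : X → ℝ} (hF : Measurable F)
    (hF1 : ∀ x, |F x| ≤ 1) (hY : Measurable Y) {C : ℝ} (hC : ∀ x, |Y x| ≤ C) :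
    ∫ x, F x * Y x ∂μ ≤ Real.sqrt (∫ x, Y x ^ 2 ∂μ) := by
  have hYi : Integrable (fun x => |Y x|) μ :=
    (integrable_bd hY hC).abs
  have hFY : Integrable (fun x => F x * Y x) μ :=
    integrable_bd (C := C) (hF.mul hY) fun x => by
      rw [abs_mul]
      calc |F x| * |Y x| ≤ 1 * |Y x| := mul_le_mul_of_nonneg_right (hF1 x) (abs_nonneg _)
        _ ≤ C := by rw [one_mul]; exact hC x
  have hY2 : Integrable (fun x => Y x ^ 2) μ :=
    integrable_bd (C := C ^ 2) (hY.pow_const 2) fun x => by
      rw [abs_pow]; exact pow_le_pow_left₀ (abs_nonneg _) (hC x) 2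
  have h1 : ∫ x, F x * Y x ∂μ ≤ ∫ x, |Y x| ∂μ := by
    apply integral_mono hFY hYi
    intro x
    calc F x * Y x ≤ |F x * Y x| := le_abs_self _
      _ = |F x| * |Y x| := abs_mul _ _
      _ ≤ 1 * |Y x| := mul_le_mul_of_nonneg_right (hF1 x) (abs_nonneg _)
      _ = |Y x| := one_mul _
  set c : ℝ := ∫ x, |Y x| ∂μ with hc
  have hc0 : 0 ≤ c := integral_nonneg fun x => abs_nonneg _
  have h2 : 0 ≤ ∫ x, (|Y x| - c) ^ 2 ∂μ := integral_nonneg fun x => sq_nonneg _
  have h3 : ∫ x, (|Y x| - c) ^ 2 ∂μ = (∫ x, Y x ^ 2 ∂μ) - c ^ 2 := by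
    have e : ∀ x, (|Y x| - c) ^ 2 = (Y x ^ 2 - 2 * c * |Y x|) + c ^ 2 := by
      intro x
      have := sq_abs (Y x)
      nlinarith
    simp_rw [e]
    have e1 : ∫ x, (Y x ^ 2 - 2 * c * |Y x| + c ^ 2) ∂μ =
        (∫ x, (Y x ^ 2 - 2 * c * |Y x|) ∂μ) + ∫ _x, c ^ 2 ∂μ :=
      integral_add (hY2.sub (hYi.const_mul _)) (integrable_const _)
    have e2 : ∫ x, (Y x ^ 2 - 2 * c * |Y x|) ∂μ =
        (∫ x, Y x ^ 2 ∂μ) - ∫ x, 2 * c * |Y x| ∂μ := integral_sub hY2 (hYi.const_mul _)
    rw [e1, e2, integral_const_mul, ← hc]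
    simp
    ring
  refine h1.trans (Real.le_sqrt_of_sq_le ?_)
  linarith

theorem det {μ : Measure X} [IsProbabilityMeasure μ] {A : G → X → X} (hA : IsAct μ A)
    (B : Finset Λ) : ∀ (k : ℕ) (fs : List ((Λ →+ G) × (X → ℝ))), fs.length = k → Reg fs →
    ∀ w : Λ → ℝ, (∀ n, n ∉ B → w n = 0) → ∫ x, Sm B A w fs x ^ 2 ∂μ ≤ Phi B k w := by
  intro k
  induction k with
  | zero =>
    intro fs hfs _ w _
    have : fs = [] := List.length_eq_zero_iff.1 hfs
    subst this
    simp [Sm, pr, Phi]
  | succ k ih =>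
    intro fs hfs hreg w hw
    obtain ⟨⟨S1, f1⟩, rest, rfl⟩ : ∃ p rest, fs = p :: rest := by
      cases fs with
      | nil => simp at hfs
      | cons p rest => exact ⟨p, rest, rfl⟩
    have hlen : rest.length = k := by simpa using hfs
    have hregr : ∀ q ∈ rest, Measurable q.2 ∧ ∀ x, |q.2 x| ≤ 1 := fun q hq => hreg q (by simp [hq])
    have hf1 := hreg (S1, f1) (by simp)
    simp_rw [sq_identity B A hA.add w hw]
    -- the functions after one step
    have hrega : ∀ a : Λ, Reg (((S1, f1) :: rest).map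
        fun p => (p.1, fun y => p.2 y * p.2 (A (p.1 a) y))) := by
      intro a p hp
      rw [List.mem_map] at hp
      obtain ⟨q, hq, rfl⟩ := hp
      have h := hreg q hq
      refine ⟨h.1.mul (h.1.comp (hA.mp _).measurable), fun x => ?_⟩
      rw [abs_mul]
      exact mul_le_one₀ (h.2 _) (abs_nonneg _) (h.2 _)
    rw [integral_finsetSum _ fun a _ => integrable_bd (Sm_meas hA B _ (hrega a))
      (fun x => Sm_bd B _ (hrega a) x)]
    rw [Phi]
    refine sum_le_sum fun a _ => ?_
    set F1 : X → ℝ := fun y => f1 y * f1 (A (S1 a) y) with hF1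
    set ra : List ((Λ →+ G) × (X → ℝ)) := rest.map
      fun p => (p.1 - S1, fun y => p.2 y * p.2 (A (p.1 a) y)) with hra
    have hrra : Reg ra := by
      intro p hp
      rw [hra, List.mem_map] at hp
      obtain ⟨q, hq, rfl⟩ := hp
      have h := hregr q hq
      refine ⟨h.1.mul (h.1.comp (hA.mp _).measurable), fun x => ?_⟩
      rw [abs_mul]
      exact mul_le_one₀ (h.2 _) (abs_nonneg _) (h.2 _)
    have hF1m : Measurable F1 := hf1.1.mul (hf1.1.comp (hA.mp _).measurable)
    have hF1b : ∀ x, |F1 x| ≤ 1 := fun x => by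
      rw [hF1, abs_mul]
      exact mul_le_one₀ (hf1.2 _) (abs_nonneg _) (hf1.2 _)
    have hpt : ∀ n x, pr A (((S1, f1) :: rest).map
        fun p => (p.1, fun y => p.2 y * p.2 (A (p.1 a) y))) n x =
        F1 (A (S1 n) x) * pr A ra n (A (S1 n) x) := by
      intro n x
      unfold pr
      rw [List.map_cons, List.map_cons, List.prod_cons, hra, List.map_map, List.map_map]
      congr 1
      congr 1
      apply List.map_congr_left
      intro p _
      simp only [Function.comp]
      have e : A ((p.1 - S1) n) (A (S1 n) x) = A (p.1 n) x := by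
        rw [← hA.add]
        congr 1
        simp
      rw [e]
    have hswap : ∫ x, Sm B A (dw w a) (((S1, f1) :: rest).map
        fun p => (p.1, fun y => p.2 y * p.2 (A (p.1 a) y))) x ∂μ =
        ∫ x, F1 x * Sm B A (dw w a) ra x ∂μ := by
      have hint1 : ∀ n, Integrable (fun x => dw w a n * pr A (((S1, f1) :: rest).map
          fun p => (p.1, fun y => p.2 y * p.2 (A (p.1 a) y))) n x) μ := fun n =>
        (integrable_bd (pr_meas hA (hrega a) n) (fun x => pr_bd (hrega a) n x)).const_mul _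
      have hint2 : ∀ n, Integrable (fun x => F1 x * (dw w a n * pr A ra n x)) μ := fun n =>
        integrable_bd (C := |dw w a n|) (hF1m.mul ((pr_meas hA hrra n).const_mul _)) fun x => by
          rw [abs_mul (F1 x), abs_mul (dw w a n)]
          calc |F1 x| * (|dw w a n| * |pr A ra n x|) ≤ 1 * (|dw w a n| * 1) :=
                mul_le_mul (hF1b x) (mul_le_mul_of_nonneg_left (pr_bd hrra n x) (abs_nonneg _))
                  (by positivity) zero_le_one
            _ = |dw w a n| := by ring
      unfold Sm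
      simp_rw [mul_sum]
      rw [integral_finsetSum _ fun n _ => hint1 n, integral_finsetSum _ fun n _ => hint2 n]
      refine sum_congr rfl fun n _ => ?_
      simp_rw [hpt]
      have hm := hA.mp (S1 n)
      have key : ∫ x, F1 (A (S1 n) x) * pr A ra n (A (S1 n) x) ∂μ = ∫ x, F1 x * pr A ra n x ∂μ := by
        conv_rhs => rw [← hm.map_eq]
        rw [integral_map hm.measurable.aemeasurable]
        exact (hF1m.mul (pr_meas hA hrra n)).aestronglyMeasurable
      rw [integral_const_mul, key, ← integral_const_mul]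
      refine integral_congr_ae (Filter.Eventually.of_forall fun x => ?_)
      simp only
      ring
    rw [hswap]
    refine (int_le_sqrt hF1m hF1b (Sm_meas hA B _ hrra) (fun x => Sm_bd B _ hrra x)).trans ?_
    apply Real.sqrt_le_sqrt
    apply ih ra (by simp [hra, hlen]) hrra
    intro n hn
    simp [dw, hw n hn]

end Pool.Agent.Q83.NT
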