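import Pool.Agent.Q83.NT.BC
import Pool.Agent.Q83.NT.Defs

/-!
# Independent uniform displacements of the times
-/

set_option autoImplicit false

namespace Pool.Agent.Q83.NT

open MeasureTheory ProbabilityTheory Finset Filter Topology
open scoped Pointwise ENNReal

universe u w

/-- the average `(1/L) ∑_{l<L} f (x + l u)` -/
noncomputable def Mv {G X : Type*} [AddCommGroup G] (A : G → X → X) (u : G) (L : ℕ) (f : X → ℝ)
    (y : X) : ℝ := (L : ℝ)⁻¹ * ∑ l ∈ range L, f (A (l • u) y)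

variable {Ω : Type*} {mΩ : MeasurableSpace Ω} {ι 𝒯 : Type*}

theorem IsNoise.set_meas {P : Measure Ω} {θ : ι → 𝒯 → Ω → ℕ} {L : ι → 𝒯 → ℕ}
    (h : IsNoise P θ L) (i : ι) (t : 𝒯) (l : ℕ) : MeasurableSet {ω | θ i t ω = l} :=
  h.meas i t (measurableSet_singleton l)

theorem IsNoise.real_lt {P : Measure Ω} [IsProbabilityMeasure P] {θ : ι → 𝒯 → Ω → ℕ}
    {L : ι → 𝒯 → ℕ} (h : IsNoise P θ L) (i : ι) (t : 𝒯) : P.real {ω | θ i t ω < L i t} = 1 := by
  have e : {ω | θ i t ω < L i t} = ⋃ l ∈ range (L i t), {ω | θ i t ω = l} := by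
    ext ω; simp
  rw [e, measureReal_biUnion_finset]
  · rw [sum_congr rfl fun l hl => h.unif i t l (mem_range.1 hl)]
    have : (L i t : ℝ) ≠ 0 := by have := h.pos i t; positivity
    simp [this]
  · intro a _ b _ hab
    rw [Function.onFun, Set.disjoint_left]
    intro ω h1 h2
    exact hab (h1.symm.trans h2)
  · intro l _
    exact h.set_meas i t l

theorem IsNoise.ae_lt [Countable ι] [Countable 𝒯] {P : Measure Ω} [IsProbabilityMeasure P]
    {θ : ι → 𝒯 → Ω → ℕ} {L : ι → 𝒯 → ℕ} (h : IsNoise P θ L) :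
    ∀ᵐ ω ∂P, ∀ i t, θ i t ω < L i t := by
  rw [ae_all_iff]; intro i
  rw [ae_all_iff]; intro t
  have h1 := h.real_lt i t
  have hms : MeasurableSet {ω | θ i t ω < L i t} := h.meas i t measurableSet_Iio
  rw [ae_iff]
  have h2 : P.real {ω | θ i t ω < L i t}ᶜ = 0 := by
    rw [measureReal_compl hms, h1]; simp
  rw [measureReal_def, ENNReal.toReal_eq_zero_iff] at h2
  exact h2.resolve_right (measure_ne_top _ _)

theorem IsNoise.real_ge {P : Measure Ω} [IsProbabilityMeasure P] {θ : ι → 𝒯 → Ω → ℕ}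
    {L : ι → 𝒯 → ℕ} (h : IsNoise P θ L) (i : ι) (t : 𝒯) {l : ℕ} (hl : L i t ≤ l) :
    P.real {ω | θ i t ω = l} = 0 := by
  have h1 := h.real_lt i t
  have hms : MeasurableSet {ω | θ i t ω < L i t} := h.meas i t measurableSet_Iio
  have h2 : P.real {ω | θ i t ω < L i t}ᶜ = 0 := by
    rw [measureReal_compl hms, h1]; simp
  apply le_antisymm _ measureReal_nonneg
  rw [← h2]
  refine measureReal_mono (fun ω hω => ?_) (measure_ne_top _ _)
  simp only [Set.mem_compl_iff, Set.mem_setOf_eq] at hω ⊢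
  omega

/-- the law of one component -/
theorem IsNoise.law {P : Measure Ω} [IsProbabilityMeasure P] {θ : ι → 𝒯 → Ω → ℕ}
    {L : ι → 𝒯 → ℕ} (h : IsNoise P θ L) (i : ι) (t : 𝒯) (l : ℕ) :
    P.real {ω | θ i t ω = l} = if l < L i t then (L i t : ℝ)⁻¹ else 0 := by
  split_ifs with hl
  · exact h.unif i t l hl
  · exact h.real_ge i t (not_lt.1 hl)

/-- the law of the vector of the components at one time -/
theorem IsNoise.vlaw [Fintype ι] {P : Measure Ω} [IsProbabilityMeasure P] {θ : ι → 𝒯 → Ω → ℕ}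
    {L : ι → 𝒯 → ℕ} (h : IsNoise P θ L) (t : 𝒯) (l : ι → ℕ) :
    P.real {ω | (fun i => θ i t ω) = l} = ∏ i, if l i < L i t then (L i t : ℝ)⁻¹ else 0 := by
  have h1 : iIndepFun (fun i : ι => θ i t) P :=
    h.indep.precomp (g := fun i : ι => (i, t)) fun a b hab => (Prod.mk.inj hab).1
  have e : {ω | (fun i => θ i t ω) = l} = ⋂ i ∈ (Finset.univ : Finset ι), θ i t ⁻¹' {l i} := by
    ext ω
    simp [funext_iff]
  rw [e, measureReal_def, h1.measure_inter_preimage_eq_mul Finset.univ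
    (fun i _ => measurableSet_singleton _), ENNReal.toReal_prod]
  refine prod_congr rfl fun i _ => ?_
  exact h.law i t (l i)

variable {Λ : Type*} [AddCommGroup Λ] [LinearOrder Λ] [IsOrderedAddMonoid Λ]

/-- the information at the place `n` -/
@[reducible] def info (τ : 𝒯 → Λ) (θ : ι → 𝒯 → Ω → ℕ) (n : Λ) : MeasurableSpace Ω :=
  ⨆ p ∈ {p : ι × 𝒯 | τ p.2 = n}, MeasurableSpace.comap (θ p.1 p.2) inferInstance

omit [AddCommGroup Λ] [LinearOrder Λ] [IsOrderedAddMonoid Λ] in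
theorem info_le {τ : 𝒯 → Λ} {θ : ι → 𝒯 → Ω → ℕ} (h : ∀ i t, Measurable (θ i t)) (n : Λ) :
    info τ θ n ≤ mΩ := iSup₂_le fun p _ => (h p.1 p.2).comap_le

omit [AddCommGroup Λ] [IsOrderedAddMonoid Λ] in
theorem info_indep {τ : 𝒯 → Λ} {P : Measure Ω} {θ : ι → 𝒯 → Ω → ℕ} {L : ι → 𝒯 → ℕ}
    (h : IsNoise P θ L) (n : Λ) : Indep (info τ θ n) (fut (info τ θ) n) P := by
  have h1 : Indep (⨆ p ∈ {p : ι × 𝒯 | τ p.2 = n}, MeasurableSpace.comap (θ p.1 p.2) inferInstance)
      (⨆ p ∈ {p : ι × 𝒯 | n < τ p.2}, MeasurableSpace.comap (θ p.1 p.2) inferInstance) P := by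
    apply indep_iSup_of_disjoint (m := fun p : ι × 𝒯 =>
      MeasurableSpace.comap (θ p.1 p.2) inferInstance)
    · exact fun p => (h.meas p.1 p.2).comap_le
    · exact h.indep
    · rw [Set.disjoint_left]
      intro p h1 h2
      exact absurd h1 (ne_of_gt h2)
  refine indep_of_indep_of_le_right h1 ?_
  refine iSup₂_le fun m hm => iSup₂_le fun p hp => ?_
  have hmem : p ∈ {p : ι × 𝒯 | n < τ p.2} := by
    have h3 : τ p.2 = m := hp
    show n < τ p.2
    rw [h3]
    exact hm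
  exact le_iSup₂_of_le (f := fun (p : ι × 𝒯) (_ : p ∈ {p : ι × 𝒯 | n < τ p.2}) =>
        MeasurableSpace.comap (θ p.1 p.2) inferInstance) p hmem le_rfl

open Classical in
/-- the vector of the components at the place `n` (zero if no time is there) -/
noncomputable def vec (τ : 𝒯 → Λ) (θ : ι → 𝒯 → Ω → ℕ) (n : Λ) (ω : Ω) : ι → ℕ :=
  if h : ∃ t, τ t = n then fun i => θ i h.choose ω else fun _ => 0

omit [AddCommGroup Λ] [LinearOrder Λ] [IsOrderedAddMonoid Λ] mΩ in
theorem vec_eq {τ : 𝒯 → Λ} (hτ : Function.Injective τ) (θ : ι → 𝒯 → Ω → ℕ) (t : 𝒯) (ω : Ω) :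
    vec τ θ (τ t) ω = fun i => θ i t ω := by
  have h : ∃ t', τ t' = τ t := ⟨t, rfl⟩
  have e : h.choose = t := hτ h.choose_spec
  unfold vec
  rw [dif_pos h]
  simp only [e]

omit [AddCommGroup Λ] [LinearOrder Λ] [IsOrderedAddMonoid Λ] mΩ in
theorem vec_meas [Countable ι] (τ : 𝒯 → Λ) (θ : ι → 𝒯 → Ω → ℕ) (n : Λ) (l : ι → ℕ) :
    MeasurableSet[info τ θ n] {ω | vec τ θ n ω = l} := by
  by_cases h : ∃ t, τ t = n
  · have e : {ω | vec τ θ n ω = l} = ⋂ i, {ω | θ i h.choose ω = l i} := by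
      ext ω
      simp only [vec, dif_pos h, Set.mem_setOf_eq, Set.mem_iInter, funext_iff]
    rw [e]
    refine MeasurableSet.iInter fun i => ?_
    have h1 : MeasurableSet[MeasurableSpace.comap (θ i h.choose) inferInstance]
        {ω | θ i h.choose ω = l i} := ⟨{l i}, measurableSet_singleton _, rfl⟩
    have h2 : MeasurableSpace.comap (θ i h.choose) inferInstance ≤ info τ θ n := by
      unfold info
      exact le_iSup₂_of_le (f := fun (p : ι × 𝒯) (_ : p ∈ {p : ι × 𝒯 | τ p.2 = n}) =>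
        MeasurableSpace.comap (θ p.1 p.2) inferInstance) (i, h.choose) h.choose_spec le_rfl
    exact h2 _ h1
  · have e : {ω | vec τ θ n ω = l} = {_ω | (fun _ : ι => (0 : ℕ)) = l} := by
      ext ω
      simp only [vec, dif_neg h, Set.mem_setOf_eq]
    rw [e]
    exact @MeasurableSet.const _ (info τ θ n) _

/-- the product of the functions at the displaced times is compared with the product of averages -/
theorem sum_labels {m : ℕ} {P : Measure Ω} [IsProbabilityMeasure P] {θ : Fin m → 𝒯 → Ω → ℕ}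
    {L : Fin m → 𝒯 → ℕ} (h : IsNoise P θ L) {τ : 𝒯 → Λ} (hτ : Function.Injective τ) (t : 𝒯)
    (K : ℕ) (hK : ∀ i, L i t ≤ K) {ω : Ω} (hω : ∀ i, θ i t ω < L i t) (g : Fin m → ℕ → ℝ) :
    ∑ l ∈ Fintype.piFinset (fun _ : Fin m => range K),
      kk P (vec τ θ) l ω (τ t) * ∏ i, g i (l i) =
    ∏ i, g i (θ i t ω) - ∏ i, ((L i t : ℝ)⁻¹ * ∑ l ∈ range (L i t), g i l) := by
  classical
  unfold kk
  simp_rw [sub_mul, sum_sub_distrib]
  congr 1
  · rw [sum_eq_single (fun i => θ i t ω)]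
    · rw [Set.indicator_of_mem (by simp [vec_eq hτ])]
      simp
    · intro l _ hl
      rw [Set.indicator_of_notMem]
      · simp
      · simp only [Set.mem_setOf_eq, vec_eq hτ]
        exact fun hh => hl hh.symm
    · intro hn
      exfalso
      apply hn
      rw [Fintype.mem_piFinset]
      intro i
      rw [mem_range]
      exact (hω i).trans_le (hK i)
  · have e : ∀ l : Fin m → ℕ, P.real {ω | vec τ θ (τ t) ω = l} * ∏ i, g i (l i) =
        ∏ i, ((if l i < L i t then (L i t : ℝ)⁻¹ else 0) * g i (l i)) := by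
      intro l
      simp_rw [vec_eq hτ]
      rw [h.vlaw, prod_mul_distrib]
    simp_rw [e]
    rw [← Finset.prod_univ_sum (fun _ : Fin m => range K)
      (fun i l => (if l < L i t then (L i t : ℝ)⁻¹ else 0) * g i l)]
    refine prod_congr rfl fun i _ => ?_
    rw [mul_sum]
    have hsub : range (L i t) ⊆ range K := range_subset_range.2 (hK i)
    rw [← sum_subset hsub]
    · refine sum_congr rfl fun l hl => ?_
      rw [if_pos (mem_range.1 hl)]
    · intro l _ hl
      rw [if_neg (fun hh => hl (mem_range.2 hh)), zero_mul]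

/-- almost every noise is good for all systems, along a sparse family of finite sets of times -/
theorem part1 {m : ℕ} {J : Type*} [Countable J] [Countable 𝒯] {P : Measure Ω}
    [IsProbabilityMeasure P] {θ : Fin m → 𝒯 → Ω → ℕ} {L : Fin m → 𝒯 → ℕ} (h : IsNoise P θ L)
    {τ : 𝒯 → Λ} (hτ : Function.Injective τ) (T : J → Finset 𝒯) (hT : ∀ j, (T j).Nonempty)
    {C : ℝ} (hC : 1 ≤ C)
    (hB : ∀ j, (((T j).image τ - (T j).image τ).card : ℝ) ≤ C * (T j).card)
    (K : J → ℕ) (hK : ∀ j, ∀ t ∈ T j, ∀ i, L i t ≤ K j)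
    (hsum : Summable fun j => ((K j : ℝ) ^ m) ^ 2 * ((T j).card : ℝ) ^ (-(1 / 2 : ℝ) ^ m)) :
    ∀ᵐ ω ∂P, (∀ i t, θ i t ω < L i t) ∧
      ∀ (G : Type w) [AddCommGroup G] (X : Type u) [MeasurableSpace X] (μ : Measure X)
      [IsProbabilityMeasure μ] (A : G → X → X), IsAct μ A →
      ∀ (S : Fin m → (Λ →+ G)) (v : Fin m → G) (f : Fin m → X → ℝ),
        (∀ i, Measurable (f i) ∧ ∀ x, |f i x| ≤ 1) →
      ∀ᵐ x ∂μ, Tendsto (fun j => (∑ t ∈ T j, (∏ i, f i (A (θ i t ω • v i) (A (S i (τ t)) x)) -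
        ∏ i, Mv A (v i) (L i t) (f i) (A (S i (τ t)) x))) / (T j).card) cofinite (𝓝 0) := by
  have hcard : ∀ j, ((T j).image τ).card = (T j).card := fun j => card_image_of_injective _ hτ
  have hs := scheme.{u, w} (info_le h.meas) (info_indep (τ := τ) h) (θ := vec τ θ)
    (fun n l => vec_meas τ θ n l) m (fun j => (T j).image τ)
    (fun j => (hT j).image τ) hC (fun j => by rw [hcard]; exact hB j)
    (fun j => Fintype.piFinset (fun _ : Fin m => range (K j)))
    (by
      refine hsum.congr fun j => ?_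
      rw [hcard, Fintype.card_piFinset]
      simp)
  filter_upwards [hs, h.ae_lt] with ω hω hlt
  refine ⟨hlt, ?_⟩
  intro G _ X _ μ _ A hA S v f hf
  have h1 := hω G X μ A hA (fun l => List.ofFn fun i => (S i, fun x => f i (A (l i • v i) x)))
    (fun l => ⟨by simp, by
      intro p hp
      rw [List.mem_ofFn] at hp
      obtain ⟨i, rfl⟩ := hp
      exact ⟨(hf i).1.comp (hA.mp _).measurable, fun x => (hf i).2 _⟩⟩)
  filter_upwards [h1] with x hx
  refine hx.congr fun j => ?_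
  rw [hcard, sum_comm]
  congr 1
  rw [sum_image fun a _ b _ hab => hτ hab]
  refine sum_congr rfl fun t ht => ?_
  have h2 := sum_labels h hτ t (K j) (hK j t ht) (hlt · t)
    (fun i l => f i (A (l • v i) (A (S i (τ t)) x)))
  unfold Mv
  rw [← h2]
  refine sum_congr rfl fun l _ => ?_
  congr 1
  unfold pr
  rw [List.map_ofFn, List.prod_ofFn]
  rfl

end Pool.Agent.Q83.NT
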