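import Pool.Agent.Q83.NT.Det

/-!
# Weighted multiple averages of commuting maps, random weights

For independent mean zero weights the expectation of the bound `Phi` of `Det` saves a power.
-/

set_option autoImplicit false

namespace Pool.Agent.Q83.NT

open MeasureTheory ProbabilityTheory Finset
open scoped Pointwise

variable {Λ : Type*} [AddCommGroup Λ] [LinearOrder Λ] [IsOrderedAddMonoid Λ]
variable {Ω : Type*} {mΩ : MeasurableSpace Ω}

/-- the future of `c` -/
@[reducible] def fut (𝓕 : Λ → MeasurableSpace Ω) (c : Λ) : MeasurableSpace Ω := ⨆ m ∈ Set.Ioi c, 𝓕 m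

/-- each weight is the product of a mean zero function of the noise at one place and of a function
of the noise at later places -/
def Ad (𝓕 : Λ → MeasurableSpace Ω) (P : Measure Ω) (W : Ω → Λ → ℝ) : Prop :=
  ∃ c : Λ, ∀ n, ∃ k F : Ω → ℝ, (∀ ω, W ω n = k ω * F ω) ∧ Measurable[𝓕 (n + c)] k ∧
    (∀ ω, |k ω| ≤ 1) ∧ ∫ ω, k ω ∂P = 0 ∧ Measurable[fut 𝓕 (n + c)] F ∧ ∀ ω, |F ω| ≤ 1

omit [AddCommGroup Λ] [IsOrderedAddMonoid Λ] in
theorem le_fut {𝓕 : Λ → MeasurableSpace Ω} {c m : Λ} (h : c < m) : 𝓕 m ≤ fut 𝓕 c :=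
  le_iSup₂_of_le m (Set.mem_Ioi.2 h) le_rfl

omit [AddCommGroup Λ] [IsOrderedAddMonoid Λ] in
theorem fut_mono {𝓕 : Λ → MeasurableSpace Ω} {c d : Λ} (h : c ≤ d) : fut 𝓕 d ≤ fut 𝓕 c :=
  iSup₂_le fun _ hm => le_fut (lt_of_le_of_lt h (Set.mem_Ioi.1 hm))

omit [AddCommGroup Λ] [IsOrderedAddMonoid Λ] in
theorem fut_le {𝓕 : Λ → MeasurableSpace Ω} (hle : ∀ n, 𝓕 n ≤ mΩ) (c : Λ) : fut 𝓕 c ≤ mΩ :=
  iSup₂_le fun m _ => hle m

theorem abs_mul3 {a b c : ℝ} (ha : |a| ≤ 1) (hb : |b| ≤ 1) (hc : |c| ≤ 1) :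
    |a * (b * c)| ≤ 1 := by
  rw [abs_mul, abs_mul]
  exact mul_le_one₀ ha (by positivity) (mul_le_one₀ hb (abs_nonneg _) hc)

theorem Ad.dw {𝓕 : Λ → MeasurableSpace Ω} {P : Measure Ω} {W : Ω → Λ → ℝ} (h : Ad 𝓕 P W)
    {a : Λ} (ha : a ≠ 0) : Ad 𝓕 P (fun ω => dw (W ω) a) := by
  obtain ⟨c, hc⟩ := h
  choose k F h1 h2 h3 h4 h5 h6 using hc
  rcases lt_or_gt_of_ne ha with ha | ha
  · refine ⟨a + c, fun n => ⟨k (n + a), fun ω => F (n + a) ω * (k n ω * F n ω), fun ω => ?_, ?_,
      h3 _, h4 _, ?_, fun ω => abs_mul3 (h6 _ _) (h3 _ _) (h6 _ _)⟩⟩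
    · simp only [NT.dw]
      rw [h1, h1]
      ring
    · rw [← add_assoc]
      exact h2 (n + a)
    · have hlt : n + (a + c) < n + c := by
        have : a + c < c := by simpa using ha
        simpa using this
      have e : fut 𝓕 (n + a + c) = fut 𝓕 (n + (a + c)) := by rw [add_assoc]
      have m1 : Measurable[fut 𝓕 (n + (a + c))] (F (n + a)) := e ▸ h5 (n + a)
      have m2 : Measurable[fut 𝓕 (n + (a + c))] (k n) := (h2 n).mono (le_fut hlt) le_rfl
      have m3 : Measurable[fut 𝓕 (n + (a + c))] (F n) := (h5 n).mono (fut_mono hlt.le) le_rfl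
      exact m1.mul (m2.mul m3)
  · refine ⟨c, fun n => ⟨k n, fun ω => F n ω * (k (n + a) ω * F (n + a) ω), fun ω => ?_, h2 n,
      h3 _, h4 _, ?_, fun ω => abs_mul3 (h6 _ _) (h3 _ _) (h6 _ _)⟩⟩
    · simp only [NT.dw]
      rw [h1, h1]
      ring
    · have hlt : n + c < n + a + c := by
        have : 0 < a := ha
        have h7 : n < n + a := by simpa using this
        simpa using h7
      have m2 : Measurable[fut 𝓕 (n + c)] (k (n + a)) := (h2 (n + a)).mono (le_fut hlt) le_rfl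
      have m3 : Measurable[fut 𝓕 (n + c)] (F (n + a)) :=
        (h5 (n + a)).mono (fut_mono hlt.le) le_rfl
      exact (h5 n).mul (m2.mul m3)

theorem Ad.meas {𝓕 : Λ → MeasurableSpace Ω} {P : Measure Ω} {W : Ω → Λ → ℝ}
    (hle : ∀ n, 𝓕 n ≤ mΩ) (h : Ad 𝓕 P W) (n : Λ) : Measurable fun ω => W ω n := by
  obtain ⟨c, hc⟩ := h
  obtain ⟨k, F, h1, h2, _, _, h5, _⟩ := hc n
  have : (fun ω => W ω n) = fun ω => k ω * F ω := funext h1
  rw [this]
  exact (h2.mono (hle _) le_rfl).mul (h5.mono (fut_le hle _) le_rfl)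

theorem Ad.bd {𝓕 : Λ → MeasurableSpace Ω} {P : Measure Ω} {W : Ω → Λ → ℝ}
    (h : Ad 𝓕 P W) (ω : Ω) (n : Λ) : |W ω n| ≤ 1 := by
  obtain ⟨c, hc⟩ := h
  obtain ⟨k, F, h1, _, h3, _, _, h6⟩ := hc n
  rw [h1, abs_mul]
  exact mul_le_one₀ (h3 _) (abs_nonneg _) (h6 _)

theorem Ad.orth {𝓕 : Λ → MeasurableSpace Ω} {P : Measure Ω} [IsProbabilityMeasure P]
    {W : Ω → Λ → ℝ} (hle : ∀ n, 𝓕 n ≤ mΩ) (hind : ∀ m, Indep (𝓕 m) (fut 𝓕 m) P)
    (h : Ad 𝓕 P W) {n n' : Λ} (hn : n < n') : ∫ ω, W ω n * W ω n' ∂P = 0 := by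
  obtain ⟨c, hc⟩ := h
  choose k F h1 h2 h3 h4 h5 h6 using hc
  have hlt : n + c < n' + c := by simpa using hn
  let G : Ω → ℝ := fun ω => F n ω * (k n' ω * F n' ω)
  have hG : Measurable[fut 𝓕 (n + c)] G :=
    (h5 n).mul (((h2 n').mono (le_fut hlt) le_rfl).mul ((h5 n').mono (fut_mono hlt.le) le_rfl))
  have e : ∀ ω, W ω n * W ω n' = k n ω * G ω := by
    intro ω
    rw [h1, h1]
    simp only [G]
    ring
  simp_rw [e]
  have hi : IndepFun (k n) G P := by
    rw [IndepFun_iff_Indep]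
    exact indep_of_indep_of_le (hind (n + c)) (h2 n).comap_le hG.comap_le
  rw [hi.integral_fun_mul_eq_mul_integral ((h2 n).mono (hle _) le_rfl).aestronglyMeasurable
    (hG.mono (fut_le hle _) le_rfl).aestronglyMeasurable, h4, zero_mul]

theorem Ad.sq {𝓕 : Λ → MeasurableSpace Ω} {P : Measure Ω} [IsProbabilityMeasure P]
    {W : Ω → Λ → ℝ} (hle : ∀ n, 𝓕 n ≤ mΩ) (hind : ∀ m, Indep (𝓕 m) (fut 𝓕 m) P)
    (h : Ad 𝓕 P W) (B : Finset Λ) : ∫ ω, (∑ n ∈ B, W ω n) ^ 2 ∂P ≤ (B.card : ℝ) := by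
  have hint : ∀ n n', Integrable (fun ω => W ω n * W ω n') P := fun n n' =>
    integrable_bd (C := 1) ((h.meas hle n).mul (h.meas hle n')) fun ω => by
      rw [abs_mul]
      exact mul_le_one₀ (h.bd ω n) (abs_nonneg _) (h.bd ω n')
  simp_rw [pow_two, sum_mul_sum]
  rw [integral_finsetSum _ fun n _ => integrable_finsetSum _ fun n' _ => hint n n']
  calc ∑ n ∈ B, ∫ ω, ∑ n' ∈ B, W ω n * W ω n' ∂P
      = ∑ n ∈ B, ∑ n' ∈ B, ∫ ω, W ω n * W ω n' ∂P :=
        sum_congr rfl fun n _ => integral_finsetSum _ fun n' _ => hint n n'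
    _ = ∑ n ∈ B, ∫ ω, W ω n * W ω n ∂P := by
        refine sum_congr rfl fun n hn => ?_
        rw [sum_eq_single n]
        · intro n' _ hne
          rcases lt_or_gt_of_ne hne with h1 | h1
          · have := h.orth hle hind h1
            simp_rw [mul_comm (W _ n') (W _ n)] at this
            exact this
          · exact h.orth hle hind h1
        · intro h1
          exact absurd hn h1
    _ ≤ ∑ n ∈ B, (1 : ℝ) := by
        refine sum_le_sum fun n _ => ?_
        calc ∫ ω, W ω n * W ω n ∂P ≤ ∫ _ω, (1 : ℝ) ∂P := by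
              apply integral_mono (hint n n) (integrable_const _)
              intro ω
              have := h.bd ω n
              have h2 : |W ω n * W ω n| ≤ 1 := by
                rw [abs_mul]; exact mul_le_one₀ this (abs_nonneg _) this
              exact (le_abs_self _).trans h2
          _ = 1 := by simp
    _ = B.card := by simp

theorem Phi_nonneg (B : Finset Λ) (s : ℕ) (w : Λ → ℝ) : 0 ≤ Phi B s w := by
  cases s with
  | zero => exact sq_nonneg _
  | succ s => exact sum_nonneg fun _ _ => Real.sqrt_nonneg _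

theorem Phi_meas (B : Finset Λ) (s : ℕ) {W : Ω → Λ → ℝ} (h : ∀ n, Measurable fun ω => W ω n) :
    Measurable fun ω => Phi B s (W ω) := by
  induction s generalizing W with
  | zero =>
    simp only [Phi]
    exact (Finset.measurable_sum _ fun n _ => h n).pow_const 2
  | succ s ih =>
    simp only [Phi]
    exact Finset.measurable_sum _ fun a _ => (ih fun n => (h n).mul (h (n + a))).sqrt

/-- the trivial bound -/
theorem Phi_triv (B : Finset Λ) {C : ℝ} (hC : 1 ≤ C) (hB : ((B - B).card : ℝ) ≤ C * B.card)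
    (s : ℕ) {w : Λ → ℝ} (h : ∀ n, |w n| ≤ 1) : Phi B s w ≤ (C * B.card) ^ 2 := by
  induction s generalizing w with
  | zero =>
    simp only [Phi]
    have h1 : |∑ n ∈ B, w n| ≤ B.card := by
      refine (abs_sum_le_sum_abs _ _).trans ((sum_le_sum fun n _ => h n).trans ?_)
      simp
    rw [← sq_abs]
    refine pow_le_pow_left₀ (abs_nonneg _) (h1.trans ?_) 2
    have : (0 : ℝ) ≤ B.card := Nat.cast_nonneg _
    nlinarith
  | succ s ih =>
    simp only [Phi]
    have h0 : (0 : ℝ) ≤ C * B.card := by positivity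
    calc ∑ a ∈ B - B, Real.sqrt (Phi B s (dw w a)) ≤ ∑ a ∈ B - B, C * B.card := by
          refine sum_le_sum fun a _ => ?_
          rw [← Real.sqrt_sq h0]
          apply Real.sqrt_le_sqrt
          apply ih
          intro n
          rw [dw, abs_mul]
          exact mul_le_one₀ (h _) (abs_nonneg _) (h _)
      _ = (B - B).card * (C * B.card) := by simp
      _ ≤ (C * B.card) * (C * B.card) := mul_le_mul_of_nonneg_right hB h0
      _ = (C * B.card) ^ 2 := by ring

/-- the main estimate: a power is saved in the mean -/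
theorem EPhi {𝓕 : Λ → MeasurableSpace Ω} {P : Measure Ω} [IsProbabilityMeasure P]
    (hle : ∀ n, 𝓕 n ≤ mΩ) (hind : ∀ m, Indep (𝓕 m) (fut 𝓕 m) P) (B : Finset Λ)
    (hB1 : B.Nonempty) {C : ℝ} (hC : 1 ≤ C) (hB : ((B - B).card : ℝ) ≤ C * B.card) (s : ℕ)
    {W : Ω → Λ → ℝ} (h : Ad 𝓕 P W) :
    ∫ ω, Phi B s (W ω) ∂P ≤ 3 * C ^ 2 * (B.card : ℝ) ^ (2 - (1 / 2 : ℝ) ^ s) := by
  have hb1 : (1 : ℝ) ≤ B.card := by exact_mod_cast hB1.card_pos
  have hb0 : (0 : ℝ) < B.card := by linarith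
  induction s generalizing W with
  | zero =>
    simp only [Phi]
    refine (h.sq hle hind B).trans ?_
    have : (B.card : ℝ) ^ (2 - (1 / 2 : ℝ) ^ 0) = B.card := by
      rw [pow_zero]
      norm_num
    rw [this]
    nlinarith [mul_le_mul hC hC zero_le_one (by linarith)]
  | succ s ih =>
    set γ : ℝ := (1 / 2 : ℝ) ^ s with hγ
    have hγ0 : 0 < γ := by positivity
    have hγ1 : γ ≤ 1 := pow_le_one₀ (by norm_num) (by norm_num)
    have hγ2 : (1 / 2 : ℝ) ^ (s + 1) = γ / 2 := by rw [pow_succ]; ring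
    rw [hγ2]
    simp only [Phi]
    have hmeasd : ∀ a, Measurable fun ω => Phi B s (dw (W ω) a) := fun a =>
      Phi_meas B s fun n => (h.meas hle n).mul (h.meas hle (n + a))
    have hbdd : ∀ a ω, Phi B s (dw (W ω) a) ≤ (C * B.card) ^ 2 := fun a ω =>
      Phi_triv B hC hB s fun n => by
        rw [dw, abs_mul]; exact mul_le_one₀ (h.bd _ _) (abs_nonneg _) (h.bd _ _)
    have hint1 : ∀ a, Integrable (fun ω => Real.sqrt (Phi B s (dw (W ω) a))) P := fun a =>
      integrable_bd (C := Real.sqrt ((C * B.card) ^ 2)) (hmeasd a).sqrt fun ω => by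
        rw [abs_of_nonneg (Real.sqrt_nonneg _)]
        exact Real.sqrt_le_sqrt (hbdd a ω)
    have hint2 : ∀ a, Integrable (fun ω => Phi B s (dw (W ω) a)) P := fun a =>
      integrable_bd (C := (C * B.card) ^ 2) (hmeasd a) fun ω => by
        rw [abs_of_nonneg (Phi_nonneg _ _ _)]
        exact hbdd a ω
    rw [integral_finsetSum _ fun a _ => hint1 a]
    -- Jensen
    have hjen : ∀ a, ∫ ω, Real.sqrt (Phi B s (dw (W ω) a)) ∂P ≤
        Real.sqrt (∫ ω, Phi B s (dw (W ω) a) ∂P) := by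
      intro a
      have h1 := int_le_sqrt (μ := P) (F := fun _ => 1)
        (Y := fun ω => Real.sqrt (Phi B s (dw (W ω) a))) measurable_const (by simp)
        (hmeasd a).sqrt (C := Real.sqrt ((C * B.card) ^ 2)) (fun ω => by
          rw [abs_of_nonneg (Real.sqrt_nonneg _)]
          exact Real.sqrt_le_sqrt (hbdd a ω))
      simp only [one_mul] at h1
      refine h1.trans (le_of_eq ?_)
      congr 1
      refine integral_congr_ae (Filter.Eventually.of_forall fun ω => ?_)
      exact Real.sq_sqrt (Phi_nonneg _ _ _)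
    set b : ℝ := (B.card : ℝ) with hb
    have hA : ∀ a, a ≠ 0 → ∫ ω, Real.sqrt (Phi B s (dw (W ω) a)) ∂P ≤
        Real.sqrt 3 * C * b ^ (1 - γ / 2) := by
      intro a ha
      refine (hjen a).trans ?_
      have h2 := ih (h.dw ha)
      refine (Real.sqrt_le_sqrt h2).trans (le_of_eq ?_)
      have e1 : b ^ (2 - γ) = (b ^ (1 - γ / 2)) ^ 2 := by
        rw [← Real.rpow_natCast, ← Real.rpow_mul hb0.le]
        congr 1
        push_cast
        ring
      rw [e1, Real.sqrt_mul (by positivity), Real.sqrt_mul (by norm_num),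
        Real.sqrt_sq (by linarith), Real.sqrt_sq (by positivity)]
    have h0 : ∫ ω, Real.sqrt (Phi B s (dw (W ω) 0)) ∂P ≤ C * b := by
      calc ∫ ω, Real.sqrt (Phi B s (dw (W ω) 0)) ∂P ≤ ∫ _ω, C * b ∂P := by
            apply integral_mono (hint1 0) (integrable_const _)
            intro ω
            rw [← Real.sqrt_sq (show 0 ≤ C * b by positivity)]
            exact Real.sqrt_le_sqrt (hbdd 0 ω)
        _ = C * b := by simp
    have hsum : ∑ a ∈ B - B, ∫ ω, Real.sqrt (Phi B s (dw (W ω) a)) ∂P ≤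
        ∑ a ∈ B - B, (Real.sqrt 3 * C * b ^ (1 - γ / 2) + if a = 0 then C * b else 0) := by
      refine sum_le_sum fun a _ => ?_
      by_cases ha : a = 0
      · subst ha
        rw [if_pos rfl]
        have : 0 ≤ Real.sqrt 3 * C * b ^ (1 - γ / 2) := by positivity
        linarith
      · rw [if_neg ha, add_zero]
        exact hA a ha
    refine hsum.trans ?_
    rw [sum_add_distrib, sum_const, nsmul_eq_mul]
    have h3 : ∑ a ∈ B - B, (if a = 0 then C * b else 0) ≤ C * b := by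
      rw [← sum_filter]
      have : (B - B).filter (fun a => a = 0) ⊆ {0} := by
        intro a ha
        rw [mem_filter] at ha
        simp [ha.2]
      calc ∑ a ∈ (B - B).filter (fun a => a = 0), C * b ≤ ∑ a ∈ {(0 : Λ)}, C * b :=
            sum_le_sum_of_subset_of_nonneg this fun _ _ _ => by positivity
        _ = C * b := by simp
    have h4 : b * b ^ (1 - γ / 2) = b ^ (2 - γ / 2) := by
      conv_lhs => rw [← Real.rpow_one b]
      rw [Real.rpow_one, ← Real.rpow_one_add' hb0.le (by linarith)]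
      congr 1
      ring
    have h5 : b ≤ b ^ (2 - γ / 2) := by
      conv_lhs => rw [← Real.rpow_one b]
      exact Real.rpow_le_rpow_of_exponent_le hb1 (by linarith)
    have h6 : Real.sqrt 3 ≤ 2 := by
      rw [Real.sqrt_le_left (by norm_num)]
      norm_num
    have h7 : 0 ≤ b ^ (2 - γ / 2) := by positivity
    have h8 : 0 ≤ Real.sqrt 3 := Real.sqrt_nonneg _
    calc ((B - B).card : ℝ) * (Real.sqrt 3 * C * b ^ (1 - γ / 2)) +
          ∑ a ∈ B - B, (if a = 0 then C * b else 0)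
        ≤ (C * b) * (Real.sqrt 3 * C * b ^ (1 - γ / 2)) + C * b :=
          add_le_add (mul_le_mul_of_nonneg_right hB (by positivity)) h3
      _ = Real.sqrt 3 * C ^ 2 * (b * b ^ (1 - γ / 2)) + C * b := by ring
      _ = Real.sqrt 3 * C ^ 2 * b ^ (2 - γ / 2) + C * b := by rw [h4]
      _ ≤ 2 * C ^ 2 * b ^ (2 - γ / 2) + C ^ 2 * b ^ (2 - γ / 2) := by
          apply add_le_add
          · apply mul_le_mul_of_nonneg_right _ h7
            exact mul_le_mul_of_nonneg_right h6 (by positivity)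
          · apply mul_le_mul _ h5 (by positivity) (by positivity)
            nlinarith
      _ = 3 * C ^ 2 * b ^ (2 - γ / 2) := by ring

end Pool.Agent.Q83.NT
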