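import Pool.Agent.Q83.NT.Act

/-!
# Products with finite rotations
-/

set_option autoImplicit false

namespace Pool.Agent.Q83.NT

open MeasureTheory ProbabilityTheory Finset Filter Topology
open scoped Pointwise ENNReal

variable {X : Type} [mX : MeasurableSpace X] {μ : Measure X} (q : ℕ) [hq : NeZero q]

/-- the uniform probability -/
noncomputable def un : Measure (ZMod q) := (q : ℝ≥0∞)⁻¹ • Measure.count

instance un_prob : IsProbabilityMeasure (un q) := by
  constructor
  unfold un
  rw [Measure.smul_apply, Measure.count_univ, smul_eq_mul]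
  have h1 : (ENat.card (ZMod q) : ℝ≥0∞) = (q : ℝ≥0∞) := by
    rw [ENat.card_eq_coe_fintype_card, ZMod.card]
    rfl
  rw [h1]
  exact ENNReal.inv_mul_cancel (by simp [hq.out]) (by simp)

theorem un_mp : MeasurePreserving (fun z : ZMod q => z + 1) (un q) (un q) := by
  refine ⟨Measurable.of_discrete, ?_⟩
  unfold un
  rw [Measure.map_smul]
  congr 1
  ext s hs
  rw [Measure.map_apply Measurable.of_discrete hs, Measure.count_apply MeasurableSet.of_discrete,
    Measure.count_apply hs]
  congr 1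
  exact Set.encard_preimage_of_bijective (Equiv.addRight (1 : ZMod q)).bijective s

/-- the product of a map with the rotation of the cyclic group -/
def rotT (σ : Equiv.Perm X) : Equiv.Perm (X × ZMod q) := Equiv.prodCongr σ (Equiv.addRight 1)

omit mX in
theorem rotT_apply (σ : Equiv.Perm X) (x : X) (z : ZMod q) : rotT q σ (x, z) = (σ x, z + 1) := rfl

omit mX in
theorem rotT_zpow (σ : Equiv.Perm X) (n : ℤ) (x : X) (z : ZMod q) :
    (rotT q σ ^ n) (x, z) = ((σ ^ n) x, z + n) := by
  have h1 : ∀ (n : ℕ) (x : X) (z : ZMod q), (rotT q σ ^ n) (x, z) = ((σ ^ n) x, z + n) := by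
    intro n
    induction n with
    | zero => intro x z; simp
    | succ n ih =>
      intro x z
      rw [pow_succ', Equiv.Perm.mul_apply, ih, rotT_apply, pow_succ', Equiv.Perm.mul_apply]
      push_cast
      rw [add_assoc]
  obtain ⟨k, rfl | rfl⟩ := n.eq_nat_or_neg
  · rw [zpow_natCast, zpow_natCast, h1]; push_cast; rfl
  · rw [zpow_neg, zpow_natCast, zpow_neg, zpow_natCast]
    apply (rotT q σ ^ k).injective
    have h2 : ∀ {Y : Type} (τ : Equiv.Perm Y) (y : Y), τ (τ⁻¹ y) = y := fun τ y =>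
      τ.apply_symm_apply y
    rw [h2, h1, h2]
    push_cast
    rw [neg_add_cancel_right]

theorem rotT_symm_meas {σ : Equiv.Perm X} (h : Measurable σ.symm) :
    Measurable (rotT q σ).symm := by
  have e : ⇑(rotT q σ).symm = fun p => (σ.symm p.1, (Equiv.addRight (1 : ZMod q)).symm p.2) := by
    funext p
    rfl
  rw [e]
  exact (h.comp measurable_fst).prodMk ((Measurable.of_discrete
    (f := (Equiv.addRight (1 : ZMod q)).symm)).comp measurable_snd)

theorem rotT_mp [IsProbabilityMeasure μ] {σ : Equiv.Perm X} (h : MeasurePreserving σ μ μ) :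
    MeasurePreserving (rotT q σ) (μ.prod (un q)) (μ.prod (un q)) :=
  h.prod (un_mp q)

omit mX in
theorem rotT_comm {σ τ : Equiv.Perm X} (h : σ * τ = τ * σ) :
    rotT q σ * rotT q τ = rotT q τ * rotT q σ := by
  ext1 p
  have h1 := congrArg (fun e : Equiv.Perm X => e p.1) h
  simp only [Equiv.Perm.mul_apply] at h1
  show ((σ (τ p.1), p.2 + 1 + 1) : X × ZMod q) = (τ (σ p.1), p.2 + 1 + 1)
  rw [h1]

theorem fiber0 [IsProbabilityMeasure μ] {Q : X × ZMod q → Prop}
    (h : ∀ᵐ p ∂μ.prod (un q), Q p) : ∀ᵐ x ∂μ, Q (x, 0) := by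
  filter_upwards [Measure.ae_ae_of_ae_prod h] with x hx
  by_contra hcon
  have h1 : un q {0} = 0 := by
    refine measure_mono_null ?_ (ae_iff.1 hx)
    intro y hy
    rw [Set.mem_singleton_iff] at hy
    subst hy
    exact hcon
  unfold un at h1
  rw [Measure.smul_apply, Measure.count_singleton, smul_eq_mul, mul_one] at h1
  simp at h1

theorem memLp_prod [IsProbabilityMeasure μ] {g : X → ℝ} (hg : MemLp g ⊤ μ) (φ : ZMod q → ℝ)
    (hφ : ∀ z, |φ z| ≤ 1) : MemLp (fun p : X × ZMod q => g p.1 * φ p.2) ⊤ (μ.prod (un q)) := by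
  obtain ⟨C, g', hC, hm, hb, he⟩ := linf hg
  have h1 : MemLp (fun p : X × ZMod q => C * g' p.1 * φ p.2) ⊤ (μ.prod (un q)) := by
    refine memLp_top_of_bound (C := C) ?_ ?_
    · exact (((hm.comp measurable_fst).const_mul C).mul
        (Measurable.of_discrete.comp measurable_snd)).aestronglyMeasurable
    · refine Eventually.of_forall fun p => ?_
      rw [Real.norm_eq_abs, abs_mul, abs_mul, abs_of_pos hC]
      have h2 := hb p.1
      have h3 := hφ p.2
      calc C * |g' p.1| * |φ p.2| ≤ C * 1 * 1 := by gcongr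
        _ = C := by ring
  refine (memLp_congr_ae ?_).1 h1
  have h2 := Measure.quasiMeasurePreserving_fst (μ := μ) (ν := un q) |>.ae he
  filter_upwards [h2] with p hp
  rw [hp]

omit hq in
theorem cast_zero {x : ℤ} (h : |x| < q) (hx : (x : ZMod q) = 0) : x = 0 :=
  Int.eq_zero_of_abs_lt_dvd ((ZMod.intCast_zmod_eq_zero_iff_dvd x q).1 hx) h

/-- two of the windows single out one residue class of times -/
theorem isolate {m : ℕ} (a : Fin m → ℤ) (l : Fin m → ℕ) (hl : ∀ i, 1 ≤ l i) (S : Finset (Fin m))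
    (i1 i2 : Fin m) (h1S : i1 ∈ S) (h2S : i2 ∈ S) (h12 : i1 ≠ i2) (ha1 : a i1 ≠ 0)
    (ha2 : a i2 ≠ 0) :
    ∃ (q : ℕ) (_ : NeZero q) (s : Fin m → ℤ), ∀ (c : ZMod q) (n : ℤ) (G : Fin m → ℤ → ℝ),
      ∏ i ∈ S, ((l i : ℝ)⁻¹ * ∑ j ∈ range (l i), G i (a i * n + (j : ℤ)) *
        (if ((a i * n + (j : ℤ) : ℤ) : ZMod q) = (a i : ZMod q) * c + (s i : ZMod q) then 1 else 0))
      = if (n : ZMod q) = c then ∏ i ∈ S, ((l i : ℝ)⁻¹ * G i (a i * n + s i)) else 0 := by
  classical
  obtain ⟨q, hq1, hq2⟩ := Nat.exists_infinite_primes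
    (∑ i, l i + ((a i2).natAbs * l i1 + (a i1).natAbs * l i2) + (a i1).natAbs + 1)
  have hq0 : NeZero q := ⟨hq2.ne_zero⟩
  have : Fact q.Prime := ⟨hq2⟩
  set s : Fin m → ℤ := fun i => if i = i2 ∧ 0 < a i1 * a i2 then (l i2 : ℤ) - 1 else 0 with hs
  have hs1 : ∀ i, 0 ≤ s i ∧ s i < l i := by
    intro i
    have h1 := hl i
    by_cases h : i = i2 ∧ 0 < a i1 * a i2
    · have e : s i = (l i2 : ℤ) - 1 := by simp only [hs]; rw [if_pos h]
      rw [e, h.1]
      have h2 := hl i2
      omega
    · have e : s i = 0 := by simp only [hs]; rw [if_neg h]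
      rw [e]
      omega
  have hlq : ∀ i, l i < q := by
    intro i
    have h1 : l i ≤ ∑ i, l i := single_le_sum (f := l) (fun _ _ => Nat.zero_le _) (mem_univ i)
    omega
  refine ⟨q, hq0, s, fun c n G => ?_⟩
  split_ifs with hn
  · refine prod_congr rfl fun i _ => ?_
    congr 1
    have h1 := hs1 i
    rw [sum_eq_single (s i).toNat]
    · have h2 : (((s i).toNat : ℕ) : ℤ) = s i := Int.toNat_of_nonneg h1.1
      rw [h2, if_pos, mul_one]
      push_cast
      rw [hn]
    · intro j hj hne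
      rw [mem_range] at hj
      rw [if_neg, mul_zero]
      intro hcon
      push_cast at hcon
      rw [hn, add_right_inj] at hcon
      have h3 : (((j : ℤ) - s i : ℤ) : ZMod q) = 0 := by
        push_cast
        rw [hcon, sub_self]
      have h4 := hlq i
      have h5 := cast_zero q (by rw [abs_lt]; omega) h3
      omega
    · intro hcon
      exfalso
      apply hcon
      rw [mem_range]
      omega
  · by_contra hcon
    rw [← ne_eq, prod_ne_zero_iff] at hcon
    have key : ∀ i ∈ S, ∃ j : ℕ, j < l i ∧ ((j : ℤ) - s i : ZMod q) = a i * (c - n) := by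
      intro i hiS
      have h1 := right_ne_zero_of_mul (hcon i hiS)
      obtain ⟨j, hj, h2⟩ := exists_ne_zero_of_sum_ne_zero h1
      rw [mem_range] at hj
      refine ⟨j, hj, ?_⟩
      have h3 := right_ne_zero_of_mul h2
      have h4 : ((a i * n + (j : ℤ) : ℤ) : ZMod q) = (a i : ZMod q) * c + (s i : ZMod q) := by
        by_contra h5
        exact h3 (if_neg h5)
      push_cast at h4 ⊢
      linear_combination h4
    obtain ⟨j1, hj1, e1⟩ := key i1 h1S
    obtain ⟨j2, hj2, e2⟩ := key i2 h2S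
    have hs0 : s i1 = 0 := by
      simp only [hs]
      rw [if_neg]
      exact fun h => h12 h.1
    have e3 : ((a i2 * (j1 : ℤ) - a i1 * ((j2 : ℤ) - s i2) : ℤ) : ZMod q) = 0 := by
      rw [hs0] at e1
      push_cast at e1 e2 ⊢
      linear_combination (a i2 : ZMod q) * e1 - (a i1 : ZMod q) * e2
    have h2 := hs1 i2
    have h6 : |a i2 * (j1 : ℤ) - a i1 * ((j2 : ℤ) - s i2)| < q := by
      have h7 : |a i2 * (j1 : ℤ)| ≤ ((a i2).natAbs * l i1 : ℕ) := by
        rw [abs_mul, Int.abs_eq_natAbs, Nat.abs_cast]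
        exact_mod_cast Nat.mul_le_mul_left _ hj1.le
      have h8 : |a i1 * ((j2 : ℤ) - s i2)| ≤ ((a i1).natAbs * l i2 : ℕ) := by
        rw [abs_mul, Int.abs_eq_natAbs]
        push_cast
        refine mul_le_mul_of_nonneg_left ?_ (abs_nonneg _)
        rw [abs_le]
        omega
      have h9 := abs_sub (a i2 * (j1 : ℤ)) (a i1 * ((j2 : ℤ) - s i2))
      have h10 : (((∑ i, l i + ((a i2).natAbs * l i1 + (a i1).natAbs * l i2) + (a i1).natAbs + 1 :
        ℕ)) : ℤ) ≤ q := by exact_mod_cast hq1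
      have h11 : (0 : ℤ) ≤ ((∑ i, l i : ℕ) : ℤ) := Int.natCast_nonneg _
      rw [Nat.cast_add, Nat.cast_add, Nat.cast_add, Nat.cast_add] at h10
      have h12 : (0 : ℤ) ≤ (((a i1).natAbs : ℕ) : ℤ) := Int.natCast_nonneg _
      push_cast at h7 h8 h9 h10 h11 h12 ⊢
      linarith
    have e4 : a i2 * (j1 : ℤ) = a i1 * ((j2 : ℤ) - s i2) := by
      have := cast_zero q h6 e3
      linarith
    have e5 : (j1 : ℤ) = 0 := by
      have h13 : (0 : ℤ) ≤ j1 := Int.natCast_nonneg _
      by_contra h14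
      have h15 : (0 : ℤ) < j1 := lt_of_le_of_ne h13 (Ne.symm h14)
      have h16 : a i1 * a i2 * (j1 : ℤ) = a i1 ^ 2 * ((j2 : ℤ) - s i2) := by
        linear_combination (a i1) * e4
      have h17 : 0 < a i1 ^ 2 := by positivity
      rcases lt_trichotomy (a i1 * a i2) 0 with h18 | h18 | h18
      · have e6 : s i2 = 0 := by
          simp only [hs]
          rw [if_neg]
          exact fun h => absurd h.2 (by omega)
        rw [e6] at h16
        have h19 : a i1 * a i2 * (j1 : ℤ) < 0 := mul_neg_of_neg_of_pos h18 h15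
        have h20 : 0 ≤ a i1 ^ 2 * ((j2 : ℤ) - 0) := mul_nonneg h17.le (by omega)
        linarith
      · rcases mul_eq_zero.1 h18 with h | h
        · exact ha1 h
        · exact ha2 h
      · have e6 : s i2 = (l i2 : ℤ) - 1 := by
          simp only [hs]
          rw [if_pos ⟨trivial, h18⟩]
        rw [e6] at h16
        have h19 : 0 < a i1 * a i2 * (j1 : ℤ) := mul_pos h18 h15
        have h20 : a i1 ^ 2 * ((j2 : ℤ) - ((l i2 : ℤ) - 1)) ≤ 0 :=
          mul_nonpos_of_nonneg_of_nonpos h17.le (by omega)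
        linarith
    rw [hs0] at e1
    have e7 : (0 : ZMod q) = a i1 * (c - n) := by
      rw [← e1]
      have : ((j1 : ℤ) : ZMod q) = 0 := by rw [e5]; simp
      push_cast at this ⊢
      rw [this]; simp
    have h21 : (a i1 : ZMod q) ≠ 0 := by
      intro h22
      have h23 := cast_zero q (x := a i1) (by
        rw [Int.abs_eq_natAbs]
        have : (a i1).natAbs < q := by omega
        exact_mod_cast this) h22
      exact ha1 h23
    rcases mul_eq_zero.1 e7.symm with h | h
    · exact h21 h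
    · exact hn (sub_eq_zero.1 h).symm

end Pool.Agent.Q83.NT
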