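import Pool.Agent.Q83.NT.Rot

/-!
# Bounded displacements do not change the question, unbounded ones remove a factor
-/

set_option autoImplicit false

namespace Pool.Agent.Q83.NT

open MeasureTheory ProbabilityTheory Finset Filter Topology
open scoped Pointwise ENNReal

theorem sum_shift (F : ℕ → ℝ) (N : ℕ) : ∑ n ∈ range N, F (n + 1) = ∑ n ∈ Icc 1 N, F n := by
  induction N with
  | zero => simp
  | succ N ih => rw [sum_range_succ, ih, sum_Icc_succ_top (by omega)]

theorem sum_symm (F : ℤ → ℝ) (N : ℕ) : ∑ n ∈ Icc (-(N : ℤ)) (N : ℤ), F n =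
    ∑ k ∈ range (N + 1), F k + ∑ k ∈ range N, F (-((k : ℤ) + 1)) := by
  induction N with
  | zero => simp
  | succ N ih =>
    have e : Icc (-((N + 1 : ℕ) : ℤ)) ((N + 1 : ℕ) : ℤ) =
        insert (((N : ℤ) + 1)) (insert (-((N : ℤ) + 1)) (Icc (-(N : ℤ)) (N : ℤ))) := by
      ext z
      simp only [mem_insert, mem_Icc]
      push_cast
      omega
    rw [e, sum_insert (by simp only [mem_insert, mem_Icc]; omega),
      sum_insert (by simp only [mem_Icc]; omega), ih, sum_range_succ _ (N + 1),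
      sum_range_succ (fun k : ℕ => F (-((k : ℤ) + 1))) N]
    push_cast
    ring

section general

variable {X : Type} [mX : MeasurableSpace X] {μ : Measure X}

omit mX in
theorem mn_zpow (σ : Equiv.Perm X) (l : ℕ) (f : X → ℝ) (k : ℤ) (x : X) :
    mn σ l f ((σ ^ k) x) = (l : ℝ)⁻¹ * ∑ j ∈ range l, f ((σ ^ (k + (j : ℤ))) x) := by
  unfold mn
  congr 1
  refine sum_congr rfl fun j _ => ?_
  rw [← Equiv.Perm.mul_apply, ← zpow_add, add_comm]

theorem mn_memLp {σ : Equiv.Perm X} (h1 : Measurable σ.symm) (h2 : MeasurePreserving σ μ μ)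
    (l : ℕ) {f : X → ℝ} (hf : MemLp f ⊤ μ) : MemLp (mn σ l f) ⊤ μ := by
  have h3 : MemLp (fun x => ∑ j ∈ range l, f ((σ ^ (j : ℤ)) x)) ⊤ μ :=
    memLp_finsetSum _ fun j _ => hf.comp_measurePreserving (zpow_mp h1 h2 (j : ℤ))
  exact h3.const_mul _

/-- the pointwise ergodic theorem for powers of an invertible map -/
theorem birk_range [IsProbabilityMeasure μ] {σ : Equiv.Perm X} (h1 : Measurable σ.symm)
    (h2 : MeasurePreserving σ μ μ) {f : X → ℝ} (hf : MemLp f ⊤ μ) (a : ℤ) :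
    ∀ᵐ x ∂μ, ∃ b : ℝ, Tendsto (fun N : ℕ => (N : ℝ)⁻¹ *
      ∑ n ∈ range N, f ((σ ^ (a * (n : ℤ))) x)) atTop (𝓝 b) := by
  obtain ⟨C, g, hC, hg, hfg, horb⟩ := linf_orbit (μ := μ) (ι := Unit) (T := fun _ => σ)
    (fun _ => h1) (fun _ => h2) (f := fun _ => f) fun _ => hf
  filter_upwards [BPE.birkhoff (zpow_mp h1 h2 a) (g ()) (hg ()).1 1 (hg ()).2, horb] with x hx1 hx2
  refine ⟨_, (hx1.const_mul (C ())).congr fun N => ?_⟩
  rw [mul_left_comm, mul_sum]
  congr 1
  refine sum_congr rfl fun n _ => ?_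
  rw [hx2 () (a * (n : ℤ))]
  congr 2
  rw [zpow_mul, zpow_natCast, Equiv.Perm.coe_pow]

theorem birk_nat [IsProbabilityMeasure μ] {σ : Equiv.Perm X} (h1 : Measurable σ.symm)
    (h2 : MeasurePreserving σ μ μ) {f : X → ℝ} (hf : MemLp f ⊤ μ) (a : ℤ) :
    ∀ᵐ x ∂μ, ∃ b : ℝ, Tendsto (fun N : ℕ => (N : ℝ)⁻¹ *
      ∑ n ∈ Icc 1 N, f ((σ ^ (a * (n : ℤ))) x)) atTop (𝓝 b) := by
  filter_upwards [birk_range h1 h2 (hf.comp_measurePreserving (zpow_mp h1 h2 a)) a] with x hx
  obtain ⟨b, hb⟩ := hx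
  refine ⟨b, hb.congr fun N => ?_⟩
  rw [← sum_shift fun n : ℕ => f ((σ ^ (a * (n : ℤ))) x)]
  congr 1
  refine sum_congr rfl fun n _ => ?_
  rw [Function.comp_apply, ← Equiv.Perm.mul_apply, ← zpow_add]
  congr 2
  push_cast
  ring_nf

theorem birk_int [IsProbabilityMeasure μ] {σ : Equiv.Perm X} (h1 : Measurable σ.symm)
    (h2 : MeasurePreserving σ μ μ) {f : X → ℝ} (hf : MemLp f ⊤ μ) (a : ℤ) :
    ∀ᵐ x ∂μ, ∃ b : ℝ, Tendsto (fun N : ℕ => ((2 * N + 1 : ℕ) : ℝ)⁻¹ *
      ∑ n ∈ Icc (-(N : ℤ)) (N : ℤ), f ((σ ^ (a * n)) x)) atTop (𝓝 b) := by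
  filter_upwards [birk_range h1 h2 hf a, birk_nat h1 h2 hf (-a)] with x hx1 hx2
  obtain ⟨b1, hb1⟩ := hx1
  obtain ⟨b2, hb2⟩ := hx2
  have e1 : Tendsto (fun N : ℕ => ((N + 1 : ℕ) : ℝ) / ((2 * N + 1 : ℕ) : ℝ)) atTop
      (𝓝 (1 / 2)) := by
    have h3 : Tendsto (fun N : ℕ => (1 / 2 : ℝ) + (1 / 4) / ((N : ℝ) + 1 / 2)) atTop
        (𝓝 (1 / 2 + 0)) := by
      refine tendsto_const_nhds.add ?_
      refine Tendsto.div_atTop tendsto_const_nhds ?_
      exact tendsto_atTop_add_const_right _ _ tendsto_natCast_atTop_atTop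
    rw [add_zero] at h3
    refine h3.congr fun N => ?_
    have h4 : (0 : ℝ) ≤ N := Nat.cast_nonneg _
    push_cast
    field_simp
    ring
  have e2 : Tendsto (fun N : ℕ => (N : ℝ) / ((2 * N + 1 : ℕ) : ℝ)) atTop (𝓝 (1 / 2)) := by
    have h3 : Tendsto (fun N : ℕ => (1 / 2 : ℝ) - (1 / 4) / ((N : ℝ) + 1 / 2)) atTop
        (𝓝 (1 / 2 - 0)) := by
      refine tendsto_const_nhds.sub ?_
      refine Tendsto.div_atTop tendsto_const_nhds ?_
      exact tendsto_atTop_add_const_right _ _ tendsto_natCast_atTop_atTop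
    rw [sub_zero] at h3
    refine h3.congr fun N => ?_
    have h4 : (0 : ℝ) ≤ N := Nat.cast_nonneg _
    push_cast
    field_simp
    ring
  refine ⟨1 / 2 * b1 + 1 / 2 * b2, ?_⟩
  have h3 := (e1.mul (hb1.comp (tendsto_add_atTop_nat 1))).add (e2.mul hb2)
  refine h3.congr' ?_
  filter_upwards [eventually_ge_atTop 1] with N hN
  have hN0 : (0 : ℝ) < N := by exact_mod_cast hN
  rw [sum_symm, mul_add]
  have e3 : ∑ k ∈ range N, f ((σ ^ (a * (-((k : ℤ) + 1)))) x) =
      ∑ n ∈ Icc 1 N, f ((σ ^ (-a * (n : ℤ))) x) := by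
    rw [← sum_shift fun n : ℕ => f ((σ ^ (-a * (n : ℤ))) x)]
    refine sum_congr rfl fun k _ => ?_
    congr 3
    push_cast
    ring
  rw [e3]
  simp only [Function.comp_apply]
  have e4 : (((N + 1 : ℕ) : ℝ)) ≠ 0 := by positivity
  have e5 : (N : ℝ) ≠ 0 := hN0.ne'
  congr 1
  · rw [div_mul_eq_mul_div, mul_inv_cancel_left₀ e4, div_eq_inv_mul]
  · rw [div_mul_eq_mul_div, mul_inv_cancel_left₀ e5, div_eq_inv_mul]

end general

variable {Ω : Type*} {mΩ : MeasurableSpace Ω}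

/-- the effect of independent displacements of the times -/
theorem thr_nat {m : ℕ} {P : Measure Ω} [IsProbabilityMeasure P] {θ : Fin m → ℕ → Ω → ℕ}
    {L : Fin m → ℕ → ℕ} (h : IsNoise P θ L)
    (hslow : ∀ q : ℕ, ∃ C : ℕ, ∀ i, ∀ n : ℕ, 1 ≤ n → L i n ^ q ≤ C * n)
    (J : Finset (Fin m)) (hJ : ∀ i ∈ J, Tendsto (L i) atTop atTop) (l : Fin m → ℕ)
    (hl : ∀ i ∉ J, ∀ n, L i n = l i) (a : Fin m → ℤ) (ha : ∀ i, a i ≠ 0) :
    ∀ᵐ ω ∂P, (∀ (X : Type) [MeasurableSpace X] (μ : Measure X) [IsProbabilityMeasure μ]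
      (T : Equiv.Perm X), Measurable T.symm → MeasurePreserving T μ μ →
      ∀ f : Fin m → X → ℝ, (∀ i, MemLp (f i) ⊤ μ) →
      ∀ᵐ x ∂μ, Tendsto (fun N : ℕ =>
        (N : ℝ)⁻¹ * (∑ n ∈ Icc 1 N,
          ∏ i, f i ((T ^ (a i * (n : ℤ) + (θ i n ω : ℤ))) x)) -
        (∏ i ∈ J, (μ[f i | MeasurableSpace.invariants (T)]) x) *
        ((N : ℝ)⁻¹ * ∑ n ∈ Icc 1 N,
          ∏ i ∈ Jᶜ, mn (T) (l i) (f i) ((T ^ (a i * (n : ℤ))) x))) atTop (𝓝 0)) ∧
      (ConvNat univ (fun i n => a i * (n : ℤ) + (θ i n ω : ℤ)) ↔ ConvNat Jᶜ fun i n => a i * (n : ℤ)) := by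
  classical
  filter_upwards [perm_nat.{0} h hslow J hJ] with ω hω0
  have hω : ∀ (X : Type) [MeasurableSpace X] (μ : Measure X) [IsProbabilityMeasure μ]
      (T : Equiv.Perm X), Measurable T.symm → MeasurePreserving T μ μ →
      ∀ f : Fin m → X → ℝ, (∀ i, MemLp (f i) ⊤ μ) →
      ∀ᵐ x ∂μ, Tendsto (fun N : ℕ =>
        (N : ℝ)⁻¹ * (∑ n ∈ Icc 1 N,
          ∏ i, f i ((T ^ (a i * (n : ℤ) + (θ i n ω : ℤ))) x)) -
        (∏ i ∈ J, (μ[f i | MeasurableSpace.invariants T]) x) *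
        ((N : ℝ)⁻¹ * ∑ n ∈ Icc 1 N,
          ∏ i ∈ Jᶜ, mn T (l i) (f i) ((T ^ (a i * (n : ℤ))) x))) atTop (𝓝 0) := by
    intro X _ μ _ T hm hp f hf
    filter_upwards [hω0 X μ (fun _ => T) (fun _ => hm) (fun _ => hp) (fun _ _ => rfl) a
      (fun i _ => ha i) f hf] with x hx
    refine hx.congr fun N => ?_
    congr 3
    refine sum_congr rfl fun n _ => prod_congr rfl fun i hi => ?_
    rw [mn_zpow, hl i (mem_compl.1 hi)]
  refine ⟨hω, ?_, ?_⟩
  · -- the displaced question implies the other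
    intro hQ
    have hsm : ∀ (X : Type) [MeasurableSpace X] (μ : Measure X) [IsProbabilityMeasure μ]
        (T : Equiv.Perm X), Measurable T.symm → MeasurePreserving T μ μ →
        ∀ f : Fin m → X → ℝ, (∀ i, MemLp (f i) ⊤ μ) → ∀ᵐ x ∂μ, ∃ b : ℝ, Tendsto (fun N : ℕ =>
        (N : ℝ)⁻¹ * ∑ n ∈ Icc 1 N,
          ∏ i ∈ Jᶜ, mn (T) (l i) (f i) ((T ^ (a i * (n : ℤ))) x)) atTop (𝓝 b) := by
      intro X _ μ _ T hm hp f hf
      set f' : Fin m → X → ℝ := fun i => if i ∈ J then fun _ => 1 else f i with hf'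
      have hf1 : ∀ i, MemLp (f' i) ⊤ μ := by
        intro i
        by_cases hi : i ∈ J
        · simp only [hf', hi, if_true]; exact memLp_const 1
        · simp only [hf', hi, if_false]; exact hf i
      have hexp : ∀ᵐ x ∂μ, ∀ i ∈ J, (μ[f' i | MeasurableSpace.invariants (T)]) x = 1 := by
        refine Eventually.of_forall fun x i hi => ?_
        have e : f' i = fun _ => (1 : ℝ) := by simp only [hf', hi, if_true]
        rw [e, condExp_const (MeasurableSpace.invariants_le _)]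
      filter_upwards [hω X μ T hm hp f' hf1, hQ X μ T hm hp f' hf1, hexp] with x hx1 hx2 hx3
      obtain ⟨b, hb⟩ := hx2
      refine ⟨b, ?_⟩
      have h3 := hb.sub hx1
      rw [sub_zero] at h3
      refine h3.congr fun N => ?_
      rw [prod_congr rfl hx3, prod_const_one, one_mul, sub_sub_cancel]
      congr 1
      refine sum_congr rfl fun n _ => prod_congr rfl fun i hi => ?_
      have e : f' i = f i := by simp only [hf', mem_compl.1 hi, if_false]
      rw [e]
    by_cases hS : ∃ i1 ∈ Jᶜ, ∃ i2 ∈ Jᶜ, i1 ≠ i2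
    · obtain ⟨i1, h1S, i2, h2S, h12⟩ := hS
      have hl1 : ∀ i, 1 ≤ (fun i => if i ∈ J then 1 else l i) i := by
        intro i
        by_cases hi : i ∈ J
        · simp [hi]
        · simp only [hi, if_false]
          have := h.pos i 1
          rwa [hl i hi] at this
      obtain ⟨q, hq, s, hiso⟩ := isolate a _ hl1 Jᶜ i1 i2 h1S h2S h12 (ha i1) (ha i2)
      intro X _ μ _ T hm hp f hf
      have h1 : ∀ c : ZMod q, ∀ᵐ x ∂μ, ∃ b : ℝ, Tendsto (fun N : ℕ => (N : ℝ)⁻¹ *
          ∑ n ∈ Icc 1 N, (if ((n : ℤ) : ZMod q) = c then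
            ∏ i ∈ Jᶜ, ((l i : ℝ)⁻¹ * f i ((T ^ (a i * (n : ℤ))) x)) else 0)) atTop (𝓝 b) := by
        intro c
        have hm' : Measurable (rotT q T).symm := rotT_symm_meas q hm
        have hp' : MeasurePreserving (rotT q T) (μ.prod (un q)) (μ.prod (un q)) := rotT_mp q hp
        set f' : Fin m → X × ZMod q → ℝ := fun i p => f i ((T ^ (-(s i))) p.1) *
          (if p.2 = (a i : ZMod q) * c + (s i : ZMod q) then 1 else 0) with hf'
        have hf1 : ∀ i, MemLp (f' i) ⊤ (μ.prod (un q)) := fun i =>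
          memLp_prod q ((hf i).comp_measurePreserving (zpow_mp hm hp (-(s i))))
            (fun z => if z = (a i : ZMod q) * c + (s i : ZMod q) then 1 else 0) fun z => by
              split_ifs <;> simp
        filter_upwards [fiber0 q (hsm (X × ZMod q) (μ.prod (un q)) (rotT q T) hm' hp' f'
          hf1)] with x hx
        obtain ⟨b, hb⟩ := hx
        refine ⟨b, hb.congr fun N => ?_⟩
        congr 1
        refine sum_congr rfl fun n _ => ?_
        have h3 := hiso c (n : ℤ) fun i k => f i ((T ^ (k - s i)) x)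
        simp only [add_sub_cancel_right] at h3
        have e1 : ∏ i ∈ Jᶜ, ((((if i ∈ J then 1 else l i : ℕ)) : ℝ)⁻¹ *
            f i ((T ^ (a i * (n : ℤ))) x)) =
            ∏ i ∈ Jᶜ, ((l i : ℝ)⁻¹ * f i ((T ^ (a i * (n : ℤ))) x)) :=
          prod_congr rfl fun i hi => by rw [if_neg (mem_compl.1 hi)]
        rw [e1] at h3
        rw [← h3]
        refine prod_congr rfl fun i hi => ?_
        rw [mn_zpow, if_neg (mem_compl.1 hi)]
        congr 1
        refine sum_congr rfl fun j _ => ?_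
        rw [rotT_zpow]
        simp only [hf', zero_add]
        rw [← Equiv.Perm.mul_apply, ← zpow_add, neg_add_eq_sub]
      filter_upwards [ae_all_iff.2 h1] with x hx
      choose b hb using hx
      refine ⟨(∏ i ∈ Jᶜ, (l i : ℝ)) * ∑ c, b c, ?_⟩
      have h2 := (tendsto_finsetSum (univ : Finset (ZMod q)) fun c _ => hb c).const_mul
        (∏ i ∈ Jᶜ, (l i : ℝ))
      refine h2.congr fun N => ?_
      rw [← mul_sum, sum_comm]
      simp only [sum_ite_eq, mem_univ, if_true, prod_mul_distrib]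
      rw [← mul_sum, prod_inv_distrib]
      have h3 : (∏ i ∈ Jᶜ, (l i : ℝ)) ≠ 0 := prod_ne_zero_iff.2 fun i hi => by
        have := h.pos i 1
        rw [hl i (mem_compl.1 hi)] at this
        positivity
      field_simp
    · push Not at hS
      intro X _ μ _ T hm hp f hf
      rcases Jᶜ.eq_empty_or_nonempty with hE | ⟨i0, hi0⟩
      · filter_upwards with x
        rw [hE]
        simp only [prod_empty]
        refine ⟨1, ?_⟩
        refine tendsto_const_nhds.congr' ?_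
        filter_upwards [eventually_ge_atTop 1] with N hN
        have hN0 : (0 : ℝ) < N := by exact_mod_cast hN
        rw [sum_const, nsmul_eq_mul, mul_one, Nat.card_Icc, Nat.add_sub_cancel]
        field_simp
      · have hE : Jᶜ = {i0} := by
          refine eq_singleton_iff_unique_mem.2 ⟨hi0, fun i hi => ?_⟩
          exact hS i hi i0 hi0
        rw [hE]
        simp only [prod_singleton]
        exact birk_nat (μ := μ) hm hp (hf i0) (a i0)
  · intro hP X _ μ _ T hm hp f hf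
    filter_upwards [hω X μ T hm hp f hf,
      hP X μ T hm hp (fun i => mn (T) (l i) (f i)) fun i => mn_memLp hm hp _ (hf i)]
      with x hx1 hx2
    obtain ⟨b, hb⟩ := hx2
    refine ⟨(∏ i ∈ J, (μ[f i | MeasurableSpace.invariants (T)]) x) * b, ?_⟩
    have h1 := hx1.add (hb.const_mul (∏ i ∈ J, (μ[f i | MeasurableSpace.invariants (T)]) x))
    rw [zero_add] at h1
    refine h1.congr fun N => ?_
    ring

/-- the effect of independent displacements of the times -/
theorem thr_int {m : ℕ} {P : Measure Ω} [IsProbabilityMeasure P] {θ : Fin m → ℤ → Ω → ℕ}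
    {L : Fin m → ℤ → ℕ} (h : IsNoise P θ L)
    (hslow : ∀ q : ℕ, ∃ C : ℕ, ∀ i, ∀ n : ℤ, L i n ^ q ≤ C * (n.natAbs + 1))
    (J : Finset (Fin m)) (hJ : ∀ i ∈ J, Tendsto (L i) cofinite atTop) (l : Fin m → ℕ)
    (hl : ∀ i ∉ J, ∀ n, L i n = l i) (a : Fin m → ℤ) (ha : ∀ i, a i ≠ 0) :
    ∀ᵐ ω ∂P, (∀ (X : Type) [MeasurableSpace X] (μ : Measure X) [IsProbabilityMeasure μ]
      (T : Fin m → Equiv.Perm X), (∀ i, Measurable (T i).symm) →
      (∀ i, MeasurePreserving (T i) μ μ) → (∀ i j, T i * T j = T j * T i) →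
      ∀ f : Fin m → X → ℝ, (∀ i, MemLp (f i) ⊤ μ) →
      ∀ᵐ x ∂μ, Tendsto (fun N : ℕ =>
        ((2 * N + 1 : ℕ) : ℝ)⁻¹ * (∑ n ∈ Icc (-(N : ℤ)) (N : ℤ),
          ∏ i, f i ((T i ^ (a i * n + (θ i n ω : ℤ))) x)) -
        (∏ i ∈ J, (μ[f i | MeasurableSpace.invariants (T i)]) x) *
        (((2 * N + 1 : ℕ) : ℝ)⁻¹ * ∑ n ∈ Icc (-(N : ℤ)) (N : ℤ),
          ∏ i ∈ Jᶜ, mn (T i) (l i) (f i) ((T i ^ (a i * n)) x))) atTop (𝓝 0)) ∧
      (ConvInt univ (fun i n => a i * n + (θ i n ω : ℤ)) ↔ ConvInt Jᶜ fun i n => a i * n) := by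
  classical
  filter_upwards [perm_int.{0} h hslow J hJ] with ω hω0
  have hω : ∀ (X : Type) [MeasurableSpace X] (μ : Measure X) [IsProbabilityMeasure μ]
      (T : Fin m → Equiv.Perm X), (∀ i, Measurable (T i).symm) →
      (∀ i, MeasurePreserving (T i) μ μ) → (∀ i j, T i * T j = T j * T i) →
      ∀ f : Fin m → X → ℝ, (∀ i, MemLp (f i) ⊤ μ) →
      ∀ᵐ x ∂μ, Tendsto (fun N : ℕ =>
        ((2 * N + 1 : ℕ) : ℝ)⁻¹ * (∑ n ∈ Icc (-(N : ℤ)) (N : ℤ),
          ∏ i, f i ((T i ^ (a i * n + (θ i n ω : ℤ))) x)) -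
        (∏ i ∈ J, (μ[f i | MeasurableSpace.invariants (T i)]) x) *
        (((2 * N + 1 : ℕ) : ℝ)⁻¹ * ∑ n ∈ Icc (-(N : ℤ)) (N : ℤ),
          ∏ i ∈ Jᶜ, mn (T i) (l i) (f i) ((T i ^ (a i * n)) x))) atTop (𝓝 0) := by
    intro X _ μ _ T hm hp hc f hf
    filter_upwards [hω0 X μ T hm hp hc a (fun i _ => ha i) f hf] with x hx
    refine hx.congr fun N => ?_
    congr 3
    refine sum_congr rfl fun n _ => prod_congr rfl fun i hi => ?_
    rw [mn_zpow, hl i (mem_compl.1 hi)]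
  refine ⟨hω, ?_, ?_⟩
  · -- the displaced question implies the other
    intro hQ
    have hsm : ∀ (X : Type) [MeasurableSpace X] (μ : Measure X) [IsProbabilityMeasure μ]
        (T : Fin m → Equiv.Perm X), (∀ i, Measurable (T i).symm) →
        (∀ i, MeasurePreserving (T i) μ μ) → (∀ i j, T i * T j = T j * T i) →
        ∀ f : Fin m → X → ℝ, (∀ i, MemLp (f i) ⊤ μ) → ∀ᵐ x ∂μ, ∃ b : ℝ, Tendsto (fun N : ℕ =>
        ((2 * N + 1 : ℕ) : ℝ)⁻¹ * ∑ n ∈ Icc (-(N : ℤ)) (N : ℤ),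
          ∏ i ∈ Jᶜ, mn (T i) (l i) (f i) ((T i ^ (a i * n)) x)) atTop (𝓝 b) := by
      intro X _ μ _ T hm hp hc f hf
      set f' : Fin m → X → ℝ := fun i => if i ∈ J then fun _ => 1 else f i with hf'
      have hf1 : ∀ i, MemLp (f' i) ⊤ μ := by
        intro i
        by_cases hi : i ∈ J
        · simp only [hf', hi, if_true]; exact memLp_const 1
        · simp only [hf', hi, if_false]; exact hf i
      have hexp : ∀ᵐ x ∂μ, ∀ i ∈ J, (μ[f' i | MeasurableSpace.invariants (T i)]) x = 1 := by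
        refine Eventually.of_forall fun x i hi => ?_
        have e : f' i = fun _ => (1 : ℝ) := by simp only [hf', hi, if_true]
        rw [e, condExp_const (MeasurableSpace.invariants_le _)]
      filter_upwards [hω X μ T hm hp hc f' hf1, hQ X μ T hm hp hc f' hf1, hexp] with x hx1 hx2 hx3
      obtain ⟨b, hb⟩ := hx2
      refine ⟨b, ?_⟩
      have h3 := hb.sub hx1
      rw [sub_zero] at h3
      refine h3.congr fun N => ?_
      rw [prod_congr rfl hx3, prod_const_one, one_mul, sub_sub_cancel]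
      congr 1
      refine sum_congr rfl fun n _ => prod_congr rfl fun i hi => ?_
      have e : f' i = f i := by simp only [hf', mem_compl.1 hi, if_false]
      rw [e]
    by_cases hS : ∃ i1 ∈ Jᶜ, ∃ i2 ∈ Jᶜ, i1 ≠ i2
    · obtain ⟨i1, h1S, i2, h2S, h12⟩ := hS
      have hl1 : ∀ i, 1 ≤ (fun i => if i ∈ J then 1 else l i) i := by
        intro i
        by_cases hi : i ∈ J
        · simp [hi]
        · simp only [hi, if_false]
          have := h.pos i 0
          rwa [hl i hi] at this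
      obtain ⟨q, hq, s, hiso⟩ := isolate a _ hl1 Jᶜ i1 i2 h1S h2S h12 (ha i1) (ha i2)
      intro X _ μ _ T hm hp hc f hf
      have h1 : ∀ c : ZMod q, ∀ᵐ x ∂μ, ∃ b : ℝ, Tendsto (fun N : ℕ => ((2 * N + 1 : ℕ) : ℝ)⁻¹ *
          ∑ n ∈ Icc (-(N : ℤ)) (N : ℤ), (if (n : ZMod q) = c then
            ∏ i ∈ Jᶜ, ((l i : ℝ)⁻¹ * f i ((T i ^ (a i * n)) x)) else 0)) atTop (𝓝 b) := by
        intro c
        have hm' : ∀ i, Measurable (rotT q (T i)).symm := fun i => rotT_symm_meas q (hm i)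
        have hp' : ∀ i, MeasurePreserving (rotT q (T i)) (μ.prod (un q)) (μ.prod (un q)) :=
          fun i => rotT_mp q (hp i)
        have hc' : ∀ i j, rotT q (T i) * rotT q (T j) = rotT q (T j) * rotT q (T i) :=
          fun i j => rotT_comm q (hc i j)
        set f' : Fin m → X × ZMod q → ℝ := fun i p => f i ((T i ^ (-(s i))) p.1) *
          (if p.2 = (a i : ZMod q) * c + (s i : ZMod q) then 1 else 0) with hf'
        have hf1 : ∀ i, MemLp (f' i) ⊤ (μ.prod (un q)) := fun i =>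
          memLp_prod q ((hf i).comp_measurePreserving (zpow_mp (hm i) (hp i) (-(s i))))
            (fun z => if z = (a i : ZMod q) * c + (s i : ZMod q) then 1 else 0) fun z => by
              split_ifs <;> simp
        filter_upwards [fiber0 q (hsm (X × ZMod q) (μ.prod (un q)) (fun i => rotT q (T i)) hm' hp' hc' f'
          hf1)] with x hx
        obtain ⟨b, hb⟩ := hx
        refine ⟨b, hb.congr fun N => ?_⟩
        congr 1
        refine sum_congr rfl fun n _ => ?_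
        have h3 := hiso c n fun i k => f i ((T i ^ (k - s i)) x)
        simp only [add_sub_cancel_right] at h3
        have e1 : ∏ i ∈ Jᶜ, ((((if i ∈ J then 1 else l i : ℕ)) : ℝ)⁻¹ *
            f i ((T i ^ (a i * n)) x)) =
            ∏ i ∈ Jᶜ, ((l i : ℝ)⁻¹ * f i ((T i ^ (a i * n)) x)) :=
          prod_congr rfl fun i hi => by rw [if_neg (mem_compl.1 hi)]
        rw [e1] at h3
        rw [← h3]
        refine prod_congr rfl fun i hi => ?_
        rw [mn_zpow, if_neg (mem_compl.1 hi)]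
        congr 1
        refine sum_congr rfl fun j _ => ?_
        rw [rotT_zpow]
        simp only [hf', zero_add]
        rw [← Equiv.Perm.mul_apply, ← zpow_add, neg_add_eq_sub]
      filter_upwards [ae_all_iff.2 h1] with x hx
      choose b hb using hx
      refine ⟨(∏ i ∈ Jᶜ, (l i : ℝ)) * ∑ c, b c, ?_⟩
      have h2 := (tendsto_finsetSum (univ : Finset (ZMod q)) fun c _ => hb c).const_mul
        (∏ i ∈ Jᶜ, (l i : ℝ))
      refine h2.congr fun N => ?_
      rw [← mul_sum, sum_comm]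
      simp only [sum_ite_eq, mem_univ, if_true, prod_mul_distrib]
      rw [← mul_sum, prod_inv_distrib]
      have h3 : (∏ i ∈ Jᶜ, (l i : ℝ)) ≠ 0 := prod_ne_zero_iff.2 fun i hi => by
        have := h.pos i 0
        rw [hl i (mem_compl.1 hi)] at this
        positivity
      field_simp
    · push Not at hS
      intro X _ μ _ T hm hp hc f hf
      rcases Jᶜ.eq_empty_or_nonempty with hE | ⟨i0, hi0⟩
      · filter_upwards with x
        rw [hE]
        simp only [prod_empty]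
        refine ⟨1, ?_⟩
        refine tendsto_const_nhds.congr' ?_
        filter_upwards [eventually_ge_atTop 1] with N hN
        have hN0 : (0 : ℝ) < N := by exact_mod_cast hN
        rw [sum_const, nsmul_eq_mul, mul_one, card_int]
        field_simp
      · have hE : Jᶜ = {i0} := by
          refine eq_singleton_iff_unique_mem.2 ⟨hi0, fun i hi => ?_⟩
          exact hS i hi i0 hi0
        rw [hE]
        simp only [prod_singleton]
        exact birk_int (μ := μ) (hm i0) (hp i0) (hf i0) (a i0)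
  · intro hP X _ μ _ T hm hp hc f hf
    filter_upwards [hω X μ T hm hp hc f hf,
      hP X μ T hm hp hc (fun i => mn (T i) (l i) (f i)) fun i => mn_memLp (hm i) (hp i) _ (hf i)]
      with x hx1 hx2
    obtain ⟨b, hb⟩ := hx2
    refine ⟨(∏ i ∈ J, (μ[f i | MeasurableSpace.invariants (T i)]) x) * b, ?_⟩
    have h1 := hx1.add (hb.const_mul (∏ i ∈ J, (μ[f i | MeasurableSpace.invariants (T i)]) x))
    rw [zero_add] at h1
    refine h1.congr fun N => ?_
    ring

end Pool.Agent.Q83.NT
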