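import Pool.Agent.Q83.NT.Thr

/-!
# Displaced times in several parameters
-/

set_option autoImplicit false

namespace Pool.Agent.Q83.NT

open MeasureTheory ProbabilityTheory Finset Filter Topology
open scoped Pointwise ENNReal

/-- the windows single out one class of times, if the times satisfy a linear relation -/
theorem isolate_rel {m : ℕ} {𝒯 : Type*} (lam : Fin m → 𝒯 → ℤ) (l : Fin m → ℕ) (hl : ∀ i, 1 ≤ l i)
    (S : Finset (Fin m)) (r : Fin m → ℤ) (hr : ∀ i ∈ S, r i ≠ 0)
    (hrel : ∀ t, ∑ i ∈ S, r i * lam i t = 0) :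
    ∃ (q : ℕ) (_ : NeZero q) (s : Fin m → ℤ), ∀ (t0 t : 𝒯) (G : Fin m → ℤ → ℝ),
      ∏ i ∈ S, ((l i : ℝ)⁻¹ * ∑ j ∈ range (l i), G i (lam i t + (j : ℤ)) *
        (if ((lam i t + (j : ℤ) : ℤ) : ZMod q) = ((lam i t0 + s i : ℤ) : ZMod q) then 1 else 0))
      = if (fun i : S => ((lam i t : ℤ) : ZMod q)) = (fun i : S => ((lam i t0 : ℤ) : ZMod q)) then
        ∏ i ∈ S, ((l i : ℝ)⁻¹ * G i (lam i t + s i)) else 0 := by
  classical
  set q : ℕ := ∑ i, l i + ∑ i ∈ S, (r i).natAbs * l i + 1 with hq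
  have hq0 : NeZero q := ⟨by omega⟩
  set s : Fin m → ℤ := fun i => if 0 < r i then (l i : ℤ) - 1 else 0 with hs
  have hs1 : ∀ i, 0 ≤ s i ∧ s i < l i := by
    intro i
    have h1 := hl i
    by_cases h : 0 < r i
    · have e : s i = (l i : ℤ) - 1 := by simp only [hs]; rw [if_pos h]
      rw [e]
      omega
    · have e : s i = 0 := by simp only [hs]; rw [if_neg h]
      rw [e]
      omega
  have hlq : ∀ i, l i < q := by
    intro i
    have h1 : l i ≤ ∑ i, l i := single_le_sum (f := l) (fun _ _ => Nat.zero_le _) (mem_univ i)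
    omega
  refine ⟨q, hq0, s, fun t0 t G => ?_⟩
  split_ifs with hn
  · refine prod_congr rfl fun i hi => ?_
    have hni : ((lam i t : ℤ) : ZMod q) = ((lam i t0 : ℤ) : ZMod q) := congrFun hn ⟨i, hi⟩
    congr 1
    have h1 := hs1 i
    rw [sum_eq_single (s i).toNat]
    · have h2 : (((s i).toNat : ℕ) : ℤ) = s i := Int.toNat_of_nonneg h1.1
      rw [h2, if_pos, mul_one]
      push_cast
      rw [hni]
    · intro j hj hne
      rw [mem_range] at hj
      rw [if_neg, mul_zero]
      intro hcon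
      push_cast at hcon
      rw [hni, add_right_inj] at hcon
      have h3 : (((j : ℤ) - s i : ℤ) : ZMod q) = 0 := by
        push_cast
        rw [hcon, sub_self]
      have h4 := hlq i
      have h5 := cast_zero q (by rw [abs_lt]; omega) h3
      omega
    · intro hcon
      exfalso
      apply hcon
      rw [mem_range]
      omega
  · by_contra hcon
    rw [← ne_eq, prod_ne_zero_iff] at hcon
    have key : ∀ i ∈ S, ∃ j : ℕ, j < l i ∧
        ((lam i t + (j : ℤ) : ℤ) : ZMod q) = ((lam i t0 + s i : ℤ) : ZMod q) := by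
      intro i hiS
      have h1 := right_ne_zero_of_mul (hcon i hiS)
      obtain ⟨j, hj, h2⟩ := exists_ne_zero_of_sum_ne_zero h1
      rw [mem_range] at hj
      refine ⟨j, hj, ?_⟩
      have h3 := right_ne_zero_of_mul h2
      by_contra h5
      exact h3 (if_neg h5)
    choose! j hj1 hj2 using key
    have hterm : ∀ i ∈ S, r i * ((j i : ℤ) - s i) ≤ 0 ∧
        -(((r i).natAbs * l i : ℕ) : ℤ) ≤ r i * ((j i : ℤ) - s i) := by
      intro i hi
      have h1 := hj1 i hi
      have h2 := hs1 i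
      constructor
      · rcases lt_or_gt_of_ne (hr i hi) with h | h
        · have e : s i = 0 := by simp only [hs]; rw [if_neg (by omega)]
          rw [e]
          exact mul_nonpos_of_nonpos_of_nonneg h.le (by omega)
        · have e : s i = (l i : ℤ) - 1 := by simp only [hs]; rw [if_pos h]
          rw [e]
          exact mul_nonpos_of_nonneg_of_nonpos h.le (by omega)
      · have h3 : |r i * ((j i : ℤ) - s i)| ≤ (((r i).natAbs * l i : ℕ) : ℤ) := by
          rw [abs_mul, Int.abs_eq_natAbs]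
          push_cast
          refine mul_le_mul_of_nonneg_left ?_ (abs_nonneg _)
          rw [abs_le]
          omega
        exact (abs_le.1 h3).1
    have hsum0 : ((∑ i ∈ S, r i * ((j i : ℤ) - s i) : ℤ) : ZMod q) = 0 := by
      have e1 : ((∑ i ∈ S, r i * ((j i : ℤ) - s i) : ℤ) : ZMod q) =
          ((∑ i ∈ S, r i * (lam i t0) - ∑ i ∈ S, r i * lam i t : ℤ) : ZMod q) := by
        rw [← sum_sub_distrib]
        push_cast
        refine sum_congr rfl fun i hi => ?_
        have h1 := hj2 i hi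
        push_cast at h1
        linear_combination (r i : ZMod q) * h1
      rw [e1, hrel, hrel]
      simp
    have hb1 : ∑ i ∈ S, r i * ((j i : ℤ) - s i) ≤ 0 := sum_nonpos fun i hi => (hterm i hi).1
    have hb2 : -((∑ i ∈ S, (r i).natAbs * l i : ℕ) : ℤ) ≤ ∑ i ∈ S, r i * ((j i : ℤ) - s i) := by
      rw [Nat.cast_sum, ← sum_neg_distrib]
      exact sum_le_sum fun i hi => (hterm i hi).2
    have hz : ∑ i ∈ S, r i * ((j i : ℤ) - s i) = 0 := by
      refine cast_zero q ?_ hsum0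
      rw [abs_lt]
      have h10 : ((∑ i ∈ S, (r i).natAbs * l i : ℕ) : ℤ) < (q : ℤ) := by
        exact_mod_cast (by omega : ∑ i ∈ S, (r i).natAbs * l i < q)
      constructor
      · linarith
      · have : (0 : ℤ) < q := by
          have : 0 < q := by omega
          exact_mod_cast this
        linarith
    apply hn
    funext ⟨i, hi⟩
    have h1 := (sum_eq_zero_iff_of_nonpos fun i hi => (hterm i hi).1).1 hz i hi
    have h2 : (j i : ℤ) - s i = 0 := (mul_eq_zero.1 h1).resolve_left (hr i hi)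
    have h3 := hj2 i hi
    have h4 : (j i : ℤ) = s i := by linarith
    rw [h4] at h3
    push_cast at h3
    exact add_right_cancel h3

variable {Ω : Type*} {mΩ : MeasurableSpace Ω}

/-- the effect of independent displacements of the times, several parameters -/
theorem thr_box {k m : ℕ} (hk : 1 ≤ k) {P : Measure Ω} [IsProbabilityMeasure P]
    {θ : Fin m → (Fin k → ℕ) → Ω → ℕ} {L : Fin m → (Fin k → ℕ) → ℕ} (h : IsNoise P θ L)
    (hslow : ∀ q : ℕ, ∃ C : ℕ, ∀ i, ∀ t : Fin k → ℕ, (∀ r, 1 ≤ t r) → L i t ^ q ≤ C * ∏ r, t r)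
    (J : Finset (Fin m)) (hJ : ∀ i ∈ J, Tendsto (L i) atTop atTop) (l : Fin m → ℕ)
    (hl : ∀ i ∉ J, ∀ t, L i t = l i) (c : Fin m → Fin k → ℤ) (hc0 : ∀ i ∈ J, c i ≠ 0) :
    ∀ᵐ ω ∂P, (∀ (X : Type) [MeasurableSpace X] (μ : Measure X) [IsProbabilityMeasure μ]
      (T : Fin m → Equiv.Perm X), (∀ i, Measurable (T i).symm) →
      (∀ i, MeasurePreserving (T i) μ μ) → (∀ i j, T i * T j = T j * T i) →
      ∀ f : Fin m → X → ℝ, (∀ i, MemLp (f i) ⊤ μ) →
      ∀ᵐ x ∂μ, Tendsto (fun M : Fin k → ℕ =>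
        (∏ r, (M r : ℝ))⁻¹ * (∑ t ∈ Fintype.piFinset (fun r => Icc 1 (M r)),
          ∏ i, f i ((T i ^ (∑ r, c i r * (t r : ℤ) + (θ i t ω : ℤ))) x)) -
        (∏ i ∈ J, (μ[f i | MeasurableSpace.invariants (T i)]) x) *
        ((∏ r, (M r : ℝ))⁻¹ * ∑ t ∈ Fintype.piFinset (fun r => Icc 1 (M r)),
          ∏ i ∈ Jᶜ, mn (T i) (l i) (f i) ((T i ^ (∑ r, c i r * (t r : ℤ))) x))) atTop (𝓝 0)) ∧
      ((∃ r : Fin m → ℤ, (∀ i ∈ Jᶜ, r i ≠ 0) ∧ ∀ j, ∑ i ∈ Jᶜ, r i * c i j = 0) →
        (ConvBox univ (fun i t => ∑ r, c i r * (t r : ℤ) + (θ i t ω : ℤ)) ↔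
          ConvBox Jᶜ fun i (t : Fin k → ℕ) => ∑ r, c i r * (t r : ℤ))) := by
  classical
  filter_upwards [perm_box.{0} hk h hslow J hJ] with ω hω0
  have hω : ∀ (X : Type) [MeasurableSpace X] (μ : Measure X) [IsProbabilityMeasure μ]
      (T : Fin m → Equiv.Perm X), (∀ i, Measurable (T i).symm) →
      (∀ i, MeasurePreserving (T i) μ μ) → (∀ i j, T i * T j = T j * T i) →
      ∀ f : Fin m → X → ℝ, (∀ i, MemLp (f i) ⊤ μ) →
      ∀ᵐ x ∂μ, Tendsto (fun M : Fin k → ℕ =>
        (∏ r, (M r : ℝ))⁻¹ * (∑ t ∈ Fintype.piFinset (fun r => Icc 1 (M r)),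
          ∏ i, f i ((T i ^ (∑ r, c i r * (t r : ℤ) + (θ i t ω : ℤ))) x)) -
        (∏ i ∈ J, (μ[f i | MeasurableSpace.invariants (T i)]) x) *
        ((∏ r, (M r : ℝ))⁻¹ * ∑ t ∈ Fintype.piFinset (fun r => Icc 1 (M r)),
          ∏ i ∈ Jᶜ, mn (T i) (l i) (f i) ((T i ^ (∑ r, c i r * (t r : ℤ))) x))) atTop (𝓝 0) := by
    intro X _ μ _ T hm hp hc f hf
    filter_upwards [hω0 X μ T hm hp hc c hc0 f hf] with x hx
    refine hx.congr fun M => ?_
    congr 3
    refine sum_congr rfl fun n _ => prod_congr rfl fun i hi => ?_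
    rw [mn_zpow, hl i (mem_compl.1 hi)]
  refine ⟨hω, ?_⟩
  rintro ⟨r, hr, hrel⟩
  constructor
  · intro hQ
    have hsm : ∀ (X : Type) [MeasurableSpace X] (μ : Measure X) [IsProbabilityMeasure μ]
        (T : Fin m → Equiv.Perm X), (∀ i, Measurable (T i).symm) →
        (∀ i, MeasurePreserving (T i) μ μ) → (∀ i j, T i * T j = T j * T i) →
        ∀ f : Fin m → X → ℝ, (∀ i, MemLp (f i) ⊤ μ) → ∀ᵐ x ∂μ, ∃ b : ℝ,
        Tendsto (fun M : Fin k → ℕ => (∏ r, (M r : ℝ))⁻¹ *
          ∑ t ∈ Fintype.piFinset (fun r => Icc 1 (M r)),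
          ∏ i ∈ Jᶜ, mn (T i) (l i) (f i) ((T i ^ (∑ r, c i r * (t r : ℤ))) x)) atTop (𝓝 b) := by
      intro X _ μ _ T hm hp hc f hf
      set f' : Fin m → X → ℝ := fun i => if i ∈ J then fun _ => 1 else f i with hf'
      have hf1 : ∀ i, MemLp (f' i) ⊤ μ := by
        intro i
        by_cases hi : i ∈ J
        · simp only [hf', hi, if_true]; exact memLp_const 1
        · simp only [hf', hi, if_false]; exact hf i
      have hexp : ∀ᵐ x ∂μ, ∀ i ∈ J, (μ[f' i | MeasurableSpace.invariants (T i)]) x = 1 := by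
        refine Eventually.of_forall fun x i hi => ?_
        have e : f' i = fun _ => (1 : ℝ) := by simp only [hf', hi, if_true]
        rw [e, condExp_const (MeasurableSpace.invariants_le _)]
      filter_upwards [hω X μ T hm hp hc f' hf1, hQ X μ T hm hp hc f' hf1, hexp] with x hx1 hx2 hx3
      obtain ⟨b, hb⟩ := hx2
      refine ⟨b, ?_⟩
      have h3 := hb.sub hx1
      rw [sub_zero] at h3
      refine h3.congr fun N => ?_
      rw [prod_congr rfl hx3, prod_const_one, one_mul, sub_sub_cancel]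
      congr 1
      refine sum_congr rfl fun n _ => prod_congr rfl fun i hi => ?_
      have e : f' i = f i := by simp only [hf', mem_compl.1 hi, if_false]
      rw [e]
    have hl1 : ∀ i, 1 ≤ (fun i => if i ∈ J then 1 else l i) i := by
      intro i
      by_cases hi : i ∈ J
      · simp [hi]
      · simp only [hi, if_false]
        have := h.pos i (fun _ => 0)
        rwa [hl i hi] at this
    obtain ⟨q, hq, s, hiso⟩ := isolate_rel (𝒯 := Fin k → ℕ)
      (fun i t => ∑ r, c i r * (t r : ℤ)) _ hl1 Jᶜ r hr (fun t => by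
        simp_rw [mul_sum]
        rw [sum_comm]
        refine sum_eq_zero fun j _ => ?_
        have h5 := hrel j
        calc ∑ i ∈ Jᶜ, r i * (c i j * (t j : ℤ)) = (∑ i ∈ Jᶜ, r i * c i j) * (t j : ℤ) := by
              rw [sum_mul]
              exact sum_congr rfl fun i _ => by ring
          _ = 0 := by rw [h5, zero_mul])
    intro X _ μ _ T hm hp hc f hf
    have h1 : ∀ κ : (Jᶜ : Finset (Fin m)) → ZMod q, ∀ᵐ x ∂μ, ∃ b : ℝ,
        Tendsto (fun M : Fin k → ℕ => (∏ r, (M r : ℝ))⁻¹ *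
        ∑ t ∈ Fintype.piFinset (fun r => Icc 1 (M r)),
          (if (fun i : (Jᶜ : Finset (Fin m)) => ((∑ r, c i r * (t r : ℤ) : ℤ) : ZMod q)) = κ then
          ∏ i ∈ Jᶜ, ((l i : ℝ)⁻¹ * f i ((T i ^ (∑ r, c i r * (t r : ℤ))) x)) else 0)) atTop
          (𝓝 b) := by
      intro κ
      by_cases hκ : ∃ t0 : Fin k → ℕ,
        (fun i : (Jᶜ : Finset (Fin m)) => ((∑ r, c i r * (t0 r : ℤ) : ℤ) : ZMod q)) = κ
      · obtain ⟨t0, rfl⟩ := hκ
        have hm' : ∀ i, Measurable (rotT q (T i)).symm := fun i => rotT_symm_meas q (hm i)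
        have hp' : ∀ i, MeasurePreserving (rotT q (T i)) (μ.prod (un q)) (μ.prod (un q)) :=
          fun i => rotT_mp q (hp i)
        have hc' : ∀ i j, rotT q (T i) * rotT q (T j) = rotT q (T j) * rotT q (T i) :=
          fun i j => rotT_comm q (hc i j)
        set f' : Fin m → X × ZMod q → ℝ := fun i p => f i ((T i ^ (-(s i))) p.1) *
          (if p.2 = ((∑ r, c i r * (t0 r : ℤ) + s i : ℤ) : ZMod q) then 1 else 0) with hf'
        have hf1 : ∀ i, MemLp (f' i) ⊤ (μ.prod (un q)) := fun i =>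
          memLp_prod q ((hf i).comp_measurePreserving (zpow_mp (hm i) (hp i) (-(s i))))
            (fun z => if z = ((∑ r, c i r * (t0 r : ℤ) + s i : ℤ) : ZMod q) then 1 else 0)
            fun z => by split_ifs <;> simp
        filter_upwards [fiber0 q (hsm (X × ZMod q) (μ.prod (un q)) (fun i => rotT q (T i)) hm'
          hp' hc' f' hf1)] with x hx
        obtain ⟨b, hb⟩ := hx
        refine ⟨b, hb.congr fun N => ?_⟩
        congr 1
        refine sum_congr rfl fun t _ => ?_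
        have h3 := hiso t0 t fun i k => f i ((T i ^ (k - s i)) x)
        simp only [add_sub_cancel_right] at h3
        have e1 : ∏ i ∈ Jᶜ, ((((if i ∈ J then 1 else l i : ℕ)) : ℝ)⁻¹ *
            f i ((T i ^ (∑ r, c i r * (t r : ℤ))) x)) =
            ∏ i ∈ Jᶜ, ((l i : ℝ)⁻¹ * f i ((T i ^ (∑ r, c i r * (t r : ℤ))) x)) :=
          prod_congr rfl fun i hi => by rw [if_neg (mem_compl.1 hi)]
        rw [e1] at h3
        rw [← h3]
        refine prod_congr rfl fun i hi => ?_
        rw [mn_zpow, if_neg (mem_compl.1 hi)]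
        congr 1
        refine sum_congr rfl fun j _ => ?_
        rw [rotT_zpow]
        simp only [hf', zero_add]
        rw [← Equiv.Perm.mul_apply, ← zpow_add, neg_add_eq_sub]
      · push Not at hκ
        filter_upwards with x
        refine ⟨0, ?_⟩
        have e : ∀ M : Fin k → ℕ, (∏ r, (M r : ℝ))⁻¹ *
            ∑ t ∈ Fintype.piFinset (fun r => Icc 1 (M r)),
            (if (fun i : (Jᶜ : Finset (Fin m)) => ((∑ r, c i r * (t r : ℤ) : ℤ) : ZMod q)) = κ
            then ∏ i ∈ Jᶜ, ((l i : ℝ)⁻¹ * f i ((T i ^ (∑ r, c i r * (t r : ℤ))) x)) else 0) =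
            0 := by
          intro M
          rw [sum_eq_zero fun t _ => if_neg (hκ t), mul_zero]
        simp_rw [e]
        exact tendsto_const_nhds
    filter_upwards [ae_all_iff.2 h1] with x hx
    choose b hb using hx
    refine ⟨(∏ i ∈ Jᶜ, (l i : ℝ)) * ∑ κ, b κ, ?_⟩
    have h2 := (tendsto_finsetSum (univ : Finset ((Jᶜ : Finset (Fin m)) → ZMod q))
      fun κ _ => hb κ).const_mul (∏ i ∈ Jᶜ, (l i : ℝ))
    refine h2.congr fun N => ?_
    rw [← mul_sum, sum_comm]
    simp only [sum_ite_eq, mem_univ, if_true, prod_mul_distrib]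
    rw [← mul_sum, prod_inv_distrib]
    have h3 : (∏ i ∈ Jᶜ, (l i : ℝ)) ≠ 0 := prod_ne_zero_iff.2 fun i hi => by
      have := h.pos i (fun _ => 0)
      rw [hl i (mem_compl.1 hi)] at this
      positivity
    field_simp
  · intro hP X _ μ _ T hm hp hc f hf
    filter_upwards [hω X μ T hm hp hc f hf,
      hP X μ T hm hp hc (fun i => mn (T i) (l i) (f i)) fun i => mn_memLp (hm i) (hp i) _ (hf i)]
      with x hx1 hx2
    obtain ⟨b, hb⟩ := hx2
    refine ⟨(∏ i ∈ J, (μ[f i | MeasurableSpace.invariants (T i)]) x) * b, ?_⟩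
    have h1 := hx1.add (hb.const_mul (∏ i ∈ J, (μ[f i | MeasurableSpace.invariants (T i)]) x))
    rw [zero_add] at h1
    refine h1.congr fun N => ?_
    ring

end Pool.Agent.Q83.NT
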