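import Pool.Agent.Q83.NT.Avg

/-!
# Intervals and boxes of times
-/

set_option autoImplicit false

namespace Pool.Agent.Q83.NT

open MeasureTheory ProbabilityTheory Finset Filter Topology
open scoped Pointwise ENNReal

universe u w

theorem sup_pow_le {ι : Type*} (s : Finset ι) (f : ι → ℕ) (q X : ℕ) (h : ∀ b ∈ s, f b ^ q ≤ X)
    (hX : 1 ≤ X) : s.sup f ^ q ≤ X := by
  rcases s.eq_empty_or_nonempty with h1 | h1
  · subst h1
    simp only [sup_empty, Nat.bot_eq_zero]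
    rcases Nat.eq_zero_or_pos q with h2 | h2
    · subst h2; simpa using hX
    · rw [zero_pow (by omega)]; exact Nat.zero_le _
  · obtain ⟨b, hb, e⟩ := s.exists_mem_eq_sup h1 f
    rw [e]
    exact h b hb

theorem slow_sum {J : Type*} (m : ℕ) (n N K : J → ℕ) (C : ℕ) (hC : 1 ≤ C) (hn : ∀ j, 1 ≤ n j)
    (hN : ∀ j, n j ^ (4 * 2 ^ m) ≤ N j)
    (hK : ∀ j, K j ^ (2 * m * (4 * 2 ^ m)) ≤ C * n j ^ (4 * 2 ^ m))
    (hs : Summable fun j => ((n j : ℝ) ^ 3)⁻¹) :
    Summable fun j => ((K j : ℝ) ^ m) ^ 2 * ((N j : ℕ) : ℝ) ^ (-(1 / 2 : ℝ) ^ m) := by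
  have hp : (4 * 2 ^ m : ℕ) ≠ 0 := by positivity
  refine Summable.of_nonneg_of_le (fun j => by positivity) (fun j => ?_) (hs.mul_left (C : ℝ))
  have hnj : (0 : ℝ) < n j := by exact_mod_cast hn j
  have h1 : K j ^ (2 * m) ≤ C * n j := by
    have h2 : (K j ^ (2 * m)) ^ (4 * 2 ^ m) ≤ (C * n j) ^ (4 * 2 ^ m) := by
      rw [← pow_mul, mul_pow]
      exact (hK j).trans (Nat.mul_le_mul_right _ (Nat.le_self_pow hp C))
    exact (Nat.pow_le_pow_iff_left hp).1 h2
  have h3 : ((K j : ℝ) ^ m) ^ 2 ≤ C * n j := by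
    rw [← pow_mul, mul_comm m 2]
    exact_mod_cast h1
  have h4 : ((N j : ℕ) : ℝ) ^ (-(1 / 2 : ℝ) ^ m) ≤ ((n j : ℝ) ^ 4)⁻¹ := by
    have h5 : ((n j : ℝ)) ^ (4 * 2 ^ m) ≤ (N j : ℝ) := by exact_mod_cast hN j
    have h6 : (-(1 / 2 : ℝ) ^ m) ≤ 0 := by
      have : (0 : ℝ) < (1 / 2 : ℝ) ^ m := by positivity
      linarith
    have h7 := Real.rpow_le_rpow_of_nonpos (by positivity) h5 h6
    refine h7.trans (le_of_eq ?_)
    rw [Real.rpow_neg (by positivity), ← Real.rpow_natCast (n j : ℝ) (4 * 2 ^ m),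
      ← Real.rpow_mul hnj.le]
    have h8 : ((4 * 2 ^ m : ℕ) : ℝ) * (1 / 2) ^ m = (4 : ℕ) := by
      push_cast
      rw [mul_assoc, ← mul_pow]
      norm_num
    rw [h8, Real.rpow_natCast]
  calc ((K j : ℝ) ^ m) ^ 2 * ((N j : ℕ) : ℝ) ^ (-(1 / 2 : ℝ) ^ m)
      ≤ (C * n j) * ((n j : ℝ) ^ 4)⁻¹ :=
        mul_le_mul h3 h4 (by positivity) (by positivity)
    _ = C * ((n j : ℝ) ^ 3)⁻¹ := by field_simp

theorem summable_nat3 : Summable fun j : ℕ => ((((j + 1 : ℕ) : ℝ)) ^ 3)⁻¹ := by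
  have h := (summable_nat_add_iff 1).2 (Real.summable_nat_pow_inv.2 (by norm_num : 1 < 3))
  exact h

theorem summable_box3 (k : ℕ) :
    Summable fun j : Fin k → ℕ => (((∏ r, (j r + 1) : ℕ) : ℝ) ^ 3)⁻¹ := by
  classical
  set g : ℕ → ℝ := fun j => ((((j + 1 : ℕ) : ℝ)) ^ 3)⁻¹ with hg
  have hg0 : ∀ j, 0 ≤ g j := fun j => by positivity
  have e : ∀ j : Fin k → ℕ, (((∏ r, (j r + 1) : ℕ) : ℝ) ^ 3)⁻¹ = ∏ r, g (j r) := by
    intro j
    simp only [hg]
    rw [prod_inv_distrib, prod_pow]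
    push_cast
    rfl
  simp_rw [e]
  refine summable_of_sum_le (c := (∑' j, g j) ^ k) (fun j => prod_nonneg fun r _ => hg0 _) ?_
  intro u
  obtain ⟨R, hR⟩ : ∃ R : ℕ, ∀ j ∈ u, ∀ r, j r < R := by
    refine ⟨(u.sup fun j => univ.sup fun r => j r) + 1, fun j hj r => ?_⟩
    have h1 : j r ≤ univ.sup fun r => j r := le_sup (f := fun r => j r) (mem_univ r)
    have h2 : (univ.sup fun r => j r) ≤ u.sup fun j => univ.sup fun r => j r :=
      le_sup (f := fun j => univ.sup fun r => j r) hj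
    omega
  have hsub : u ⊆ Fintype.piFinset fun _ : Fin k => range R := by
    intro j hj
    rw [Fintype.mem_piFinset]
    exact fun r => mem_range.2 (hR j hj r)
  refine (sum_le_sum_of_subset_of_nonneg hsub fun j _ _ => prod_nonneg fun r _ => hg0 _).trans ?_
  rw [← prod_univ_sum (fun _ : Fin k => range R) fun _ a => g a, prod_const, card_univ,
    Fintype.card_fin]
  exact pow_le_pow_left₀ (sum_nonneg fun a _ => hg0 a)
    (summable_nat3.sum_le_tsum _ fun a _ => hg0 a) k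

variable {Ω : Type*} {mΩ : MeasurableSpace Ω}

/-- one-sided times -/
theorem main_nat {m : ℕ} {P : Measure Ω} [IsProbabilityMeasure P] {θ : Fin m → ℕ → Ω → ℕ}
    {L : Fin m → ℕ → ℕ} (h : IsNoise P θ L)
    (hslow : ∀ q : ℕ, ∃ C : ℕ, ∀ i, ∀ n : ℕ, 1 ≤ n → L i n ^ q ≤ C * n) :
    ∀ᵐ ω ∂P, (∀ i t, θ i t ω < L i t) ∧
      ∀ (G : Type w) [AddCommGroup G] (X : Type u) [MeasurableSpace X] (μ : Measure X)
      [IsProbabilityMeasure μ] (A : G → X → X), IsAct μ A →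
      ∀ (S : Fin m → (ℤ →+ G)) (v : Fin m → G) (f : Fin m → X → ℝ),
        (∀ i, Measurable (f i) ∧ ∀ x, |f i x| ≤ 1) →
      ∀ᵐ x ∂μ, Tendsto (fun N : ℕ => (∑ t ∈ Icc 1 N,
        (∏ i, f i (A (θ i t ω • v i) (A (S i (t : ℤ)) x)) -
        ∏ i, Mv A (v i) (L i t) (f i) (A (S i (t : ℤ)) x))) / (Icc 1 N).card) atTop (𝓝 0) := by
  classical
  set p := 4 * 2 ^ m with hp
  have hp1 : 1 ≤ p := by have : 0 < 4 * 2 ^ m := by positivity
                         omega
  obtain ⟨C, hC⟩ := hslow (2 * m * p)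
  set T : ℕ → Finset ℕ := fun j => Icc 1 ((j + 1) ^ p) with hT
  set K : ℕ → ℕ := fun j => (univ ×ˢ T j).sup fun q => L q.1 q.2 with hK
  have hTc : ∀ j, (T j).card = (j + 1) ^ p := fun j => by simp [hT]
  refine main (C := 2) (J := ℕ) (D := ℕ) h (τ := fun n : ℕ => (n : ℤ))
    (fun a b hab => by simpa using hab) T (fun j => ?_) (by norm_num) (fun j => ?_) K
    (fun j t ht i => ?_) ?_ (fun N => Icc 1 N) (fun N => rt p N - 1) ?_ ?_ ?_
  · rw [← card_pos, hTc]; positivity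
  · have h1 : (T j).image (fun n : ℕ => (n : ℤ)) - (T j).image (fun n : ℕ => (n : ℤ)) ⊆
        Icc (-(((j + 1) ^ p : ℕ) : ℤ) + 1) ((((j + 1) ^ p : ℕ) : ℤ) - 1) := by
      intro z hz
      rw [Finset.mem_sub] at hz
      obtain ⟨a, ha, b, hb, rfl⟩ := hz
      simp only [mem_image, hT, mem_Icc] at ha hb
      obtain ⟨a, ha, rfl⟩ := ha
      obtain ⟨b, hb, rfl⟩ := hb
      rw [mem_Icc]
      omega
    have h2 := card_le_card h1
    rw [Int.card_Icc] at h2
    have h3 : ((T j).image (fun n : ℕ => (n : ℤ)) - (T j).image (fun n : ℕ => (n : ℤ))).card ≤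
        2 * (T j).card := by
      rw [hTc]
      omega
    exact_mod_cast h3
  · exact le_sup (f := fun q : Fin m × ℕ => L q.1 q.2) (mk_mem_product (mem_univ i) ht)
  · refine slow_sum m (fun j => j + 1) (fun j => (T j).card) K (C + 1) (by omega)
      (fun j => by omega) (fun j => by rw [hTc]) (fun j => ?_) summable_nat3
    refine sup_pow_le _ _ _ _ (fun b hb => ?_) ?_
    · have h3 := (mem_product.1 hb).2
      simp only [hT, mem_Icc] at h3
      refine (hC b.1 b.2 h3.1).trans ?_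
      exact Nat.mul_le_mul (by omega) h3.2
    · have : 0 < (C + 1) * (j + 1) ^ p := by positivity
      exact this
  · rw [Nat.cofinite_eq_atTop]
    exact (tendsto_sub_atTop_nat 1).comp (rt_tendsto hp1)
  · filter_upwards [eventually_ge_atTop 1] with N hN
    have h1 := rt_pos hp1 hN
    have h2 := rt_pow_le hp1 N
    simp only [hT]
    rw [Nat.sub_add_cancel h1]
    exact Icc_subset_Icc le_rfl h2
  · refine (rt_ratio hp1).congr' ?_
    filter_upwards [eventually_ge_atTop 1] with N hN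
    rw [hTc, Nat.sub_add_cancel (rt_pos hp1 hN), Nat.card_Icc]
    simp

/-- two-sided times -/
theorem main_int {m : ℕ} {P : Measure Ω} [IsProbabilityMeasure P] {θ : Fin m → ℤ → Ω → ℕ}
    {L : Fin m → ℤ → ℕ} (h : IsNoise P θ L)
    (hslow : ∀ q : ℕ, ∃ C : ℕ, ∀ i, ∀ n : ℤ, L i n ^ q ≤ C * (n.natAbs + 1)) :
    ∀ᵐ ω ∂P, (∀ i t, θ i t ω < L i t) ∧
      ∀ (G : Type w) [AddCommGroup G] (X : Type u) [MeasurableSpace X] (μ : Measure X)
      [IsProbabilityMeasure μ] (A : G → X → X), IsAct μ A →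
      ∀ (S : Fin m → (ℤ →+ G)) (v : Fin m → G) (f : Fin m → X → ℝ),
        (∀ i, Measurable (f i) ∧ ∀ x, |f i x| ≤ 1) →
      ∀ᵐ x ∂μ, Tendsto (fun N : ℕ => (∑ t ∈ Icc (-(N : ℤ)) (N : ℤ),
        (∏ i, f i (A (θ i t ω • v i) (A (S i t) x)) -
        ∏ i, Mv A (v i) (L i t) (f i) (A (S i t) x))) / (Icc (-(N : ℤ)) (N : ℤ)).card)
        atTop (𝓝 0) := by
  classical
  set p := 4 * 2 ^ m with hp
  have hp1 : 1 ≤ p := by have : 0 < 4 * 2 ^ m := by positivity
                         omega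
  obtain ⟨C, hC⟩ := hslow (2 * m * p)
  have hcard : ∀ M : ℕ, (Icc (-(M : ℤ)) (M : ℤ)).card = 2 * M + 1 := fun M => by
    rw [Int.card_Icc]; omega
  set T : ℕ → Finset ℤ := fun j => Icc (-(((j + 1) ^ p : ℕ) : ℤ)) (((j + 1) ^ p : ℕ) : ℤ) with hT
  set K : ℕ → ℕ := fun j => (univ ×ˢ T j).sup fun q => L q.1 q.2 with hK
  have hTc : ∀ j, (T j).card = 2 * (j + 1) ^ p + 1 := fun j => hcard _
  refine main (C := 2) (J := ℕ) (D := ℕ) h (τ := fun n : ℤ => n)
    (fun a b hab => hab) T (fun j => ?_) (by norm_num) (fun j => ?_) K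
    (fun j t ht i => ?_) ?_ (fun N => Icc (-(N : ℤ)) (N : ℤ)) (fun N => rt p N - 1) ?_ ?_ ?_
  · rw [← card_pos, hTc]; positivity
  · rw [image_id']
    have h1 : T j - T j ⊆
        Icc (-(2 * (((j + 1) ^ p : ℕ) : ℤ))) (2 * (((j + 1) ^ p : ℕ) : ℤ)) := by
      intro z hz
      rw [Finset.mem_sub] at hz
      obtain ⟨a, ha, b, hb, rfl⟩ := hz
      simp only [hT, mem_Icc] at ha hb
      rw [mem_Icc]
      omega
    have h2 := card_le_card h1
    rw [Int.card_Icc] at h2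
    have h3 : (T j - T j).card ≤ 2 * (T j).card := by
      rw [hTc]
      omega
    exact_mod_cast h3
  · exact le_sup (f := fun q : Fin m × ℤ => L q.1 q.2) (mk_mem_product (mem_univ i) ht)
  · refine slow_sum m (fun j => j + 1) (fun j => (T j).card) K (2 * C + 1) (by omega)
      (fun j => by omega) (fun j => by rw [hTc, hp]; omega) (fun j => ?_) summable_nat3
    have hpos : 0 < (j + 1) ^ p := by positivity
    refine sup_pow_le _ _ _ _ (fun b hb => ?_) ?_
    · have h3 := (mem_product.1 hb).2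
      simp only [hT, mem_Icc] at h3
      refine (hC b.1 b.2).trans ?_
      have h4 : b.2.natAbs ≤ (j + 1) ^ p := by omega
      calc C * (b.2.natAbs + 1) ≤ C * (2 * (j + 1) ^ p) := Nat.mul_le_mul_left _ (by omega)
        _ ≤ (2 * C + 1) * (j + 1) ^ p := by nlinarith
    · have : 0 < (2 * C + 1) * (j + 1) ^ p := by positivity
      exact this
  · rw [Nat.cofinite_eq_atTop]
    exact (tendsto_sub_atTop_nat 1).comp (rt_tendsto hp1)
  · filter_upwards [eventually_ge_atTop 1] with N hN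
    have h1 := rt_pos hp1 hN
    have h2 := rt_pow_le hp1 N
    simp only [hT]
    rw [Nat.sub_add_cancel h1]
    have h3 : (((rt p N) ^ p : ℕ) : ℤ) ≤ N := by exact_mod_cast h2
    exact Icc_subset_Icc (by omega) h3
  · refine tendsto_of_tendsto_of_tendsto_of_le_of_le' tendsto_const_nhds (rt_ratio hp1) ?_ ?_
    · filter_upwards [eventually_ge_atTop 1] with N hN
      have h2 := rt_pow_le hp1 N
      rw [hTc, Nat.sub_add_cancel (rt_pos hp1 hN), hcard]
      rw [le_div_iff₀ (by positivity), one_mul]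
      exact_mod_cast (by omega : 2 * rt p N ^ p + 1 ≤ 2 * N + 1)
    · filter_upwards [eventually_ge_atTop 1] with N hN
      have h2 := rt_pow_le hp1 N
      have h3 : 0 < rt p N ^ p := pow_pos (rt_pos hp1 hN) _
      rw [hTc, Nat.sub_add_cancel (rt_pos hp1 hN), hcard]
      have h4 : (0 : ℝ) < ((rt p N ^ p : ℕ) : ℝ) := by exact_mod_cast h3
      rw [div_le_div_iff₀ (by positivity) h4]
      have h5 : (2 * N + 1) * (rt p N ^ p) ≤ N * (2 * rt p N ^ p + 1) := by nlinarith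
      exact_mod_cast h5

end Pool.Agent.Q83.NT
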